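import Pool.Agent.Q236.FL.TwoLaw
import Pool.Agent.Q236.UL.Gen

set_option autoImplicit false

/-!
# The joint law for families in two variables: levels, intervals and resultants
-/

namespace Pool.Agent.Q236.FL

open Finset Filter Pool.Agent.H373R2.T7 Pool.Agent.W123.RP Pool.Agent.W123.RU Pool.Agent.TH464.PO
open Pool.Agent.TH464.PW Pool.Agent.Y879.AP Pool.Agent.Y879.GL Pool.Agent.Q236.GW
open Pool.Agent.Q236.CP Pool.Agent.Q236.ML Pool.Agent.Q236.UL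

variable {τ : Type*} [Fintype τ] [DecidableEq τ]

/-- the shifted family -/
def Fz (F : τ → ℕ → ℕ → ℕ → Prop) (Z : ℕ) (t : τ) (p n b : ℕ) : Prop := F t p (n + Z) b

omit [Fintype τ] [DecidableEq τ] in
lemma Eb_Fz (P0 : ℕ → ℕ → Prop) (F : τ → ℕ → ℕ → ℕ → Prop) (Z : ℕ) (i : Option (τ × ℕ)) :
    Eb (Qt P0 Z) (Fz F Z) i = Qt (Eb P0 F i) Z := by
  rcases i with _ | ⟨t, b⟩
  · rfl
  · rfl

omit [Fintype τ] [DecidableEq τ] in
lemma two_Fz (F : τ → ℕ → ℕ → ℕ → Prop) (c : ℕ) (hF : Two F c) (Z : ℕ) : Two (Fz F Z) c :=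
  ⟨fun t b => perB_Qt (fun p n => F t p n b) c (hF.pern t b) Z, fun t n => hF.perb t (n + Z)⟩

omit [Fintype τ] [DecidableEq τ] in
lemma Col_Fz (P0 : ℕ → ℕ → Prop) (F : τ → ℕ → ℕ → ℕ → Prop) (Z : ℕ) (i j : Option (τ × ℕ)) (p : ℕ)
    (h : Col (Eb (Qt P0 Z) (Fz F Z)) i j p) : Col (Eb P0 F) i j p := by
  obtain ⟨n, h1, h2⟩ := h
  rw [Eb_Fz] at h1 h2
  exact ⟨n + Z, h1, h2⟩

lemma Vt_Eb (P0 : ℕ → ℕ → Prop) (F : τ → ℕ → ℕ → ℕ → Prop) (c : ℕ) (hP0 : PerB P0 c) (hF : Two F c) (Z w y : ℕ)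
    (i : Option (τ × ℕ)) : Vt (Eb (Qt P0 Z) (Fz F Z) i) w y = Vt (Eb P0 F i) w y := by
  rw [Eb_Fz]
  exact Vt_Qt' _ c (per_Eb P0 F c hP0 hF i) Z w y

lemma rh_Eb (P0 : ℕ → ℕ → Prop) (F : τ → ℕ → ℕ → ℕ → Prop) (c : ℕ) (hP0 : PerB P0 c) (hF : Two F c) (Z w y : ℕ)
    (J : Finset (Option (τ × ℕ))) : rh (Eb (Qt P0 Z) (Fz F Z)) none w y J = rh (Eb P0 F) none w y J := by
  unfold rh
  have h1 : EH (Eb (Qt P0 Z) (Fz F Z)) (insert none J) = Qt (EH (Eb P0 F) (insert none J)) Z := by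
    have h0 : Eb (Qt P0 Z) (Fz F Z) = fun i => Qt (Eb P0 F i) Z := funext fun i => Eb_Fz P0 F Z i
    rw [h0]
    rfl
  rw [h1, Vt_Eb P0 F c hP0 hF, Vt_Qt' _ _ (perB_EH (Eb P0 F) c (per_Eb P0 F c hP0 hF) (insert none J))]

open Classical in
lemma sum_OmY (P : ℕ → ℕ → Prop) (y Z Y : ℕ) (f : ℕ → ℝ) :
    ∑ n ∈ OmY P y Z Y, f n = ∑ n ∈ OmG (Qt P Z) y Y, f (n + Z) := by
  symm
  have hsf : ∀ n : ℕ, Sf (Qt P Z) y n ↔ Sf P y (n + Z) := fun n => by rw [sf_Qt]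
  apply Finset.sum_bij (fun n _ => n + Z)
  · intro n h1
    unfold OmG at h1
    rw [mem_filter, mem_Icc, hsf] at h1
    unfold OmY
    rw [mem_filter, mem_Ioc]
    exact ⟨by omega, h1.2⟩
  · intro a _ b _ hab
    omega
  · intro n h1
    unfold OmY at h1
    rw [mem_filter, mem_Ioc] at h1
    have e : n - Z + Z = n := by omega
    refine ⟨n - Z, ?_, e⟩
    unfold OmG
    rw [mem_filter, mem_Icc, hsf, e]
    exact ⟨by omega, h1.2⟩
  · intro n _
    rfl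

open Classical in
/-- the live points of the windows -/
noncomputable def Bw (live : τ → ℕ → Prop) (u v : τ → ℕ) (t : τ) : Finset ℕ :=
  (Ioc (u t) (v t)).filter (fun b => live t b)

open Classical in
/-- the hypotheses on the family at level `y` -/
structure FH (P0 : ℕ → ℕ → Prop) (F : τ → ℕ → ℕ → ℕ → Prop) (Ec : τ → ℕ → ℕ → Prop)
    (ex : Option (τ × ℕ) × Option (τ × ℕ) → Prop) (full : τ → ℕ → ℕ) (live : τ → ℕ → Prop) (c De w y : ℕ)
    (u v : τ → ℕ) (κ Λ1 Lx Lv : ℝ) (Bv : ℕ) (XA : ℝ) : Prop where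
  hP : PerB P0 c
  hF : Two F c
  hE : ∀ t, Coll (Ec t) w De
  adm : ∀ p : ℕ, p.Prime → nuB P0 p < p
  liv : ∀ t b n, Sf P0 w n → Sf (fun p m => F t p m b) w n → live t b
  fc : ∀ t, ∀ p ∈ pz y, w < p → full t p ≤ c
  ful : ∀ t, ∀ b ∈ Bw live u v t, ∀ p ∈ pz y, w < p → ¬ Ec t p b → nuB (fun p n => F t p n b) p = full t p
  exo : ∀ i, ¬ ex (none, i) ∧ ¬ ex (i, none)
  uv : ∀ t, u t ≤ v t
  exp : ∑ x ∈ (Al (Bx (Bw live u v))).offDiag.filter (fun x => ex x),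
    Vt (Eb P0 F x.1) w y * Vt (Eb P0 F x.2) w y ≤ κ
  exr : ∑ x ∈ (Al (Bx (Bw live u v))).offDiag.filter (fun x => ex x), rh (Eb P0 F) none w y {x.1, x.2} ≤ κ
  vW : ∀ t, v t * Wt (full t) w y ≤ Λ1
  W : ∀ t, Wt (full t) w y ≤ Λ1 / Lx
  hv : ∀ t, (v t : ℝ) ≤ Lv ^ Bv
  res : ∀ i ∈ insert none (Al (Bx (Bw live u v))), ∀ t, ∀ b ∈ Bw live u v t, i ≠ some (t, b) →
    ¬ ex (i, some (t, b)) →
    ∃ R : ℕ, 0 < R ∧ (R : ℝ) ≤ XA ∧ ∀ p : ℕ, p.Prime → v t < p → CoT P0 F Ec i t p b → p ∣ R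

open Classical in
/-- **The joint law for families in two variables, from bounds for the resultants.** -/
theorem two_gen (c De D B Bv w1 : ℕ) (hD : 0 < D) (Λ Λ1 ε : ℝ) (hΛ : 0 ≤ Λ) (hΛ1 : 0 ≤ Λ1) (hε : 0 < ε)
    (A θ : ℝ) (hA : 0 < A) (hθ : 0 < θ) : ∃ (w : ℕ) (κ : ℝ) (r0 : ℕ), 1 ≤ w ∧ w1 ≤ w ∧ 2 * c ≤ w ∧ 0 < κ ∧ 2 ≤ r0 ∧
      ∀ r : ℕ, r0 ≤ r → ∀ Cv : ℝ, 0 < Cv → ∀ᶠ X : ℕ in atTop, ∀ (P0 : ℕ → ℕ → Prop) (F : τ → ℕ → ℕ → ℕ → Prop)
        (Ec : τ → ℕ → ℕ → Prop) (ex : Option (τ × ℕ) × Option (τ × ℕ) → Prop) (col : Option (τ × ℕ) → Fin D)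
        (full : τ → ℕ → ℕ) (live : τ → ℕ → Prop) (u v : ℕ → τ → ℕ) (Z Y : ℕ),
      (∀ x, ex x → col x.1 ≠ col x.2) →
      (∀ a, FH P0 F Ec ex full live c De w ⌊(X : ℝ) ^ (1 / (r : ℝ))⌋₊ (u a) (v a) κ (Λ1 * Real.log w ^ B)
        (Real.log X / (Cv * Real.log (Real.log X))) (Real.log X) Bv ((X : ℝ) ^ A)) → (X : ℝ) ^ θ ≤ Y →
      ∀ S : ℕ → Finset (τ → ℕ), |(((OmY P0 ⌊(X : ℝ) ^ (1 / (r : ℝ))⌋₊ Z Y).filter
        (fun n => (fun t => NF F ⌊(X : ℝ) ^ (1 / (r : ℝ))⌋₊ t (Ioc (u (n % Mw w) t) (v (n % Mw w) t)) n) ∈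
          S (n % Mw w))).card : ℝ) -
        ∑ n ∈ OmY P0 ⌊(X : ℝ) ^ (1 / (r : ℝ))⌋₊ Z Y,
          PoJ (xF F full w ⌊(X : ℝ) ^ (1 / (r : ℝ))⌋₊ (u (n % Mw w)) (v (n % Mw w)) n) (S (n % Mw w))| ≤
        ε * (OmY P0 ⌊(X : ℝ) ^ (1 / (r : ℝ))⌋₊ Z Y).card +
          ((OmY P0 ⌊(X : ℝ) ^ (1 / (r : ℝ))⌋₊ Z Y).filter
            (fun n => ¬ ∀ t, xF F full w ⌊(X : ℝ) ^ (1 / (r : ℝ))⌋₊ (u (n % Mw w)) (v (n % Mw w)) n t ≤ Λ)).card := by
  obtain ⟨R, w, K0, y0, κ, hw, hww1, hwc, hK0, hκ, hlaw⟩ := two_law (τ := τ) c De D B w1 hD Λ (Λ1 + 2 * Λ1)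
    ε hΛ (by linarith) hε
  obtain ⟨v0, hv0, hV⟩ := V_lower_unif c
  obtain ⟨R1, hR1⟩ : ∃ R1 : ℕ, (K0 : ℝ) / θ ≤ R1 := exists_nat_ge _
  refine ⟨w, κ, max R1 2, hw, hww1, hwc, hκ, le_max_right _ _, ?_⟩
  intro r hr Cv hCv
  have hr2 : 2 ≤ r := (le_max_right _ _).trans hr
  have hrr : (2 : ℝ) ≤ r := by exact_mod_cast hr2
  have hrpos : (0 : ℝ) < r := by linarith
  have hrK : (K0 : ℝ) ≤ θ * r := by
    have h1 : (K0 : ℝ) / θ ≤ r := hR1.trans (by exact_mod_cast (le_max_left _ _).trans hr)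
    rw [div_le_iff₀ hθ] at h1
    linarith
  have hpow2 : Tendsto (fun X : ℕ => (X : ℝ) ^ (1 / (2 * r : ℝ))) atTop atTop :=
    (tendsto_rpow_atTop (by positivity)).comp tendsto_natCast_atTop_atTop
  have hlogX : Tendsto (fun X : ℕ => Real.log (X : ℝ)) atTop atTop :=
    Real.tendsto_log_atTop.comp tendsto_natCast_atTop_atTop
  have hllX : Tendsto (fun X : ℕ => Real.log (Real.log (X : ℝ))) atTop atTop := Real.tendsto_log_atTop.comp hlogX
  have hlo : ∀ᶠ X : ℕ in atTop, Cv * Real.log (Real.log X) ≤ √(Real.log X) := by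
    have h := ((isLittleO_log_rpow_atTop (by norm_num : (0 : ℝ) < 1 / 2)).comp_tendsto hlogX).bound
      (by positivity : (0 : ℝ) < 1 / Cv)
    filter_upwards [h, hlogX.eventually_ge_atTop 1] with X h1 h2
    simp only [Function.comp_def] at h1
    rw [Real.norm_of_nonneg (Real.log_nonneg h2), Real.norm_of_nonneg (by positivity), ← Real.sqrt_eq_rpow] at h1
    calc Cv * Real.log (Real.log X) ≤ Cv * (1 / Cv * √(Real.log X)) := mul_le_mul_of_nonneg_left h1 hCv.le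
      _ = _ := by field_simp
  obtain ⟨T0, hlaw⟩ := hlaw (2 * A * Cv) (by positivity)
  obtain ⟨s, hs⟩ : ∃ s : ℝ, s = Fintype.card τ := ⟨_, rfl⟩
  have hs0 : 0 ≤ s := by rw [hs]; positivity
  obtain ⟨G1, hG1⟩ : ∃ G1 : ℝ, G1 = (s + 1) ^ R / (κ * v0) + 1 := ⟨_, rfl⟩
  have hG10 : 0 < G1 := by
    rw [hG1]
    positivity
  filter_upwards [hpow2.eventually_ge_atTop ((y0 : ℝ) + 3), eventually_ge_atTop 16,
    hlogX.eventually_ge_atTop (((T0 : ℝ) + 3) ^ 2), hllX.eventually_ge_atTop 1, hlo,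
    logpow_rpow (Bv * R + c) G1 (θ / 2) hG10 (by positivity)] with X hX1 hX16 hX4 hX6 hX7 hX5
  intro P0 F Ec ex col full live u' v' Z Y hcol hFH' hXY A'
  have hX16r : (16 : ℝ) ≤ X := by exact_mod_cast hX16
  have hXpos : (0 : ℝ) < X := by linarith
  have hXone : (1 : ℝ) ≤ X := by linarith
  have hlX0 : 0 < Real.log X := Real.log_pos (by linarith)
  have hlX1 : 1 ≤ Real.log X := by
    rw [Real.le_log_iff_exp_le hXpos]
    have := Real.exp_one_lt_d9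
    linarith
  have hy0r : (0 : ℝ) ≤ y0 := Nat.cast_nonneg _
  obtain ⟨hy1, hy2, hy3, hy4⟩ := level_low r hr2 X (by omega) (by linarith)
  obtain ⟨y, hy⟩ : ∃ y, y = ⌊(X : ℝ) ^ (1 / (r : ℝ))⌋₊ := ⟨_, rfl⟩
  rw [← hy] at hy1 hy2 hy3 hy4 hFH' ⊢
  have hyr : (y0 : ℝ) + 3 ≤ y := hX1.trans hy1
  have hyy0 : y0 ≤ y := by
    have : (y0 : ℝ) ≤ y := by linarith
    exact_mod_cast this
  have hy3' : 3 ≤ y := by
    have : (3 : ℝ) ≤ y := by linarith
    exact_mod_cast this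
  have hlogy : 0 < Real.log y := lt_of_lt_of_le (by positivity) hy2
  have hyK : y ^ K0 ≤ Y := by
    have h3 : ((y ^ K0 : ℕ) : ℝ) ≤ Y := by
      push_cast
      calc (y : ℝ) ^ K0 ≤ ((X : ℝ) ^ (1 / (r : ℝ))) ^ K0 := by
            apply pow_le_pow_left₀ (Nat.cast_nonneg _)
            rw [hy]
            exact Nat.floor_le (by positivity)
        _ = (X : ℝ) ^ (1 / (r : ℝ) * K0) := by
            rw [Real.rpow_mul hXpos.le, Real.rpow_natCast]
        _ ≤ (X : ℝ) ^ θ := by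
            apply Real.rpow_le_rpow_of_exponent_le hXone
            rw [one_div, inv_mul_eq_div, div_le_iff₀ hrpos]
            exact hrK
        _ ≤ Y := hXY
    exact_mod_cast h3
  have hlogw0 : 0 ≤ Real.log w := Real.log_natCast_nonneg w
  have hL0 : 0 ≤ Λ1 * Real.log w ^ B := by positivity
  have hFH0 := hFH' 0
  have hW0 : ∀ t, 0 ≤ Wt (full t) w y := fun t => Wt_nonneg (full t) c w y (hFH0.fc t) hwc
  -- the lengths
  obtain ⟨Lx, hLx⟩ : ∃ Lx : ℝ, Lx = Real.log X / (Cv * Real.log (Real.log X)) := ⟨_, rfl⟩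
  rw [← hLx] at hFH' hFH0
  have hll0 : 0 < Real.log (Real.log X) := by linarith
  have hsq : (T0 : ℝ) + 3 ≤ √(Real.log X) := by
    rw [← Real.sqrt_sq (by positivity : (0 : ℝ) ≤ T0 + 3)]
    exact Real.sqrt_le_sqrt hX4
  have hsq0 : 0 < √(Real.log X) := Real.sqrt_pos.2 hlX0
  have hLxs : √(Real.log X) ≤ Lx := by
    rw [hLx, le_div_iff₀ (by positivity)]
    calc √(Real.log X) * (Cv * Real.log (Real.log X)) ≤ √(Real.log X) * √(Real.log X) :=
          mul_le_mul_of_nonneg_left hX7 hsq0.le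
      _ = _ := Real.mul_self_sqrt hlX0.le
  have hT0r : (0 : ℝ) ≤ T0 := Nat.cast_nonneg _
  have hLx1 : 1 ≤ Lx := by linarith
  have hTbig : ∀ T : ℕ, Lx ≤ T → T0 ≤ T ∧ 2 ≤ T ∧ A * Real.log X ≤ 2 * A * Cv * T * Real.log T := by
    intro T hT
    refine ⟨?_, ?_, ?_⟩
    · have : (T0 : ℝ) ≤ T := by linarith
      exact_mod_cast this
    · have : (2 : ℝ) ≤ T := by linarith
      exact_mod_cast this
    · have h1 : 1 / 2 * Real.log (Real.log X) ≤ Real.log T := by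
        have h2 := Real.log_le_log hsq0 (hLxs.trans hT)
        rw [Real.log_sqrt hlX0.le] at h2
        linarith
      have h3 : Lx * (Cv * Real.log (Real.log X)) = Real.log X := by
        rw [hLx]
        exact div_mul_cancel₀ _ (by positivity)
      calc A * Real.log X = 2 * A * Cv * Lx * (1 / 2 * Real.log (Real.log X)) := by
            linear_combination (-A) * h3
        _ ≤ 2 * A * Cv * T * Real.log T := by
            apply mul_le_mul _ h1 (by positivity) (by positivity)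
            exact mul_le_mul_of_nonneg_left hT (by positivity)
  have hPF' : ∀ a0, ∃ T : τ → ℕ, PF (Qt P0 Z) (Fz F Z) Ec ex full w y (Bl live u' v' a0) T T0
      ((Λ1 + 2 * Λ1) * Real.log w ^ B) (2 * A * Cv) := by
   intro a0
   obtain ⟨u, hu⟩ : ∃ u, u = u' a0 := ⟨_, rfl⟩
   obtain ⟨v, hv⟩ : ∃ v, v = v' a0 := ⟨_, rfl⟩
   have hFH := hFH' a0
   have hBl : Bl live u' v' a0 = Bw live u v := by rw [hu, hv]; rfl
   rw [← hu, ← hv] at hFH
   rw [hBl]
   obtain ⟨T, hT⟩ : ∃ T : τ → ℕ, T = fun t => max (v t) ⌈Lx⌉₊ := ⟨_, rfl⟩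
   have hTv : ∀ t, v t ≤ T t := fun t => by rw [hT]; exact le_max_left _ _
   have hTl : ∀ t, Lx ≤ T t := fun t => by
     rw [hT]
     refine (Nat.le_ceil _).trans ?_
     exact_mod_cast le_max_right _ _
   have hPF : PF (Qt P0 Z) (Fz F Z) Ec ex full w y (Bw live u v) T T0 ((Λ1 + 2 * Λ1) * Real.log w ^ B) (2 * A * Cv) := by
     refine ⟨fun t b hb => ?_, fun t => (hTbig (T t) (hTl t)).1, ?_, ?_⟩
     · unfold Bw at hb
       rw [mem_filter, mem_Ioc] at hb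
       have := hTv t
       rw [mem_Icc]
       omega
     · intro t
       have h1 : (T t : ℝ) ≤ v t + 2 * Lx := by
         rw [hT]
         push_cast
         have h2 := Nat.ceil_lt_add_one (by linarith : 0 ≤ Lx)
         have h3 : (0 : ℝ) ≤ v t := Nat.cast_nonneg _
         apply max_le
         · linarith
         · linarith
       calc T t * Wt (full t) w y ≤ (v t + 2 * Lx) * Wt (full t) w y :=
             mul_le_mul_of_nonneg_right h1 (hW0 t)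
         _ = v t * Wt (full t) w y + 2 * Lx * Wt (full t) w y := by ring
         _ ≤ Λ1 * Real.log w ^ B + 2 * Lx * (Λ1 * Real.log w ^ B / Lx) := by
             apply add_le_add (hFH.vW t)
             exact mul_le_mul_of_nonneg_left (hFH.W t) (by positivity)
         _ = (Λ1 + 2 * Λ1) * Real.log w ^ B := by
             have : Lx ≠ 0 := by positivity
             field_simp
     · intro i hi t b hb hne hex
       obtain ⟨R', hR0, hRA, hRd⟩ := hFH.res i hi t b hb hne hex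
       obtain ⟨_, hT2, h2⟩ := hTbig (T t) (hTl t)
       have h3 := card_primes_le ((pz y).filter (fun p : ℕ => T t < p ∧ CoT (Qt P0 Z) (Fz F Z) Ec i t p b))
         (T t) R' hT2 hR0 ((X : ℝ) ^ A) hRA (fun p hp => by
           rw [mem_filter] at hp
           have hpp := (mem_pz.1 hp.1).2
           have := hTv t
           refine ⟨hpp, hp.2.1, hRd p hpp (by omega) ?_⟩
           rcases hp.2.2 with h | h
           · exact Or.inl h
           · exact Or.inr (Col_Fz P0 F Z _ _ p h))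
       rw [Real.log_rpow hXpos] at h3
       have hlT0 : 0 < Real.log (T t) := Real.log_pos (by exact_mod_cast (by omega : 1 < T t))
       exact le_of_mul_le_mul_right (h3.trans h2) hlT0
   exact ⟨T, hPF⟩
  have hadm : ∀ p : ℕ, p.Prime → nuB (Qt P0 Z) p < p := by
    intro p hp
    rw [nuB_Qt P0 c hFH0.hP]
    exact hFH0.adm p hp
  have hsize' : ∀ a0, (((∑ t, v' a0 t : ℕ) : ℝ) + 1) ^ R * √(Y : ℝ) ≤ κ * (Y * Vq (Qt P0 Z) y) := by
   intro a0
   obtain ⟨v, hv⟩ : ∃ v, v = v' a0 := ⟨_, rfl⟩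
   have hFH := hFH' a0
   rw [← hv] at hFH ⊢
   have hsize : (((∑ t, v t : ℕ) : ℝ) + 1) ^ R * √(Y : ℝ) ≤ κ * (Y * Vq (Qt P0 Z) y) := by
     rw [Vq_Qt P0 c hFH.hP]
     have h1 : ((∑ t, v t : ℕ) : ℝ) ≤ s * Real.log X ^ Bv := by
       push_cast
       refine (Finset.sum_le_sum fun t _ => hFH.hv t).trans ?_
       rw [Finset.sum_const, Finset.card_univ, nsmul_eq_mul, ← hs]
     have hlogc : 1 ≤ Real.log X ^ Bv := one_le_pow₀ hlX1
     have h2 : (((∑ t, v t : ℕ) : ℝ) + 1) ^ R ≤ (s + 1) ^ R * Real.log X ^ (Bv * R) := by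
       rw [pow_mul, ← mul_pow]
       apply pow_le_pow_left₀ (by positivity)
       nlinarith
     have h3 : (X : ℝ) ^ (θ / 2) ≤ √(Y : ℝ) := by
       rw [← Real.sqrt_sq (by positivity : 0 ≤ (X : ℝ) ^ (θ / 2))]
       apply Real.sqrt_le_sqrt
       rw [← Real.rpow_natCast, ← Real.rpow_mul hXpos.le]
       have : θ / 2 * ((2 : ℕ) : ℝ) = θ := by push_cast; ring
       rw [this]
       exact hXY
     have hVlow : v0 / Real.log X ^ c ≤ Vq P0 y := by
       refine le_trans ?_ (hV P0 hFH.hP hFH.adm y (by omega))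
       apply div_le_div_of_nonneg_left hv0.le (by positivity)
       exact pow_le_pow_left₀ hlogy.le hy3 c
     have h4 : (s + 1) ^ R * Real.log X ^ (Bv * R) ≤ √(Y : ℝ) * (κ * (v0 / Real.log X ^ c)) := by
       have h5 : (s + 1) ^ R / (κ * v0) * Real.log X ^ (Bv * R + c) ≤ √(Y : ℝ) := by
         refine le_trans ?_ (hX5.trans h3)
         apply mul_le_mul_of_nonneg_right _ (by positivity)
         rw [hG1]
         linarith
       have h6 : (s + 1) ^ R * Real.log X ^ (Bv * R) =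
           ((s + 1) ^ R / (κ * v0) * Real.log X ^ (Bv * R + c)) * (κ * (v0 / Real.log X ^ c)) := by
         rw [pow_add]
         field_simp
       rw [h6]
       exact mul_le_mul_of_nonneg_right h5 (by positivity)
     have hYs : √(Y : ℝ) * √(Y : ℝ) = Y := Real.mul_self_sqrt (Nat.cast_nonneg _)
     calc (((∑ t, v t : ℕ) : ℝ) + 1) ^ R * √(Y : ℝ) ≤
         (s + 1) ^ R * Real.log X ^ (Bv * R) * √(Y : ℝ) :=
           mul_le_mul_of_nonneg_right h2 (Real.sqrt_nonneg _)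
       _ ≤ √(Y : ℝ) * (κ * (v0 / Real.log X ^ c)) * √(Y : ℝ) :=
           mul_le_mul_of_nonneg_right h4 (Real.sqrt_nonneg _)
       _ = κ * (Y * (v0 / Real.log X ^ c)) := by
           nth_rewrite 3 [← hYs]
           ring
       _ ≤ κ * (Y * Vq P0 y) := by
           apply mul_le_mul_of_nonneg_left _ hκ.le
           exact mul_le_mul_of_nonneg_left hVlow (Nat.cast_nonneg _)
   exact hsize
  choose T' hPF'' using hPF'
  have hmain := hlaw (Qt P0 Z) (Fz F Z) Ec ex col full live y Y (fun a => u' ((a + Z) % Mw w))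
    (fun a => v' ((a + Z) % Mw w)) (fun a => T' ((a + Z) % Mw w)) (perB_Qt P0 c hFH0.hP Z)
    (two_Fz F c hFH0.hF Z) hFH0.hE hadm (fun t b n h1 h2 => hFH0.liv t b (n + Z) (by
      intro p hp h3
      exact h1 p hp h3) (by
      intro p hp h3
      exact h2 p hp h3)) hFH0.fc (by
      intro a t b hb p hp hwp hE
      have h1 := (hFH' ((a + Z) % Mw w)).ful t b hb p hp hwp hE
      have h2 := nuB_Qt (fun p n => F t p n b) c (hFH0.hF.pern t b) Z p
      rw [← h1, ← h2]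
      rfl) hcol hFH0.exo hyy0 hyK (fun a => (hFH' _).uv) (by
      intro a
      refine le_trans (le_of_eq ?_) (hFH' ((a + Z) % Mw w)).exp
      apply Finset.sum_congr rfl
      intro x _
      rw [Vt_Eb P0 F c hFH0.hP hFH0.hF, Vt_Eb P0 F c hFH0.hP hFH0.hF]) (by
      intro a
      refine le_trans (le_of_eq ?_) (hFH' ((a + Z) % Mw w)).exr
      apply Finset.sum_congr rfl
      intro x _
      rw [rh_Eb P0 F c hFH0.hP hFH0.hF]) (fun a => hsize' _) (fun a => hPF'' _)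
      (fun a => A' ((a + Z) % Mw w))
  have hmod : ∀ n : ℕ, (n % Mw w + Z) % Mw w = (n + Z) % Mw w := fun n => Nat.mod_add_mod n (Mw w) Z
  simp only [hmod] at hmain
  rw [card_OmY P0 y Z Y (fun n => (fun t => NF F y t (Ioc (u' (n % Mw w) t) (v' (n % Mw w) t)) n) ∈ A' (n % Mw w)),
    sum_OmY, card_OmY P0 y Z Y (fun n => ¬ ∀ t, xF F full w y (u' (n % Mw w)) (v' (n % Mw w)) n t ≤ Λ)]
  have e5 := card_OmY P0 y Z Y (fun _ => True)
  rw [Finset.filter_true_of_mem (fun _ _ => trivial), Finset.filter_true_of_mem (fun _ _ => trivial)] at e5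
  rw [e5]
  exact hmain

end Pool.Agent.Q236.FL
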