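import Pool.Agent.Q236.UL.Glob
import Pool.Agent.Q236.UL.ShiftLaw

set_option autoImplicit false

/-!
# The global joint law with means depending on the classes modulo small primes
-/

namespace Pool.Agent.Q236.FL

open Finset Filter Pool.Agent.H373R2.T7 Pool.Agent.W123.RP Pool.Agent.W123.RU Pool.Agent.TH464.PO
open Pool.Agent.Q236.CP Pool.Agent.Q236.ML Pool.Agent.Q236.UL

variable {ι : Type*} [DecidableEq ι] {τ : Type*} [Fintype τ] [DecidableEq τ]

open Classical in
/-- the hypotheses of the global law, without the means -/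
structure GD (E : ι → ℕ → ℕ → Prop) (c : ℕ) (o : ι) (w y Y : ℕ) (I : τ → Finset ι) (ex : ι × ι → Prop)
    (R : ℕ) (η : ℝ) : Prop where
  per : ∀ i, PerB (E i) c
  adm : ∀ p : ℕ, p.Prime → nuB (E o) p < p
  no : o ∉ Al I
  disj : ∀ t u, t ≠ u → Disjoint (I t) (I u)
  size : (((Al I).card : ℝ) + 1) ^ R * √(Y : ℝ) ≤ η / 16 * (Y / Mw w * Vt (E o) w y)
  small : ∀ i ∈ Al I, Vt (E i) w y ≤ η
  pair : ∑ x ∈ (insert o (Al I)).offDiag.filter (fun x => ¬ ex x),
    Uw E o w y x.1 * Uw E o w y x.2 * (Fc E (KK R c) w y x - 1) ≤ η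
  expair : ∑ x ∈ (Al I).offDiag.filter (fun x => ex x), Vt (E x.1) w y * Vt (E x.2) w y ≤ η
  exrh : ∑ x ∈ (Al I).offDiag.filter (fun x => ex x), rh E o w y {x.1, x.2} ≤ η / 16
  exo : ∀ i ∈ Al I, ¬ ex (o, i) ∧ ¬ ex (i, o)
  wlarge : 2 * ((R + 1) * c) ≤ w
  w1 : 1 ≤ w
  E1 : (((R + 1) * c : ℕ) : ℝ) ^ 2 / w ≤ η

open Classical in
/-- the data of one class -/
lemma data_of' (c R : ℕ) (hR : 2 ≤ R) (η : ℝ) (hη : 0 < η) (hη1 : η ≤ 1) (w : ℕ) (hw : 1 ≤ w) :
    ∃ K0 x0 : ℕ, 1 ≤ K0 ∧ ∀ (E : ι → ℕ → ℕ → Prop) (o : ι) (y Y : ℕ) (I : τ → Finset ι) (ex : ι × ι → Prop),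
      w ≤ y → x0 ≤ y → y ^ K0 ≤ Y → GD E c o w y Y I ex R η → ∀ a : ℕ,
      Data E c o w y (Al (fun t => Ia E w a (I t))) ex (Oc (E o) w y a Y) R η (2 * √(Y : ℝ)) := by
  obtain ⟨K0, x0, hK0, hlev⟩ := lev_int ((R + 1) * c) w hw (η / 16) (by positivity)
  refine ⟨K0, x0, hK0, ?_⟩
  intro E o y Y I ex hwy hy hyY h a
  obtain ⟨S, hS⟩ : ∃ S, S = Al (fun t => Ia E w a (I t)) := ⟨_, rfl⟩
  rw [← hS]
  have hSI : S ⊆ Al I := by
    rw [hS]
    exact Al_mono _ _ fun t => Ia_sub E w a (I t)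
  have hpos : 0 < Vt (E o) w y := Vt_pos_of (E o) w y h.adm
  have hno : o ∉ S := fun ho => h.no (hSI ho)
  have hs0 := Real.sqrt_nonneg (Y : ℝ)
  have hM0 : (0 : ℝ) < Mw w := by exact_mod_cast Mw_pos w
  obtain ⟨A0, hA0⟩ : ∃ A0 : ℝ, A0 = Y / Mw w * Vt (E o) w y := ⟨_, rfl⟩
  have hA00 : 0 ≤ A0 := by rw [hA0]; positivity
  have hsize := h.size
  rw [← hA0] at hsize
  have hpow1 : (1 : ℝ) ≤ (((Al I).card : ℝ) + 1) ^ R := one_le_pow₀ (by
    have : (0 : ℝ) ≤ (Al I).card := Nat.cast_nonneg _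
    linarith)
  have hsq : √(Y : ℝ) ≤ η / 16 * A0 := by
    refine le_trans ?_ hsize
    nlinarith
  -- one set
  have hone : ∀ J ⊆ S, J.card ≤ R → |(cn E w y (Oc (E o) w y a Y) J : ℝ) - A0 * rh E o w y J| ≤
      η / 16 * (A0 * rh E o w y J) + √(Y : ℝ) := by
    intro J hJ hJR
    have hJo : o ∉ J := fun ho => hno (hJ ho)
    have hper : PerB (EH E (insert o J)) ((R + 1) * c) := by
      apply perB_mono (perB_EH E c h.per (insert o J))
      rw [card_insert_of_notMem hJo]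
      exact Nat.mul_le_mul_right c (by omega)
    have h1 := hlev (EH E (insert o J)) y Y a hper hwy hy hyY
    rw [cn_Oc]
    have e : (Y : ℝ) / Mw w * Vt (EH E (insert o J)) w y = A0 * rh E o w y J := by
      rw [hA0]
      unfold rh
      field_simp
    rw [e] at h1
    exact h1
  have hrh0 : rh E o w y ∅ = 1 := by
    unfold rh
    have : EH E (insert o ∅) = E o := by
      funext p n
      unfold EH
      simp
    rw [this, div_self hpos.ne']
  have hcn0 : (cn E w y (Oc (E o) w y a Y) ∅ : ℝ) = (Oc (E o) w y a Y).card := by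
    unfold cn
    have : (Oc (E o) w y a Y).filter (fun n => Sl (EH E ∅) w y n) = Oc (E o) w y a Y := by
      apply Finset.filter_true_of_mem
      intro n _
      rw [sl_EH]
      intro i hi
      exact absurd hi (notMem_empty i)
    rw [this]
  have hOm := hone ∅ (empty_subset _) (by rw [card_empty]; omega)
  rw [hrh0, hcn0, mul_one] at hOm
  obtain ⟨N, hN⟩ : ∃ N : ℝ, N = (Oc (E o) w y a Y).card := ⟨_, rfl⟩
  rw [← hN] at hOm
  have hNlo : A0 / 2 ≤ N := by
    have := (abs_le.1 hOm).1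
    nlinarith
  have hlev2 : ∀ J ⊆ S, J.card ≤ R → |(cn E w y (Oc (E o) w y a Y) J : ℝ) - N * rh E o w y J| ≤
      η / 4 * (N * rh E o w y J) + 2 * √(Y : ℝ) := by
    intro J hJ hJR
    have h1 := hone J hJ hJR
    have hr0 := rh_nonneg E o w y J
    have hr1 := rh_le_one E o w y J hpos
    obtain ⟨r, hr⟩ : ∃ r, r = rh E o w y J := ⟨_, rfl⟩
    rw [← hr] at h1 hr0 hr1 ⊢
    obtain ⟨C, hC⟩ : ∃ C : ℝ, C = (cn E w y (Oc (E o) w y a Y) J : ℝ) := ⟨_, rfl⟩
    rw [← hC] at h1 ⊢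
    have h2 : |N * r - A0 * r| ≤ (η / 16 * A0 + √(Y : ℝ)) * r := by
      rw [← sub_mul, abs_mul, abs_of_nonneg hr0]
      exact mul_le_mul_of_nonneg_right hOm hr0
    have h3 : |C - N * r| ≤ |C - A0 * r| + |N * r - A0 * r| := by
      have := abs_sub_le C (A0 * r) (N * r)
      rw [abs_sub_comm (A0 * r) (N * r)] at this
      exact this
    have h4 : √(Y : ℝ) * r ≤ √(Y : ℝ) := by nlinarith
    have h5 : A0 * r ≤ 2 * (N * r) := by nlinarith
    have h6 : η / 16 * (A0 * r) ≤ η / 16 * (2 * (N * r)) := mul_le_mul_of_nonneg_left h5 (by positivity)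
    calc |C - N * r| ≤ (η / 16 * (A0 * r) + √(Y : ℝ)) + (η / 16 * A0 + √(Y : ℝ)) * r := by linarith
      _ = 2 * (η / 16 * (A0 * r)) + √(Y : ℝ) + √(Y : ℝ) * r := by ring
      _ ≤ 2 * (η / 16 * (2 * (N * r))) + √(Y : ℝ) + √(Y : ℝ) := by linarith
      _ = _ := by ring
  have hN0 : 0 ≤ N := by linarith
  have hScard : (S.card : ℝ) ≤ (Al I).card := by exact_mod_cast card_le_card hSI
  have hoff : ∀ q : ι × ι → Prop, S.offDiag.filter (fun x => q x) ⊆ (Al I).offDiag.filter (fun x => q x) := by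
    intro q
    apply Finset.filter_subset_filter
    intro x hx
    rw [mem_offDiag] at hx ⊢
    exact ⟨hSI hx.1, hSI hx.2.1, hx.2.2⟩
  have hremS : ((S.card : ℝ) + 1) ^ R * (2 * √(Y : ℝ)) ≤ η / 4 * N := by
    have h1 : ((S.card : ℝ) + 1) ^ R ≤ (((Al I).card : ℝ) + 1) ^ R :=
      pow_le_pow_left₀ (by positivity) (by linarith) R
    calc ((S.card : ℝ) + 1) ^ R * (2 * √(Y : ℝ)) ≤ (((Al I).card : ℝ) + 1) ^ R * (2 * √(Y : ℝ)) :=
          mul_le_mul_of_nonneg_right h1 (by positivity)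
      _ = 2 * ((((Al I).card : ℝ) + 1) ^ R * √(Y : ℝ)) := by ring
      _ ≤ 2 * (η / 16 * A0) := by linarith
      _ ≤ η / 4 * N := by nlinarith
  refine ⟨h.per, hpos, hno, ?_, by positivity, ?_, fun i hi => h.small i (hSI hi), ?_, ?_,
    fun i hi => h.exo i (hSI hi), ?_, h.wlarge, h.w1, h.E1⟩
  · intro J hJ hJR
    rw [← hN]
    refine (hlev2 J hJ hJR).trans ?_
    have hr0 := rh_nonneg E o w y J
    have h1 : 0 ≤ N * rh E o w y J := by positivity
    nlinarith
  · rw [← hN]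
    refine hremS.trans ?_
    nlinarith
  · refine le_trans ?_ h.pair
    apply Finset.sum_le_sum_of_subset_of_nonneg
    · apply Finset.filter_subset_filter
      intro x hx
      rw [mem_offDiag] at hx ⊢
      exact ⟨insert_subset_insert o hSI hx.1, insert_subset_insert o hSI hx.2.1, hx.2.2⟩
    · intro x _ _
      have h1 := Fc_ge E (KK R c) w y x
      exact mul_nonneg (mul_nonneg (Uw_nonneg E o w y _) (Uw_nonneg E o w y _)) (by linarith)
  · refine le_trans ?_ h.expair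
    apply Finset.sum_le_sum_of_subset_of_nonneg (hoff ex)
    intro x _ _
    exact mul_nonneg (Vt_nonneg _ w y) (Vt_nonneg _ w y)
  · -- the bad points
    rw [← hN]
    have h1 : (((Oc (E o) w y a Y).filter (fun n => ∃ x ∈ S.offDiag, ex x ∧ Sl (E x.1) w y n ∧
        Sl (E x.2) w y n)).card : ℝ) ≤ ∑ x ∈ S.offDiag.filter (fun x => ex x),
        (cn E w y (Oc (E o) w y a Y) {x.1, x.2} : ℝ) := by
      have h2 : (Oc (E o) w y a Y).filter (fun n => ∃ x ∈ S.offDiag, ex x ∧ Sl (E x.1) w y n ∧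
          Sl (E x.2) w y n) ⊆ (S.offDiag.filter (fun x => ex x)).biUnion
            (fun x => (Oc (E o) w y a Y).filter (fun n => Sl (EH E {x.1, x.2}) w y n)) := by
        intro n hn
        rw [mem_filter] at hn
        obtain ⟨hn1, x, hx, hex, h3, h4⟩ := hn
        rw [mem_biUnion]
        refine ⟨x, mem_filter.2 ⟨hx, hex⟩, mem_filter.2 ⟨hn1, ?_⟩⟩
        rw [sl_EH]
        intro i hi
        rw [mem_insert, mem_singleton] at hi
        rcases hi with rfl | rfl
        · exact h3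
        · exact h4
      have h3 := (card_le_card h2).trans card_biUnion_le
      unfold cn
      exact_mod_cast h3
    refine h1.trans ?_
    have h2 : ∀ x ∈ S.offDiag.filter (fun x => ex x), (cn E w y (Oc (E o) w y a Y) {x.1, x.2} : ℝ) ≤
        2 * N * rh E o w y {x.1, x.2} + 2 * √(Y : ℝ) := by
      intro x hx
      rw [mem_filter, mem_offDiag] at hx
      have h3 := hlev2 {x.1, x.2} (by
        intro i hi
        rw [mem_insert, mem_singleton] at hi
        rcases hi with rfl | rfl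
        · exact hx.1.1
        · exact hx.1.2.1) (by
        rw [card_pair hx.1.2.2]
        exact hR)
      have h4 := (abs_le.1 h3).2
      have hr0 := rh_nonneg E o w y {x.1, x.2}
      have h5 : 0 ≤ N * rh E o w y {x.1, x.2} := by positivity
      nlinarith
    refine (Finset.sum_le_sum h2).trans ?_
    rw [Finset.sum_add_distrib, ← Finset.mul_sum, Finset.sum_const, nsmul_eq_mul]
    have h3 : ∑ x ∈ S.offDiag.filter (fun x => ex x), rh E o w y {x.1, x.2} ≤ η / 16 := by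
      refine le_trans ?_ h.exrh
      apply Finset.sum_le_sum_of_subset_of_nonneg (hoff ex)
      intro x _ _
      exact rh_nonneg _ _ _ _ _
    have h4 : ((S.offDiag.filter (fun x => ex x)).card : ℝ) ≤ ((S.card : ℝ) + 1) ^ R := by
      have h5 : (S.offDiag.filter (fun x => ex x)).card ≤ (S.card + 1) ^ R := by
        refine (card_filter_le _ _).trans ?_
        rw [offDiag_card]
        calc S.card * S.card - S.card ≤ S.card * S.card := Nat.sub_le _ _
          _ ≤ (S.card + 1) * (S.card + 1) := Nat.mul_le_mul (by omega) (by omega)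
          _ = (S.card + 1) ^ 2 := by ring
          _ ≤ (S.card + 1) ^ R := Nat.pow_le_pow_right (by omega) hR
      exact_mod_cast h5
    have h5 := mul_le_mul_of_nonneg_right h4 (by positivity : 0 ≤ 2 * √(Y : ℝ))
    have h6 := mul_le_mul_of_nonneg_left h3 (by positivity : 0 ≤ 2 * N)
    nlinarith

lemma Oc_mod (P : ℕ → ℕ → Prop) (w y a Y n : ℕ) (ha : a < Mw w) (hn : n ∈ Oc P w y a Y) : n % Mw w = a := by
  classical
  unfold Oc at hn
  rw [mem_filter] at hn
  exact (class_iff w n a ha).1 hn.2.1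

open Classical in
/-- **The global joint law with means, windows and sets depending on the class.** -/
theorem glob_mix (c D : ℕ) (hD : 0 < D) (Λ ε : ℝ) (hΛ : 0 ≤ Λ) (hε : 0 < ε) : ∃ (R : ℕ) (η : ℝ), 0 < η ∧
    η ≤ 1 ∧ 2 ≤ R ∧ ∀ w : ℕ, 1 ≤ w → ∃ K0 x0 : ℕ, 1 ≤ K0 ∧
    ∀ (E : ι → ℕ → ℕ → Prop) (o : ι) (y Y : ℕ) (I : ℕ → τ → Finset ι) (ex : ι × ι → Prop) (col : ι → Fin D)
      (x : ℕ → τ → ℝ), w ≤ y → x0 ≤ y → y ^ K0 ≤ Y → (∀ x, ex x → col x.1 ≠ col x.2) →
      (∀ a, GD E c o w y Y (I a) ex R η) → (∀ a t, 0 ≤ x a t) →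
      (∀ a, Sf (E o) w a → ∀ t, |∑ i ∈ (I a t).filter (fun i => Sf (E i) w a), Vt (E i) w y - x a t| ≤ η) →
      ∀ A : ℕ → Finset (τ → ℕ), |(((OmG (E o) y Y).filter
        (fun n => (fun t => NG E y (I (n % Mw w) t) n) ∈ A (n % Mw w))).card : ℝ) -
        ∑ n ∈ OmG (E o) y Y, PoJ (x (n % Mw w)) (A (n % Mw w))| ≤ ε * (OmG (E o) y Y).card +
          ((OmG (E o) y Y).filter (fun n => ¬ ∀ t, x (n % Mw w) t ≤ Λ)).card := by
  obtain ⟨R, η, hη, hη1, hR, habs⟩ := abs_law (ι := ι) (τ := τ) c D hD Λ ε hΛ hε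
  refine ⟨R, η, hη, hη1, hR, ?_⟩
  intro w hw
  obtain ⟨K0, x0, hK0, hdata⟩ := data_of' (ι := ι) (τ := τ) c R hR η hη hη1 w hw
  refine ⟨K0, x0, hK0, ?_⟩
  intro E o y Y I ex col x hwy hy hyY hcol h hx hcls A
  have hper : ∀ i, PerB (E i) c := (h 0).per
  have hPo := hper o
  have e1 : (((OmG (E o) y Y).filter (fun n => (fun t => NG E y (I (n % Mw w) t) n) ∈ A (n % Mw w))).card : ℝ) =
      ∑ a ∈ (range (Mw w)).filter (fun a => Sf (E o) w a),
        (((Oc (E o) w y a Y).filter (fun n => (fun t => Nt E w y (Ia E w a (I a t)) n) ∈ A a)).card : ℝ) := by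
    rw [card_filter_sum, sum_OmG (E o) c hPo w y Y hwy]
    apply Finset.sum_congr rfl
    intro a ha
    rw [mem_filter, mem_range] at ha
    rw [card_filter_sum]
    apply Finset.sum_congr rfl
    intro n hn
    rw [Oc_mod (E o) w y a Y n ha.1 hn]
    unfold Oc at hn
    rw [mem_filter] at hn
    have h2 : (fun t => NG E y (I a t) n) = fun t => Nt E w y (Ia E w a (I a t)) n := by
      funext t
      unfold NG Nt Ia
      rw [Finset.filter_filter]
      congr 1
      apply Finset.filter_congr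
      intro i _
      rw [sf_split' (E i) w y n hwy, sf_cls (E i) c (hper i) w n a hn.2.1]
    rw [h2]
  have h1' : ∀ s : Finset ℕ, (s.card : ℝ) = ∑ _n ∈ s, (1 : ℝ) := by
    intro s
    rw [Finset.sum_const, nsmul_eq_mul, mul_one]
  have e2 : ∑ n ∈ OmG (E o) y Y, PoJ (x (n % Mw w)) (A (n % Mw w)) =
      ∑ a ∈ (range (Mw w)).filter (fun a => Sf (E o) w a),
      ((Oc (E o) w y a Y).card : ℝ) * PoJ (x a) (A a) := by
    rw [sum_OmG (E o) c hPo w y Y hwy]
    apply Finset.sum_congr rfl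
    intro a ha
    rw [mem_filter, mem_range] at ha
    rw [Finset.sum_congr rfl (fun n hn => by rw [Oc_mod (E o) w y a Y n ha.1 hn]), Finset.sum_const,
      nsmul_eq_mul]
  have e3 : ε * ((OmG (E o) y Y).card : ℝ) + ((OmG (E o) y Y).filter (fun n => ¬ ∀ t, x (n % Mw w) t ≤ Λ)).card =
      ∑ a ∈ (range (Mw w)).filter (fun a => Sf (E o) w a),
        (ε * ((Oc (E o) w y a Y).card : ℝ) + if ∀ t, x a t ≤ Λ then 0 else ((Oc (E o) w y a Y).card : ℝ)) := by
    rw [Finset.sum_add_distrib, ← Finset.mul_sum]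
    congr 1
    · rw [h1', sum_OmG (E o) c hPo w y Y hwy]
      congr 1
      exact Finset.sum_congr rfl fun a _ => (h1' _).symm
    · rw [card_filter_sum, sum_OmG (E o) c hPo w y Y hwy]
      apply Finset.sum_congr rfl
      intro a ha
      rw [mem_filter, mem_range] at ha
      rw [Finset.sum_congr rfl (fun n hn => by rw [Oc_mod (E o) w y a Y n ha.1 hn])]
      rw [Finset.sum_const, nsmul_eq_mul]
      split_ifs <;> simp
  rw [e1, e2, e3, ← Finset.sum_sub_distrib]
  refine (Finset.abs_sum_le_sum_abs _ _).trans ?_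
  apply Finset.sum_le_sum
  intro a ha
  rw [mem_filter] at ha
  split_ifs with hgood
  · rw [add_zero]
    have hd := hdata E o y Y (I a) ex hwy hy hyY (h a) a
    refine habs E o w y (fun t => Ia E w a (I a t)) ex col (Oc (E o) w y a Y) (2 * √(Y : ℝ)) (x a) ?_ hcol hd
      (hx a) hgood ?_ (A a)
    · intro t u htu
      exact ((h a).disj t u htu).mono (Ia_sub E w a (I a t)) (Ia_sub E w a (I a u))
    · intro t
      exact hcls a ha.2 t
  · have h3 : (((Oc (E o) w y a Y).filter (fun n => (fun t => Nt E w y (Ia E w a (I a t)) n) ∈ A a)).card : ℝ) ≤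
        (Oc (E o) w y a Y).card := by exact_mod_cast card_filter_le _ _
    have h4 := PoJ_le_one (x a) (hx a) (A a)
    have h5 := PoJ_nonneg (x a) (hx a) (A a)
    have h6 : (0 : ℝ) ≤ (Oc (E o) w y a Y).card := Nat.cast_nonneg _
    have h7 : (0 : ℝ) ≤ (((Oc (E o) w y a Y).filter
        (fun n => (fun t => Nt E w y (Ia E w a (I a t)) n) ∈ A a)).card : ℝ) := Nat.cast_nonneg _
    have h8 : ((Oc (E o) w y a Y).card : ℝ) * PoJ (x a) (A a) ≤ (Oc (E o) w y a Y).card := by nlinarith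
    have h9 : 0 ≤ ((Oc (E o) w y a Y).card : ℝ) * PoJ (x a) (A a) := mul_nonneg h6 h5
    have h10 : 0 ≤ ε * ((Oc (E o) w y a Y).card : ℝ) := by positivity
    rw [abs_le]
    constructor <;> linarith

end Pool.Agent.Q236.FL
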