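import Pool.Agent.Q236.FL.PoD
import Pool.Agent.Y879.GL.Assoc

set_option autoImplicit false

/-!
# Random moduli, fixed residues: the family
-/

namespace Pool.Agent.Q236.FL

open Finset Filter Pool.Agent.H373R2.T7 Pool.Agent.W123.RP Pool.Agent.W123.RU Pool.Agent.TH464.PO
open Pool.Agent.TH464.PW Pool.Agent.Q236.CP Pool.Agent.Q236.ML Pool.Agent.Q236.UL

variable {τ : Type*} [Fintype τ] [DecidableEq τ]

/-- the conditions `p ∤ n` and `H (n b)` -/
def Fm (H : τ → ℕ → ℕ → Prop) (t : τ) (p n b : ℕ) : Prop := ¬ p ∣ n ∧ H t p (n * b)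

/-- the base -/
def Pm (H : τ → ℕ → ℕ → Prop) (p n : ℕ) : Prop := p ∣ n ∧ ∃ t, H t p 0

/-- the live points -/
def Lm (H : τ → ℕ → ℕ → Prop) (t : τ) (b : ℕ) : Prop := ∀ p : ℕ, p.Prime → p ∣ b → ¬ H t p 0

/-- the hypotheses -/
structure HM (H : τ → ℕ → ℕ → Prop) (ρ : τ → ℕ → ℕ) (same : τ → τ → Prop) (c0 m Kc : ℕ) (C : ℝ) : Prop where
  per : ∀ t p z, H t p z ↔ H t p (z % p)
  cnt : ∀ t, ∀ p : ℕ, p.Prime → nuB (H t) p = ρ t p
  few : ∀ t, ∀ p : ℕ, p.Prime → ρ t p ≤ c0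
  adm : ∀ t, ∀ p : ℕ, p.Prime → ρ t p < p
  bad : ∀ t, ∀ p : ℕ, p.Prime → H t p 0 → p ≤ m
  coll : ∀ s t k b, 1 ≤ k → 1 ≤ b → Lm H s k → Lm H t b → ¬ (k = b ∧ same s t) →
    ∃ R : ℕ, 0 < R ∧ R ≤ Kc * (k + b) ^ Kc ∧
      ∀ p : ℕ, p.Prime → (∃ n, ¬ p ∣ n ∧ H s p (n * k) ∧ H t p (n * b)) → p ∣ R
  C0 : 0 < C
  up : ∀ t, ∀ y : ℕ, 2 ≤ y → Vq (H t) y ≤ C / Real.log y

variable (H : τ → ℕ → ℕ → Prop) (ρ : τ → ℕ → ℕ) (same : τ → τ → Prop) (c0 m Kc : ℕ) (C : ℝ)

omit [Fintype τ] [DecidableEq τ] in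
lemma nuB_b (hH : HM H ρ same c0 m Kc C) (t : τ) (n p : ℕ) (hp : p.Prime) (hn : ¬ p ∣ n) :
    nuB (fun p b => Fm H t p n b) p = ρ t p := by
  classical
  rw [← hH.cnt t p hp]
  unfold nuB
  have h1 := Pool.Agent.Y879.AP.card_mul (fun z => H t p z) p n hp hn (hH.per t p)
  refine Eq.trans ?_ (h1.trans ?_)
  · congr 1
    apply Finset.filter_congr
    intro r _
    unfold Fm
    exact ⟨fun h => h.2, fun h => ⟨hn, h⟩⟩
  · congr

omit [Fintype τ] [DecidableEq τ] in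
lemma nuB_b0 (t : τ) (n p : ℕ) (hn : p ∣ n) : nuB (fun p b => Fm H t p n b) p = 0 := by
  classical
  unfold nuB
  rw [Finset.card_eq_zero, Finset.filter_eq_empty_iff]
  intro r _ h
  exact h.1 hn

omit [Fintype τ] [DecidableEq τ] in
lemma nuB_n (hH : HM H ρ same c0 m Kc C) (t : τ) (b p : ℕ) (hp : p.Prime) (hb : ¬ p ∣ b) :
    nuB (fun p n => Fm H t p n b) p ≤ ρ t p ∧ (m < p → nuB (fun p n => Fm H t p n b) p = ρ t p) := by
  classical
  have h1 := Pool.Agent.Y879.AP.card_mul (fun z => H t p z) p b hp hb (hH.per t p)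
  have h2 : ((range p).filter (fun r => H t p r)).card = ρ t p := by
    rw [← hH.cnt t p hp]
    unfold nuB
    congr
  rw [h2] at h1
  constructor
  · rw [← h1]
    unfold nuB
    apply card_le_card
    intro r hr
    rw [mem_filter] at hr ⊢
    refine ⟨hr.1, ?_⟩
    rw [mul_comm]
    exact hr.2.2
  · intro hm
    rw [← h1]
    unfold nuB
    congr 1
    ext r
    rw [mem_filter, mem_filter, mem_range]
    constructor
    · rintro ⟨h3, h4⟩
      refine ⟨h3, ?_⟩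
      rw [mul_comm]
      exact h4.2
    · rintro ⟨h3, h4⟩
      refine ⟨h3, ?_, ?_⟩
      · intro h5
        have h6 : r = 0 := Nat.eq_zero_of_dvd_of_lt h5 h3
        rw [h6, mul_zero] at h4
        have := hH.bad t p hp h4
        omega
      · rw [mul_comm]
        exact h4

omit [Fintype τ] [DecidableEq τ] in
lemma nuB_n0 (hH : HM H ρ same c0 m Kc C) (t : τ) (b p : ℕ) (hp : p.Prime) (hb : p ∣ b) :
    nuB (fun p n => Fm H t p n b) p ≤ m := by
  classical
  unfold nuB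
  by_cases h0 : H t p 0
  · refine (card_filter_le _ _).trans ?_
    rw [card_range]
    exact hH.bad t p hp h0
  · have : (range p).filter (fun n => Fm H t p n b) = ∅ := by
      rw [Finset.filter_eq_empty_iff]
      intro r _ h
      apply h0
      have h2 := (hH.per t p (r * b)).1 h.2
      have h3 : r * b % p = 0 := Nat.mod_eq_zero_of_dvd (Dvd.dvd.mul_left hb r)
      rw [h3] at h2
      exact h2
    rw [this, card_empty]
    exact Nat.zero_le _

omit [Fintype τ] [DecidableEq τ] in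
lemma two_Fm (hH : HM H ρ same c0 m Kc C) : Two (Fm H) (c0 + m + 1) := by
  constructor
  · intro t b
    constructor
    · intro p n
      unfold Fm
      rw [Nat.dvd_mod_iff (dvd_refl p), hH.per t p (n * b), hH.per t p (n % p * b)]
      have : n % p * b % p = n * b % p := by rw [Nat.mul_mod, Nat.mod_mod, ← Nat.mul_mod]
      rw [this]
    · intro p hp
      by_cases h : p ∣ b
      · have := nuB_n0 H ρ same c0 m Kc C hH t b p hp h
        omega
      · have h1 := (nuB_n H ρ same c0 m Kc C hH t b p hp h).1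
        have h2 := hH.few t p hp
        omega
  · intro t n
    constructor
    · intro p b
      unfold Fm
      rw [hH.per t p (n * b), hH.per t p (n * (b % p))]
      have : n * (b % p) % p = n * b % p := by rw [Nat.mul_mod, Nat.mod_mod, ← Nat.mul_mod]
      rw [this]
    · intro p hp
      by_cases h : p ∣ n
      · rw [nuB_b0 H t n p h]
        exact Nat.zero_le _
      · rw [nuB_b H ρ same c0 m Kc C hH t n p hp h]
        have h2 := hH.few t p hp
        omega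

omit [Fintype τ] [DecidableEq τ] in
lemma nuB_Pm (p : ℕ) : nuB (Pm H) p ≤ 1 := by
  classical
  unfold nuB
  have h1 : (range p).filter (fun n => Pm H p n) ⊆ {0} := by
    intro n hn
    rw [mem_filter, mem_range] at hn
    rw [mem_singleton]
    exact Nat.eq_zero_of_dvd_of_lt hn.2.1 hn.1
  have := card_le_card h1
  rw [card_singleton] at this
  exact this

omit [Fintype τ] [DecidableEq τ] in
lemma perB_Pm : PerB (Pm H) (c0 + m + 1) := by
  constructor
  · intro p n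
    unfold Pm
    rw [Nat.dvd_mod_iff (dvd_refl p)]
  · intro p _
    have := nuB_Pm H p
    omega

/-- the local factors at the primes dividing `n` -/
noncomputable def gm (ρ : τ → ℕ → ℕ) (t : τ) (w n : ℕ) : ℝ :=
  ∏ p ∈ (pz w).filter (fun p => p ∣ n), (1 - (ρ t p : ℝ) / p)

omit [Fintype τ] [DecidableEq τ] in
lemma fac_pos (hH : HM H ρ same c0 m Kc C) (t : τ) (p : ℕ) (hp : p.Prime) :
    0 < 1 - (ρ t p : ℝ) / p ∧ 1 - (ρ t p : ℝ) / p ≤ 1 := by
  have hp0 : (0 : ℝ) < p := by exact_mod_cast hp.pos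
  constructor
  · rw [sub_pos, div_lt_one hp0]
    exact_mod_cast hH.adm t p hp
  · have : 0 ≤ (ρ t p : ℝ) / p := by positivity
    linarith

omit [Fintype τ] [DecidableEq τ] in
lemma gm_pos (hH : HM H ρ same c0 m Kc C) (t : τ) (w n : ℕ) : 0 < gm ρ t w n := by
  unfold gm
  apply Finset.prod_pos
  intro p hp
  exact (fac_pos H ρ same c0 m Kc C hH t p (mem_pz.1 (mem_filter.1 hp).1).2).1

omit [Fintype τ] [DecidableEq τ] in
lemma gm_le (hH : HM H ρ same c0 m Kc C) (t : τ) (w n : ℕ) : gm ρ t w n ≤ 1 := by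
  unfold gm
  apply Finset.prod_le_one
  · intro p hp
    exact (fac_pos H ρ same c0 m Kc C hH t p (mem_pz.1 (mem_filter.1 hp).1).2).1.le
  · intro p hp
    exact (fac_pos H ρ same c0 m Kc C hH t p (mem_pz.1 (mem_filter.1 hp).1).2).2

omit [Fintype τ] [DecidableEq τ] in
lemma Vq_H (hH : HM H ρ same c0 m Kc C) (t : τ) (w : ℕ) :
    Vq (H t) w = ∏ p ∈ pz w, (1 - (ρ t p : ℝ) / p) := by
  unfold Vq
  apply Finset.prod_congr rfl
  intro p hp
  rw [hH.cnt t p (mem_pz.1 hp).2]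

omit [Fintype τ] [DecidableEq τ] in
lemma gm_ge (hH : HM H ρ same c0 m Kc C) (t : τ) (w n : ℕ) : Vq (H t) w ≤ gm ρ t w n := by
  rw [Vq_H H ρ same c0 m Kc C hH]
  rw [← Finset.prod_filter_mul_prod_filter_not (pz w) (fun p => p ∣ n)]
  have h1 : ∏ p ∈ (pz w).filter (fun p => ¬ p ∣ n), (1 - (ρ t p : ℝ) / p) ≤ 1 := by
    apply Finset.prod_le_one
    · intro p hp
      exact (fac_pos H ρ same c0 m Kc C hH t p (mem_pz.1 (mem_filter.1 hp).1).2).1.le
    · intro p hp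
      exact (fac_pos H ρ same c0 m Kc C hH t p (mem_pz.1 (mem_filter.1 hp).1).2).2
  have h2 := gm_pos H ρ same c0 m Kc C hH t w n
  unfold gm at h2 ⊢
  nlinarith

omit [Fintype τ] [DecidableEq τ] in
lemma gm_mod (t : τ) (w n : ℕ) : gm ρ t w (n % Mw w) = gm ρ t w n := by
  unfold gm
  congr 1
  apply Finset.filter_congr
  intro p hp
  exact Nat.dvd_mod_iff (Finset.dvd_prod_of_mem _ hp)

omit [Fintype τ] [DecidableEq τ] in
lemma Vq_Fm (hH : HM H ρ same c0 m Kc C) (t : τ) (w n : ℕ) :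
    Vq (fun p b => Fm H t p n b) w * gm ρ t w n = Vq (H t) w := by
  rw [Vq_H H ρ same c0 m Kc C hH]
  unfold Vq gm
  rw [Finset.prod_filter, ← Finset.prod_mul_distrib]
  apply Finset.prod_congr rfl
  intro p hp
  split_ifs with h
  · rw [nuB_b0 H t n p h]
    simp
  · rw [nuB_b H ρ same c0 m Kc C hH t n p (mem_pz.1 hp).2 h, mul_one]

omit [Fintype τ] [DecidableEq τ] in
lemma Wt_H (hH : HM H ρ same c0 m Kc C) (t : τ) (w y : ℕ) : Wt (ρ t) w y = Vt (H t) w y := by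
  unfold Wt Vt
  apply Finset.prod_congr rfl
  intro p hp
  rw [hH.cnt t p (mem_pz.1 (mem_filter.1 hp).1).2]

omit [Fintype τ] [DecidableEq τ] in
lemma Vq_pos' (hH : HM H ρ same c0 m Kc C) (t : τ) (w : ℕ) : 0 < Vq (H t) w := by
  rw [Vq_H H ρ same c0 m Kc C hH]
  apply Finset.prod_pos
  intro p hp
  exact (fac_pos H ρ same c0 m Kc C hH t p (mem_pz.1 hp).2).1

omit [Fintype τ] [DecidableEq τ] in
/-- the mean -/
lemma xF_Fm (hH : HM H ρ same c0 m Kc C) (w y : ℕ) (hwy : w ≤ y) (u v : τ → ℕ) (n : ℕ) (t : τ) :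
    xF (Fm H) ρ w y u v n t = ((v t : ℝ) - u t) * Vq (H t) y / gm ρ t w n := by
  have h1 := Vq_Fm H ρ same c0 m Kc C hH t w n
  have h2 := gm_pos H ρ same c0 m Kc C hH t w n
  unfold xF
  rw [Wt_H H ρ same c0 m Kc C hH, Vq_split (H t) w y hwy, ← h1]
  field_simp

omit [Fintype τ] [DecidableEq τ] in
lemma live_Fm (hH : HM H ρ same c0 m Kc C) (w : ℕ) (hw : m ≤ w) (t : τ) (b n : ℕ) (h1 : Sf (Pm H) w n)
    (h2 : Sf (fun p m => Fm H t p m b) w n) : Lm H t b := by
  intro p hp hpb h0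
  have hpw : p ∈ pz w := mem_pz.2 ⟨(hH.bad t p hp h0).trans hw, hp⟩
  have h3 := h1 p hpw
  have h4 := h2 p hpw
  apply h4
  refine ⟨fun h5 => h3 ⟨h5, t, h0⟩, ?_⟩
  rw [hH.per]
  have : n * b % p = 0 := Nat.mod_eq_zero_of_dvd (Dvd.dvd.mul_left hpb n)
  rw [this]
  exact h0

end Pool.Agent.Q236.FL
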