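import Pool.Agent.Q236.FL.ModLaw
import Pool.Agent.Y879.AP.Phi

set_option autoImplicit false

/-!
# Random moduli: the primes dividing the modulus
-/

namespace Pool.Agent.Q236.FL

open Finset Filter Pool.Agent.H373R2.T7 Pool.Agent.W123.RP Pool.Agent.W123.RU Pool.Agent.TH464.PO
open Pool.Agent.TH464.PW Pool.Agent.Q236.CP Pool.Agent.Q236.ML Pool.Agent.Q236.UL

variable {τ : Type*} [Fintype τ] [DecidableEq τ]

/-- the sum over the large prime factors of `n` -/
noncomputable def tl (c0 w n : ℕ) : ℝ := ∑ p ∈ n.primeFactors.filter (fun p : ℕ => w < p), (c0 : ℝ) / (p : ℝ)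

/-- the local factors at all primes dividing `n` -/
noncomputable def gf (ρ : τ → ℕ → ℕ) (t : τ) (n : ℕ) : ℝ := ∏ p ∈ n.primeFactors, (1 - (ρ t p : ℝ) / p)

section

variable (H : τ → ℕ → ℕ → Prop) (ρ : τ → ℕ → ℕ) (same : τ → τ → Prop) (c0 m Kc : ℕ) (C : ℝ)

omit [Fintype τ] [DecidableEq τ] in
lemma gf_split (t : τ) (w n : ℕ) (hn : n ≠ 0) :
    gf ρ t n = gm ρ t w n * ∏ p ∈ n.primeFactors.filter (fun p => w < p), (1 - (ρ t p : ℝ) / p) := by
  unfold gf gm
  rw [← Finset.prod_filter_mul_prod_filter_not n.primeFactors (fun p => w < p), mul_comm]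
  congr 1
  apply Finset.prod_congr _ (fun _ _ => rfl)
  ext p
  rw [mem_filter, mem_filter, mem_pz, Nat.mem_primeFactors, not_lt]
  tauto

omit [Fintype τ] [DecidableEq τ] in
lemma gf_le_gm (hH : HM H ρ same c0 m Kc C) (t : τ) (w n : ℕ) (hn : n ≠ 0) : gf ρ t n ≤ gm ρ t w n := by
  rw [gf_split ρ t w n hn]
  have h1 := gm_pos H ρ same c0 m Kc C hH t w n
  have h2 : ∏ p ∈ n.primeFactors.filter (fun p => w < p), (1 - (ρ t p : ℝ) / p) ≤ 1 := by
    apply Finset.prod_le_one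
    · intro p hp
      exact (fac_pos H ρ same c0 m Kc C hH t p (Nat.prime_of_mem_primeFactors (mem_filter.1 hp).1)).1.le
    · intro p hp
      exact (fac_pos H ρ same c0 m Kc C hH t p (Nat.prime_of_mem_primeFactors (mem_filter.1 hp).1)).2
  nlinarith

omit [Fintype τ] [DecidableEq τ] in
lemma gf_pos (hH : HM H ρ same c0 m Kc C) (t : τ) (n : ℕ) : 0 < gf ρ t n := by
  unfold gf
  apply Finset.prod_pos
  intro p hp
  exact (fac_pos H ρ same c0 m Kc C hH t p (Nat.prime_of_mem_primeFactors hp)).1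

omit [Fintype τ] [DecidableEq τ] in
lemma gf_ge (hH : HM H ρ same c0 m Kc C) (t : τ) (w n : ℕ) (hn : n ≠ 0) :
    (1 - tl c0 w n) * gm ρ t w n ≤ gf ρ t n := by
  unfold tl
  rw [gf_split ρ t w n hn, mul_comm]
  apply mul_le_mul_of_nonneg_left _ (gm_pos H ρ same c0 m Kc C hH t w n).le
  refine le_trans ?_ (prod_one_sub_ge _ _ (fun p _ => by positivity) ?_)
  · have : ∑ p ∈ n.primeFactors.filter (fun p => w < p), (ρ t p : ℝ) / p ≤
        ∑ p ∈ n.primeFactors.filter (fun p => w < p), (c0 : ℝ) / p := by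
      apply Finset.sum_le_sum
      intro p hp
      apply div_le_div_of_nonneg_right _ (Nat.cast_nonneg _)
      exact_mod_cast hH.few t p (Nat.prime_of_mem_primeFactors (mem_filter.1 hp).1)
    linarith
  · intro p hp
    have := (fac_pos H ρ same c0 m Kc C hH t p (Nat.prime_of_mem_primeFactors (mem_filter.1 hp).1)).1
    linarith

end

open Classical in
/-- few integers have many large prime factors -/
lemma tail_count (c0 w : ℕ) (hw : 1 ≤ w) (δ : ℝ) (Z Y N : ℕ) (hN : Z + Y ≤ N) (hN1 : 1 ≤ N) :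
    (((Ioc Z (Z + Y)).filter (fun n => δ < tl c0 w n)).card : ℝ) * δ ≤ c0 * (Y / w + 1 + Real.log N) := by
  obtain ⟨f, hf⟩ : ∃ f : ℕ → ℝ, f = tl c0 w := ⟨_, rfl⟩
  rw [← hf]
  have hf0 : ∀ n, 0 ≤ f n := fun n => by
    rw [hf]
    unfold tl
    exact Finset.sum_nonneg fun p _ => by positivity
  have h1 : (((Ioc Z (Z + Y)).filter (fun n => δ < f n)).card : ℝ) * δ ≤ ∑ n ∈ Ioc Z (Z + Y), f n := by
    rw [← nsmul_eq_mul]
    refine le_trans (Finset.card_nsmul_le_sum _ _ _ (fun n hn => ?_))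
      (Finset.sum_le_sum_of_subset_of_nonneg (filter_subset _ _) (fun n _ _ => hf0 n))
    rw [mem_filter] at hn
    exact hn.2.le
  refine h1.trans ?_
  have h2 : ∀ n ∈ Ioc Z (Z + Y), f n = ∑ p ∈ (pz N).filter (fun p => w < p), if p ∣ n then (c0 : ℝ) / p else 0 := by
    intro n hn
    rw [mem_Ioc] at hn
    rw [← Finset.sum_filter, hf]
    unfold tl
    apply Finset.sum_congr _ (fun _ _ => rfl)
    ext p
    rw [mem_filter, mem_filter, mem_filter, mem_pz, Nat.mem_primeFactors]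
    constructor
    · rintro ⟨⟨h3, h4, h5⟩, h6⟩
      exact ⟨⟨⟨(Nat.le_of_dvd (by omega) h4).trans (by omega), h3⟩, h6⟩, h4⟩
    · rintro ⟨⟨⟨h3, h4⟩, h5⟩, h6⟩
      exact ⟨⟨h4, h6, by omega⟩, h5⟩
  rw [Finset.sum_congr rfl h2, Finset.sum_comm]
  have h3 : ∀ p ∈ (pz N).filter (fun p => w < p), ∑ n ∈ Ioc Z (Z + Y), (if p ∣ n then (c0 : ℝ) / p else 0) ≤
      c0 * (Y * (1 / (p : ℝ) ^ 2) + 1 / p) := by
    intro p hp
    rw [mem_filter, mem_pz] at hp
    have hp0 : (0 : ℝ) < p := by exact_mod_cast hp.1.2.pos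
    rw [← Finset.sum_filter, Finset.sum_const, nsmul_eq_mul]
    have h4 := Pool.Agent.Y879.AP.card_mult Z Y p hp.1.2.pos
    calc ((((Ioc Z (Z + Y)).filter (fun n => p ∣ n)).card : ℕ) : ℝ) * ((c0 : ℝ) / p) ≤
        (Y / p + 1) * ((c0 : ℝ) / p) := by
          apply mul_le_mul_of_nonneg_right _ (by positivity)
          refine le_trans (le_of_eq ?_) h4
          congr
      _ = _ := by field_simp
  refine (Finset.sum_le_sum h3).trans ?_
  rw [← Finset.mul_sum]
  apply mul_le_mul_of_nonneg_left _ (Nat.cast_nonneg _)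
  rw [Finset.sum_add_distrib, ← Finset.mul_sum]
  have h4 : ∑ p ∈ (pz N).filter (fun p => w < p), 1 / (p : ℝ) ^ 2 ≤ 1 / (w : ℝ) := by
    refine le_trans ?_ (sum_inv_sq w N hw)
    apply Finset.sum_le_sum_of_subset_of_nonneg
    · intro p hp
      rw [mem_filter, mem_pz] at hp
      rw [mem_filter, mem_Icc]
      exact ⟨⟨hp.1.2.one_lt.le, hp.1.1⟩, hp.2⟩
    · intros
      positivity
  have h5 : ∑ p ∈ (pz N).filter (fun p => w < p), (1 : ℝ) / p ≤ 1 + Real.log N := by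
    refine le_trans ?_ (harm_le N hN1)
    apply Finset.sum_le_sum_of_subset_of_nonneg (filter_subset _ _)
    intros
    positivity
  have hY0 : (0 : ℝ) ≤ Y := Nat.cast_nonneg _
  have h6 := mul_le_mul_of_nonneg_left h4 hY0
  calc _ ≤ (Y : ℝ) * (1 / w) + (1 + Real.log N) := add_le_add h6 h5
    _ = _ := by ring

omit [Fintype τ] [DecidableEq τ] in
/-- the density of the base -/
lemma Om_dens (H : τ → ℕ → ℕ → Prop) (m : ℕ) (hbad : ∀ t, ∀ p : ℕ, p.Prime → H t p 0 → p ≤ m) (y Z Y : ℕ)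
    (hY : 4 * m.factorial ≤ Y) :
    (Y : ℝ) / (2 * m.factorial) ≤ (OmY (Pm H) y Z Y).card := by
  classical
  obtain ⟨M, hM⟩ : ∃ M, M = m.factorial := ⟨_, rfl⟩
  have hM0 : 0 < M := by rw [hM]; exact m.factorial_pos
  rw [← hM] at hY ⊢
  have h1 : Y / M - 1 ≤ (OmY (Pm H) y Z Y).card := by
    rw [← card_range (Y / M - 1)]
    apply Finset.card_le_card_of_injOn (fun k => M * (Z / M + 1 + k) + 1)
    · intro k hk
      rw [mem_coe, mem_range] at hk
      rw [mem_coe]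
      beta_reduce
      unfold OmY
      rw [mem_filter, mem_Ioc]
      have h2 : M * (Z / M) ≤ Z := Nat.mul_div_le Z M
      have h3 : Z < M * (Z / M + 1) := by
        have := Nat.lt_mul_div_succ Z hM0
        exact this
      have h4 : M * (Y / M) ≤ Y := Nat.mul_div_le Y M
      have h5 : M * (k + 2) ≤ M * (Y / M) := Nat.mul_le_mul_left M (by omega)
      have h6 : M * (Z / M + 1 + k) = M * (Z / M + 1) + M * k := by ring
      have h7 : M * (Z / M + 1) = M * (Z / M) + M := by ring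
      have h8 : M * (k + 2) = M * k + M + M := by ring
      refine ⟨⟨by omega, by omega⟩, ?_⟩
      intro p hp h9
      rw [mem_pz] at hp
      obtain ⟨h10, t, h11⟩ := h9
      have h12 : p ∣ M := by
        rw [hM]
        exact Nat.dvd_factorial hp.2.pos (hbad t p hp.2 h11)
      have h13 : p ∣ 1 := (Nat.dvd_add_right (Dvd.dvd.mul_right h12 _)).1 h10
      exact hp.2.one_lt.ne' (Nat.dvd_one.1 h13)
    · intro k _ k' _ hkk
      simp only at hkk
      have h2 : M * (Z / M + 1 + k) = M * (Z / M + 1 + k') := by omega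
      have h3 := Nat.eq_of_mul_eq_mul_left hM0 h2
      omega
  have hM0r : (0 : ℝ) < M := by exact_mod_cast hM0
  have h2 : (Y : ℝ) < M * ((Y / M : ℕ) + 1) := by
    exact_mod_cast Nat.lt_mul_div_succ Y hM0
  have h3 : ((Y / M : ℕ) : ℝ) ≤ (OmY (Pm H) y Z Y).card + 1 := by
    exact_mod_cast (by omega : Y / M ≤ (OmY (Pm H) y Z Y).card + 1)
  have h4 : (4 : ℝ) * M ≤ Y := by exact_mod_cast hY
  rw [div_le_iff₀ (by positivity)]
  nlinarith

omit [Fintype τ] [DecidableEq τ] in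
/-- comparison of windows -/
lemma NF_eq (F : τ → ℕ → ℕ → ℕ → Prop) (y : ℕ) (t : τ) (n uf vf ut vt ud vd : ℕ) (h1 : ud ≤ uf) (h2 : uf ≤ ut)
    (h3 : vd ≤ vf) (h4 : vf ≤ vt) (h5 : NF F y t (Ioc ud ut) n = 0) (h6 : NF F y t (Ioc vd vt) n = 0) :
    NF F y t (Ioc uf vf) n = NF F y t (Ioc ut vt) n := by
  classical
  unfold NF at h5 h6 ⊢
  rw [Finset.card_eq_zero, Finset.filter_eq_empty_iff] at h5 h6
  congr 1
  ext b
  rw [mem_filter, mem_filter, mem_Ioc, mem_Ioc]
  constructor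
  · rintro ⟨⟨a1, a2⟩, a3⟩
    refine ⟨⟨?_, by omega⟩, a3⟩
    by_contra hc
    exact h5 (mem_Ioc.2 ⟨by omega, by omega⟩) a3
  · rintro ⟨⟨a1, a2⟩, a3⟩
    refine ⟨⟨by omega, ?_⟩, a3⟩
    by_contra hc
    exact h6 (mem_Ioc.2 ⟨by omega, a2⟩) a3

end Pool.Agent.Q236.FL
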