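import Pool.Agent.Q236.FL.ModAux

set_option autoImplicit false

/-!
# Random moduli, fixed residues: the joint law
-/

namespace Pool.Agent.Q236.FL

open Finset Filter Pool.Agent.H373R2.T7 Pool.Agent.W123.RP Pool.Agent.W123.RU Pool.Agent.TH464.PO
open Pool.Agent.TH464.PW Pool.Agent.Q236.CP Pool.Agent.Q236.ML Pool.Agent.Q236.UL

variable {τ : Type*} [Fintype τ] [DecidableEq τ]

/-- the end points of the windows, with the full local factors -/
noncomputable def wf (H : τ → ℕ → ℕ → Prop) (ρ : τ → ℕ → ℕ) (y : ℕ) (x : τ → ℝ) (n : ℕ) (t : τ) : ℕ :=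
  ⌊x t * gf ρ t n / Vq (H t) y⌋₊

omit [DecidableEq τ] in
lemma PoJ_zero (x : τ → ℝ) : PoJ x {fun _ => 0} = Real.exp (-∑ t, x t) := by
  unfold PoJ
  rw [Finset.sum_singleton, ← Finset.sum_neg_distrib, Real.exp_sum]
  apply Finset.prod_congr rfl
  intro t _
  simp

open Classical in
/-- **The joint law for random moduli.** -/
theorem mod_full (H : τ → ℕ → ℕ → Prop) (ρ : τ → ℕ → ℕ) (same : τ → τ → Prop) (c0 m Kc : ℕ) (C : ℝ)
    (hH : HM H ρ same c0 m Kc C) (Λ ε θ A : ℝ) (hΛ : 0 ≤ Λ) (hε : 0 < ε) (hθ : 0 < θ) (hA : 0 < A) :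
    ∃ r0 : ℕ, 2 ≤ r0 ∧ ∀ r : ℕ, r0 ≤ r → ∀ᶠ X : ℕ in atTop, ∀ x z : τ → ℝ,
      (∀ t, 0 ≤ x t) → (∀ t, x t ≤ z t) → (∀ t, z t ≤ Λ) →
      (∀ s t, s ≠ t → same s t → ρ s = ρ t ∧ (z s ≤ x t ∨ z t ≤ x s)) → ∀ Z Y : ℕ, (X : ℝ) ^ θ ≤ Y →
      ((Z + Y : ℕ) : ℝ) ≤ (X : ℝ) ^ A →
      ∀ S : Finset (τ → ℕ), |(((OmY (Pm H) ⌊(X : ℝ) ^ (1 / (r : ℝ))⌋₊ Z Y).filter
        (fun n => (fun t => NF (Fm H) ⌊(X : ℝ) ^ (1 / (r : ℝ))⌋₊ t
          (Ioc (wf H ρ ⌊(X : ℝ) ^ (1 / (r : ℝ))⌋₊ x n t) (wf H ρ ⌊(X : ℝ) ^ (1 / (r : ℝ))⌋₊ z n t)) n) ∈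
          S)).card : ℝ) -
        (OmY (Pm H) ⌊(X : ℝ) ^ (1 / (r : ℝ))⌋₊ Z Y).card * PoJ (fun t => z t - x t) S| ≤
        ε * (OmY (Pm H) ⌊(X : ℝ) ^ (1 / (r : ℝ))⌋₊ Z Y).card := by
  obtain ⟨sτ, hsτ⟩ : ∃ sτ : ℝ, sτ = Fintype.card τ := ⟨_, rfl⟩
  have hsτ0 : 0 ≤ sτ := by rw [hsτ]; positivity
  obtain ⟨δ, hδ⟩ : ∃ δ : ℝ, δ = min 1 (ε / (8 * (sτ + 1) * (Λ + 1))) := ⟨_, rfl⟩
  have hδ0 : 0 < δ := by
    rw [hδ]
    exact lt_min one_pos (by positivity)
  have hδ1 : δ ≤ 1 := by rw [hδ]; exact min_le_left _ _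
  have hδ2 : 2 * sτ * (δ * Λ) ≤ ε / 4 := by
    have h1 : δ ≤ ε / (8 * (sτ + 1) * (Λ + 1)) := by rw [hδ]; exact min_le_right _ _
    rw [le_div_iff₀ (by positivity)] at h1
    have h2 : sτ * (δ * Λ) ≤ (sτ + 1) * (δ * (Λ + 1)) := by
      apply mul_le_mul (by linarith) _ (by positivity) (by positivity)
      exact mul_le_mul_of_nonneg_left (by linarith) hδ0.le
    nlinarith
  obtain ⟨ε', hε'⟩ : ∃ ε' : ℝ, ε' = ε / (8 * (sτ + 1)) := ⟨_, rfl⟩
  have hε'0 : 0 < ε' := by rw [hε']; positivity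
  have hε'1 : (2 * sτ + 1) * ε' ≤ ε / 4 := by
    rw [hε', ← mul_div_assoc, div_le_iff₀ (by positivity)]
    nlinarith
  obtain ⟨Mf, hMf⟩ : ∃ Mf : ℝ, Mf = (m.factorial : ℝ) := ⟨_, rfl⟩
  have hMf0 : 0 < Mf := by rw [hMf]; exact_mod_cast m.factorial_pos
  obtain ⟨w1, hw1⟩ := exists_nat_ge (16 * Mf * c0 / (δ * ε) + 1)
  obtain ⟨w, r0, hww, hmw, hw2, hr0, htr⟩ := mod_trunc H ρ same c0 m Kc C hH Λ ε' θ hΛ hε'0 hθ w1
  refine ⟨r0, hr0, ?_⟩
  intro r hr
  filter_upwards [htr r hr, logpow_rpow 1 (16 * Mf * (c0 + 1) * (1 + A) / (δ * ε) + 4 * Mf) θ (by positivity) hθ,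
    eventually_ge_atTop 3] with X htr hpw hX3
  intro x z hx hxz hz hsep Z Y hY hZY S
  have hX3r : (3 : ℝ) ≤ X := by exact_mod_cast hX3
  have hlX : 1 ≤ Real.log X := by
    rw [Real.le_log_iff_exp_le (by linarith)]
    have := Real.exp_one_lt_d9
    linarith
  obtain ⟨y, hy⟩ : ∃ y, y = ⌊(X : ℝ) ^ (1 / (r : ℝ))⌋₊ := ⟨_, rfl⟩
  rw [← hy] at htr ⊢
  have hz0 : ∀ t, 0 ≤ z t := fun t => (hx t).trans (hxz t)
  have hVpos : ∀ t y, 0 < Vq (H t) y := fun t y => Vq_pos' H ρ same c0 m Kc C hH t y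
  obtain ⟨Ω, hΩ⟩ : ∃ Ω, Ω = OmY (Pm H) y Z Y := ⟨_, rfl⟩
  have hYbig : 4 * m.factorial ≤ Y := by
    have h1 : 4 * Mf ≤ Y := by
      refine le_trans ?_ (hpw.trans hY)
      rw [pow_one]
      have h2 : 0 ≤ 16 * Mf * (c0 + 1) * (1 + A) / (δ * ε) := by positivity
      nlinarith
    rw [hMf] at h1
    exact_mod_cast h1
  have hΩd : (Y : ℝ) / (2 * Mf) ≤ Ω.card := by
    rw [hΩ, hMf]
    exact Om_dens H m hH.bad y Z Y hYbig
  have hΩsub : ∀ n ∈ Ω, n ≠ 0 := by
    intro n hn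
    rw [hΩ] at hn
    unfold OmY at hn
    rw [mem_filter, mem_Ioc] at hn
    omega
  -- the bad moduli
  have hbad : ((Ω.filter (fun n => δ < tl c0 w n)).card : ℝ) ≤ ε / 4 * Ω.card := by
    have hZY1 : 1 ≤ Z + Y := by
      have := m.factorial_pos
      omega
    have h1 := tail_count c0 w (by omega) δ Z Y (Z + Y) le_rfl hZY1
    have h2 : (Ω.filter (fun n => δ < tl c0 w n)).card ≤
        ((Ioc Z (Z + Y)).filter (fun n => δ < tl c0 w n)).card := by
      apply card_le_card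
      apply Finset.filter_subset_filter
      rw [hΩ]
      unfold OmY
      exact filter_subset _ _
    have h3 : Real.log ((Z + Y : ℕ) : ℝ) ≤ A * Real.log X := by
      rw [← Real.log_rpow (by linarith)]
      exact Real.log_le_log (by exact_mod_cast hZY1) hZY
    have h4 : (c0 : ℝ) * (Y / w + 1 + Real.log ((Z + Y : ℕ) : ℝ)) ≤ δ * ε * Y / (8 * Mf) := by
      have hw0 : (0 : ℝ) < w := by exact_mod_cast (by omega : 0 < w)
      have h5 : (c0 : ℝ) * (Y / w) ≤ δ * ε * Y / (16 * Mf) := by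
        have h6 : 16 * Mf * c0 / (δ * ε) ≤ w := by
          have : (w1 : ℝ) ≤ w := by exact_mod_cast hww
          linarith
        rw [div_le_iff₀ (by positivity)] at h6
        rw [← mul_div_assoc, div_le_div_iff₀ hw0 (by positivity)]
        have hY0 : (0 : ℝ) ≤ Y := Nat.cast_nonneg _
        nlinarith
      have h7 : (c0 : ℝ) * (1 + Real.log ((Z + Y : ℕ) : ℝ)) ≤ δ * ε * Y / (16 * Mf) := by
        have h8 : (c0 : ℝ) * (1 + Real.log ((Z + Y : ℕ) : ℝ)) ≤ (c0 + 1) * ((1 + A) * Real.log X) := by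
          apply mul_le_mul (by linarith) _ _ (by positivity)
          · nlinarith
          · have : 0 ≤ Real.log ((Z + Y : ℕ) : ℝ) := Real.log_natCast_nonneg _
            linarith
        refine h8.trans ?_
        rw [le_div_iff₀ (by positivity)]
        have h9 : 16 * Mf * (c0 + 1) * (1 + A) / (δ * ε) * Real.log X ≤ Y := by
          refine le_trans ?_ (hpw.trans hY)
          rw [pow_one]
          apply mul_le_mul_of_nonneg_right _ (by linarith)
          linarith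
        rw [div_mul_eq_mul_div, div_le_iff₀ (by positivity)] at h9
        linarith
      have e1 : δ * ε * Y / (8 * Mf) = δ * ε * Y / (16 * Mf) + δ * ε * Y / (16 * Mf) := by
        field_simp
        ring
      rw [e1]
      linarith
    have h5 : ((Ω.filter (fun n => δ < tl c0 w n)).card : ℝ) * δ ≤ δ * ε * Y / (8 * Mf) := by
      refine le_trans ?_ (h1.trans h4)
      apply mul_le_mul_of_nonneg_right _ hδ0.le
      exact_mod_cast h2
    have h6 : ((Ω.filter (fun n => δ < tl c0 w n)).card : ℝ) ≤ ε * Y / (8 * Mf) := by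
      rw [show δ * ε * Y / (8 * Mf) = ε * Y / (8 * Mf) * δ by ring] at h5
      exact le_of_mul_le_mul_right h5 hδ0
    refine h6.trans ?_
    have h7 : ε * Y / (8 * Mf) = ε / 4 * (Y / (2 * Mf)) := by
      field_simp
      ring
    rw [h7]
    exact mul_le_mul_of_nonneg_left hΩd (by positivity)
  -- the differences of the windows
  have hdiff : ∀ (t0 : τ) (q : ℝ), 0 ≤ q → q ≤ Λ → ((Ω.filter (fun n => NF (Fm H) y t0
      (Ioc ⌊(1 - δ) * q * gm ρ t0 w n / Vq (H t0) y⌋₊ ⌊q * gm ρ t0 w n / Vq (H t0) y⌋₊) n ≠ 0)).card : ℝ) ≤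
      (δ * Λ + ε') * Ω.card := by
    intro t0 q hq hqΛ
    have hq1 : 0 ≤ (1 - δ) * q := mul_nonneg (by linarith) hq
    have hq2 : (1 - δ) * q ≤ q := by nlinarith
    have h1 := htr (fun t => if t = t0 then (1 - δ) * q else 0) (fun t => if t = t0 then q else 0)
      (fun t => by split_ifs <;> [exact hq1; exact le_rfl])
      (fun t => by split_ifs <;> [exact hq2; exact le_rfl])
      (fun t => by split_ifs <;> [exact hqΛ; exact hΛ])
      (fun s t hst hsame => by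
        refine ⟨(hsep s t hst hsame).1, ?_⟩
        by_cases hs : s = t0
        · right
          rw [if_neg (fun h => hst (hs.trans h.symm)), if_pos hs]
          exact hq1
        · left
          rw [if_neg hs]
          split_ifs
          · exact hq1
          · exact le_rfl) Z Y hY {fun _ => 0}
    rw [← hΩ, PoJ_zero] at h1
    have e1 : ∑ t, ((if t = t0 then q else 0) - (if t = t0 then (1 - δ) * q else 0)) = δ * q := by
      rw [Finset.sum_sub_distrib, Finset.sum_ite_eq' univ t0, Finset.sum_ite_eq' univ t0, if_pos (mem_univ _),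
        if_pos (mem_univ _)]
      ring
    rw [e1] at h1
    have e2 : Ω.filter (fun n => (fun t => NF (Fm H) y t
        (Ioc (wn H ρ w y (fun t => if t = t0 then (1 - δ) * q else 0) n t)
          (wn H ρ w y (fun t => if t = t0 then q else 0) n t)) n) ∈ ({fun _ => 0} : Finset (τ → ℕ))) =
        Ω.filter (fun n => ¬ NF (Fm H) y t0
      (Ioc ⌊(1 - δ) * q * gm ρ t0 w n / Vq (H t0) y⌋₊ ⌊q * gm ρ t0 w n / Vq (H t0) y⌋₊) n ≠ 0) := by
      apply Finset.filter_congr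
      intro n _
      rw [mem_singleton, not_not]
      constructor
      · intro h
        have h2 := congrFun h t0
        simp only [wn, if_true] at h2
        exact h2
      · intro h
        funext t
        by_cases ht : t = t0
        · subst ht
          simp only [wn, if_true]
          exact h
        · simp only [wn, if_neg ht, zero_mul, zero_div, Nat.floor_zero]
          unfold NF
          rw [Ioc_self, Finset.filter_empty, card_empty]
    rw [e2] at h1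
    have h2 := Finset.card_filter_add_card_filter_not (s := Ω) (fun n => NF (Fm H) y t0
      (Ioc ⌊(1 - δ) * q * gm ρ t0 w n / Vq (H t0) y⌋₊ ⌊q * gm ρ t0 w n / Vq (H t0) y⌋₊) n ≠ 0)
    have h3 : ((Ω.filter (fun n => NF (Fm H) y t0
      (Ioc ⌊(1 - δ) * q * gm ρ t0 w n / Vq (H t0) y⌋₊ ⌊q * gm ρ t0 w n / Vq (H t0) y⌋₊) n ≠ 0)).card : ℝ) +
      ((Ω.filter (fun n => ¬ NF (Fm H) y t0
      (Ioc ⌊(1 - δ) * q * gm ρ t0 w n / Vq (H t0) y⌋₊ ⌊q * gm ρ t0 w n / Vq (H t0) y⌋₊) n ≠ 0)).card : ℝ) =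
      Ω.card := by exact_mod_cast h2
    have h4 := (abs_le.1 h1).1
    have h5 := Real.one_sub_le_exp_neg (δ * q)
    have h6 : 1 - δ * Λ ≤ Real.exp (-(δ * q)) := by nlinarith
    have hΩ0 : (0 : ℝ) ≤ Ω.card := Nat.cast_nonneg _
    have h7 := mul_le_mul_of_nonneg_left h6 hΩ0
    linarith
  -- the comparison
  have hmain := htr x z hx hxz hz hsep Z Y hY S
  rw [← hΩ] at hmain
  obtain ⟨Tv, hTv⟩ : ∃ Tv : ℕ → τ → ℕ, Tv = fun n t => NF (Fm H) y t
    (Ioc (wn H ρ w y x n t) (wn H ρ w y z n t)) n := ⟨_, rfl⟩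
  obtain ⟨Fv, hFv⟩ : ∃ Fv : ℕ → τ → ℕ, Fv = fun n t => NF (Fm H) y t
    (Ioc (wf H ρ y x n t) (wf H ρ y z n t)) n := ⟨_, rfl⟩
  have e1 : (Ω.filter (fun n => (fun t => NF (Fm H) y t (Ioc (wn H ρ w y x n t) (wn H ρ w y z n t)) n) ∈ S)) =
      Ω.filter (fun n => Tv n ∈ S) := by rw [hTv]
  have e2 : (Ω.filter (fun n => (fun t => NF (Fm H) y t (Ioc (wf H ρ y x n t) (wf H ρ y z n t)) n) ∈ S)) =
      Ω.filter (fun n => Fv n ∈ S) := by rw [hFv]
  rw [← hΩ, e2]
  rw [e1] at hmain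
  have hE : ((Ω.filter (fun n => Fv n ≠ Tv n)).card : ℝ) ≤ ε / 4 * Ω.card + 2 * sτ * ((δ * Λ + ε') * Ω.card) := by
    obtain ⟨D, hD⟩ : ∃ D : τ → (τ → ℝ) → Finset ℕ, D = fun t q => Ω.filter (fun n => NF (Fm H) y t
      (Ioc ⌊(1 - δ) * q t * gm ρ t w n / Vq (H t) y⌋₊ ⌊q t * gm ρ t w n / Vq (H t) y⌋₊) n ≠ 0) := ⟨_, rfl⟩
    have hsub : Ω.filter (fun n => Fv n ≠ Tv n) ⊆ (Ω.filter (fun n => δ < tl c0 w n)) ∪
        (univ.biUnion (fun t => D t x ∪ D t z)) := by
      intro n hn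
      rw [mem_filter] at hn
      rw [mem_union]
      by_contra hc
      push Not at hc
      obtain ⟨hc1, hc2⟩ := hc
      rw [mem_filter, not_and, not_lt] at hc1
      have hc1 := hc1 hn.1
      rw [mem_biUnion] at hc2
      push Not at hc2
      apply hn.2
      funext t
      have hc3 := hc2 t (mem_univ t)
      rw [mem_union, not_or, hD] at hc3
      simp only [mem_filter, not_and, not_not] at hc3
      have hx3 := hc3.1 hn.1
      have hz3 := hc3.2 hn.1
      have hn0 := hΩsub n hn.1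
      have g1 := gf_le_gm H ρ same c0 m Kc C hH t w n hn0
      have g2 := gf_ge H ρ same c0 m Kc C hH t w n hn0
      have g3 := gm_pos H ρ same c0 m Kc C hH t w n
      have g4 : (1 - δ) * gm ρ t w n ≤ gf ρ t n := by
        refine le_trans ?_ g2
        exact mul_le_mul_of_nonneg_right (by linarith) g3.le
      have hV := hVpos t y
      have k1 : ∀ q : ℝ, 0 ≤ q → ⌊(1 - δ) * q * gm ρ t w n / Vq (H t) y⌋₊ ≤ ⌊q * gf ρ t n / Vq (H t) y⌋₊ ∧
          ⌊q * gf ρ t n / Vq (H t) y⌋₊ ≤ ⌊q * gm ρ t w n / Vq (H t) y⌋₊ := by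
        intro q hq
        constructor
        · apply Nat.floor_le_floor
          apply div_le_div_of_nonneg_right _ hV.le
          calc (1 - δ) * q * gm ρ t w n = q * ((1 - δ) * gm ρ t w n) := by ring
            _ ≤ q * gf ρ t n := mul_le_mul_of_nonneg_left g4 hq
        · apply Nat.floor_le_floor
          apply div_le_div_of_nonneg_right _ hV.le
          exact mul_le_mul_of_nonneg_left g1 hq
      rw [hFv, hTv]
      exact NF_eq (Fm H) y t n _ _ _ _ _ _ (k1 (x t) (hx t)).1 (k1 (x t) (hx t)).2 (k1 (z t) (hz0 t)).1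
        (k1 (z t) (hz0 t)).2 hx3 hz3
    have h1 : ((Ω.filter (fun n => Fv n ≠ Tv n)).card : ℝ) ≤ ((Ω.filter (fun n => δ < tl c0 w n)).card : ℝ) +
        ∑ t, (((D t x).card : ℝ) + (D t z).card) := by
      have h2 := (card_le_card hsub).trans ((card_union_le _ _).trans (Nat.add_le_add_left card_biUnion_le _))
      have h3 : ((Ω.filter (fun n => Fv n ≠ Tv n)).card : ℝ) ≤ ((Ω.filter (fun n => δ < tl c0 w n)).card : ℝ) +
        ∑ t, (((D t x ∪ D t z).card : ℕ) : ℝ) := by exact_mod_cast h2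
      refine h3.trans ?_
      have h4 : ∑ t, (((D t x ∪ D t z).card : ℕ) : ℝ) ≤ ∑ t, (((D t x).card : ℝ) + (D t z).card) := by
        apply Finset.sum_le_sum
        intro t _
        exact_mod_cast card_union_le _ _
      linarith
    refine h1.trans (add_le_add hbad ?_)
    calc ∑ t, (((D t x).card : ℝ) + (D t z).card) ≤ ∑ _t : τ, 2 * ((δ * Λ + ε') * Ω.card) := by
          apply Finset.sum_le_sum
          intro t _
          have h2 := hdiff t (x t) (hx t) ((hxz t).trans (hz t))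
          have h3 := hdiff t (z t) (hz0 t) (hz t)
          rw [hD]
          linarith
      _ = _ := by
          rw [Finset.sum_const, Finset.card_univ, nsmul_eq_mul, ← hsτ]
          ring
  have hcmp : |((Ω.filter (fun n => Fv n ∈ S)).card : ℝ) - (Ω.filter (fun n => Tv n ∈ S)).card| ≤
      (Ω.filter (fun n => Fv n ≠ Tv n)).card := by
    have h1 : (Ω.filter (fun n => Fv n ∈ S)).card ≤ (Ω.filter (fun n => Tv n ∈ S)).card +
        (Ω.filter (fun n => Fv n ≠ Tv n)).card := by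
      refine (card_le_card ?_).trans (card_union_le _ _)
      intro n hn
      rw [mem_filter] at hn
      rw [mem_union, mem_filter, mem_filter]
      by_cases h : Fv n = Tv n
      · left
        rw [← h]
        exact hn
      · exact Or.inr ⟨hn.1, h⟩
    have h2 : (Ω.filter (fun n => Tv n ∈ S)).card ≤ (Ω.filter (fun n => Fv n ∈ S)).card +
        (Ω.filter (fun n => Fv n ≠ Tv n)).card := by
      refine (card_le_card ?_).trans (card_union_le _ _)
      intro n hn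
      rw [mem_filter] at hn
      rw [mem_union, mem_filter, mem_filter]
      by_cases h : Fv n = Tv n
      · left
        rw [h]
        exact hn
      · exact Or.inr ⟨hn.1, h⟩
    have h1' : ((Ω.filter (fun n => Fv n ∈ S)).card : ℝ) ≤ (Ω.filter (fun n => Tv n ∈ S)).card +
        (Ω.filter (fun n => Fv n ≠ Tv n)).card := by exact_mod_cast h1
    have h2' : ((Ω.filter (fun n => Tv n ∈ S)).card : ℝ) ≤ (Ω.filter (fun n => Fv n ∈ S)).card +
        (Ω.filter (fun n => Fv n ≠ Tv n)).card := by exact_mod_cast h2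
    rw [abs_le]
    constructor <;> linarith
  have hΩ0 : (0 : ℝ) ≤ Ω.card := Nat.cast_nonneg _
  have htot : ε / 4 * (Ω.card : ℝ) + 2 * sτ * ((δ * Λ + ε') * Ω.card) + ε' * Ω.card ≤ ε * Ω.card := by
    have e : ε / 4 * (Ω.card : ℝ) + 2 * sτ * ((δ * Λ + ε') * Ω.card) + ε' * Ω.card =
        (ε / 4 + 2 * sτ * (δ * Λ) + (2 * sτ + 1) * ε') * Ω.card := by ring
    rw [e]
    apply mul_le_mul_of_nonneg_right _ hΩ0
    linarith
  have h1 := abs_le.1 hmain
  have h2 := abs_le.1 (hcmp.trans hE)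
  rw [abs_le]
  constructor <;> linarith [h1.1, h1.2, h2.1, h2.2]

end Pool.Agent.Q236.FL
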