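import Pool.Agent.Q236.FL.Mod

set_option autoImplicit false

/-!
# Random moduli, fixed residues: the joint law with truncated local factors
-/

namespace Pool.Agent.Q236.FL

open Finset Filter Pool.Agent.H373R2.T7 Pool.Agent.W123.RP Pool.Agent.W123.RU Pool.Agent.TH464.PO
open Pool.Agent.TH464.PW Pool.Agent.Q236.CP Pool.Agent.Q236.ML Pool.Agent.Q236.UL

variable {τ : Type*} [Fintype τ] [DecidableEq τ]

/-- the end points of the windows -/
noncomputable def wn (H : τ → ℕ → ℕ → Prop) (ρ : τ → ℕ → ℕ) (w y : ℕ) (x : τ → ℝ) (a : ℕ) (t : τ) : ℕ :=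
  ⌊x t * gm ρ t w a / Vq (H t) y⌋₊

open Classical in
/-- **The joint law for random moduli, with truncated local factors.** -/
theorem mod_trunc (H : τ → ℕ → ℕ → Prop) (ρ : τ → ℕ → ℕ) (same : τ → τ → Prop) (c0 m Kc : ℕ) (C : ℝ)
    (hH : HM H ρ same c0 m Kc C) (Λ ε θ : ℝ) (hΛ : 0 ≤ Λ) (hε : 0 < ε) (hθ : 0 < θ) (w1 : ℕ) :
    ∃ w r0 : ℕ, w1 ≤ w ∧ m ≤ w ∧ 2 ≤ w ∧ 2 ≤ r0 ∧ ∀ r : ℕ, r0 ≤ r → ∀ᶠ X : ℕ in atTop, ∀ x z : τ → ℝ,
      (∀ t, 0 ≤ x t) → (∀ t, x t ≤ z t) → (∀ t, z t ≤ Λ) →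
      (∀ s t, s ≠ t → same s t → ρ s = ρ t ∧ (z s ≤ x t ∨ z t ≤ x s)) → ∀ Z Y : ℕ, (X : ℝ) ^ θ ≤ Y →
      ∀ S : Finset (τ → ℕ), |(((OmY (Pm H) ⌊(X : ℝ) ^ (1 / (r : ℝ))⌋₊ Z Y).filter
        (fun n => (fun t => NF (Fm H) ⌊(X : ℝ) ^ (1 / (r : ℝ))⌋₊ t
          (Ioc (wn H ρ w ⌊(X : ℝ) ^ (1 / (r : ℝ))⌋₊ x n t) (wn H ρ w ⌊(X : ℝ) ^ (1 / (r : ℝ))⌋₊ z n t)) n) ∈
          S)).card : ℝ) -
        (OmY (Pm H) ⌊(X : ℝ) ^ (1 / (r : ℝ))⌋₊ Z Y).card * PoJ (fun t => z t - x t) S| ≤
        ε * (OmY (Pm H) ⌊(X : ℝ) ^ (1 / (r : ℝ))⌋₊ Z Y).card := by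
  obtain ⟨v0, hv0, hVlow⟩ := V_lower_unif c0
  obtain ⟨Λ1, hΛ1⟩ : ∃ Λ1 : ℝ, Λ1 = (Λ + 1) / v0 := ⟨_, rfl⟩
  have hΛ10 : 0 < Λ1 := by rw [hΛ1]; positivity
  obtain ⟨w, κ, r0, hw1, hww, hwc, hκ, hr0, hlaw⟩ := two_gen (τ := τ) (c0 + m + 1) 1 1 c0 (c0 + 1)
    (max w1 (m + 2)) one_pos (Λ + 1) Λ1 (ε / 2) (by linarith) hΛ10.le (by linarith) 1 θ one_pos hθ
  have hwm : m + 2 ≤ w := (le_max_right _ _).trans hww
  refine ⟨w, r0, (le_max_left _ _).trans hww, by omega, by omega, hr0, ?_⟩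
  intro r hr
  have hr2 : 2 ≤ r := hr0.trans hr
  have hrr : (2 : ℝ) ≤ r := by exact_mod_cast hr2
  have hC0 := hH.C0
  obtain ⟨Cv, hCv⟩ : ∃ Cv : ℝ, Cv = 2 * r * C / (v0 * Λ1) + 1 := ⟨_, rfl⟩
  have hCv0 : 0 < Cv := by rw [hCv]; positivity
  have hlogX : Tendsto (fun X : ℕ => Real.log (X : ℝ)) atTop atTop :=
    Real.tendsto_log_atTop.comp tendsto_natCast_atTop_atTop
  have hllX : Tendsto (fun X : ℕ => Real.log (Real.log (X : ℝ))) atTop atTop := Real.tendsto_log_atTop.comp hlogX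
  have hfloor : Tendsto (fun X : ℕ => ⌊(X : ℝ) ^ (1 / (r : ℝ))⌋₊) atTop atTop :=
    tendsto_nat_floor_atTop.comp ((tendsto_rpow_atTop (by positivity)).comp tendsto_natCast_atTop_atTop)
  have hlogw : 0 < Real.log w := Real.log_pos (by exact_mod_cast (by omega : 1 < w))
  obtain ⟨Lw, hLw⟩ : ∃ Lw : ℝ, Lw = Real.log w ^ c0 / v0 := ⟨_, rfl⟩
  have hLw0 : 0 < Lw := by rw [hLw]; positivity
  obtain ⟨sτ, hsτ⟩ : ∃ sτ : ℝ, sτ = Fintype.card τ := ⟨_, rfl⟩
  have hsτ0 : 0 ≤ sτ := by rw [hsτ]; positivity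
  obtain ⟨M1, hM1⟩ : ∃ M1 : ℝ, M1 = 2 * r * C * Lw * (4 * sτ / ε + 1) := ⟨_, rfl⟩
  filter_upwards [hlaw r hr Cv hCv0, Pool.Agent.Y879.GL.level_ok r hr2, hllX.eventually_ge_atTop 1,
    hlogX.eventually_ge_atTop (Λ / v0 + 1), hfloor.eventually_ge_atTop w, hlogX.eventually_ge_atTop M1,
    logpow_rpow ((c0 + 1) * Kc) ((Kc : ℝ) * 2 ^ Kc + 1) 1 (by positivity) one_pos] with
    X hmain hlev hll hlX1 hfw hlX2 hpw
  intro x z hx hxz hz hsep Z Y hY S
  obtain ⟨y, hy⟩ : ∃ y, y = ⌊(X : ℝ) ^ (1 / (r : ℝ))⌋₊ := ⟨_, rfl⟩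
  rw [← hy] at hmain hlev hfw ⊢
  obtain ⟨hy3, hylo, hyup, hly1, hlX⟩ := hlev
  have hwy : w ≤ y := hfw
  have hly0 : 0 < Real.log y := by linarith
  have hlX0 : 0 < Real.log X := by linarith
  have hz0 : ∀ t, 0 ≤ z t := fun t => (hx t).trans (hxz t)
  have hVpos : ∀ t y, 0 < Vq (H t) y := fun t y => Vq_pos' H ρ same c0 m Kc C hH t y
  have hperH : ∀ t, PerB (H t) c0 := fun t => ⟨hH.per t, fun p hp => by
    rw [hH.cnt t p hp]
    exact hH.few t p hp⟩
  have hadmH : ∀ t, ∀ p : ℕ, p.Prime → nuB (H t) p < p := fun t p hp => by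
    rw [hH.cnt t p hp]
    exact hH.adm t p hp
  have hVw : ∀ t, 1 / Vq (H t) w ≤ Lw := by
    intro t
    have h1 := hVlow (H t) (hperH t) (hadmH t) w (by omega)
    rw [hLw, one_div, inv_le_comm₀ (hVpos t w) (by positivity), inv_div]
    exact h1
  have hVy : ∀ t, Vq (H t) y ≤ 2 * r * C / Real.log X := by
    intro t
    refine (hH.up t y (by omega)).trans ?_
    rw [div_le_div_iff₀ hly0 hlX0]
    rw [div_le_iff₀ (by positivity)] at hylo
    nlinarith
  have hVyl : ∀ t, v0 / Real.log X ^ c0 ≤ Vq (H t) y := by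
    intro t
    refine le_trans ?_ (hVlow (H t) (hperH t) (hadmH t) y (by omega))
    apply div_le_div_of_nonneg_left hv0.le (by positivity)
    exact pow_le_pow_left₀ hly0.le hyup c0
  have hWt : ∀ t, Wt (ρ t) w y = Vq (H t) y / Vq (H t) w := by
    intro t
    rw [Wt_H H ρ same c0 m Kc C hH, Vq_split (H t) w y hwy]
    field_simp [(hVpos t w).ne']
  have hwnz : ∀ a t, (wn H ρ w y z a t : ℝ) ≤ z t / Vq (H t) y := by
    intro a t
    unfold wn
    refine (Nat.floor_le (by
      have h1 := hz0 t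
      have h2 := gm_pos H ρ same c0 m Kc C hH t w a
      have h3 := hVpos t y
      positivity)).trans ?_
    apply div_le_div_of_nonneg_right _ (hVpos t y).le
    have h1 := gm_le H ρ same c0 m Kc C hH t w a
    have h2 := hz0 t
    nlinarith
  have hwnm : ∀ (a : ℕ) (x1 x2 : ℝ) (t t' : τ), x1 ≤ x2 → ρ t = ρ t' →
      ⌊x1 * gm ρ t w a / Vq (H t) y⌋₊ ≤ ⌊x2 * gm ρ t' w a / Vq (H t') y⌋₊ := by
    intro a x1 x2 t t' h12 hρ
    have e1 : gm ρ t w a = gm ρ t' w a := by
      unfold gm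
      rw [hρ]
    have e2 : Vq (H t) y = Vq (H t') y := by
      rw [Vq_H H ρ same c0 m Kc C hH, Vq_H H ρ same c0 m Kc C hH, hρ]
    rw [e1, e2]
    apply Nat.floor_le_floor
    apply div_le_div_of_nonneg_right _ (hVpos t' y).le
    exact mul_le_mul_of_nonneg_right h12 (gm_pos H ρ same c0 m Kc C hH t' w a).le
  -- the hypotheses
  have hFH : ∀ a, FH (Pm H) (Fm H) (fun _ p b => p ∣ b) (fun _ => False) ρ (Lm H) (c0 + m + 1) 1 w y
      (wn H ρ w y x a) (wn H ρ w y z a) κ (Λ1 * Real.log w ^ c0) (Real.log X / (Cv * Real.log (Real.log X)))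
      (Real.log X) (c0 + 1) ((X : ℝ) ^ (1 : ℝ)) := by
    intro a
    refine ⟨perB_Pm H c0 m, two_Fm H ρ same c0 m Kc C hH, ?_, ?_, ?_, ?_, ?_, fun i => ⟨id, id⟩, ?_, ?_, ?_, ?_,
      ?_, ?_, ?_⟩
    · intro _
      constructor
      · intro p b
        exact (Nat.dvd_mod_iff (dvd_refl p)).symm
      · intro p _ _
        have h1 : (range p).filter (fun r => p ∣ r) ⊆ {0} := by
          intro n hn
          rw [mem_filter, mem_range] at hn
          rw [mem_singleton]
          exact Nat.eq_zero_of_dvd_of_lt hn.2 hn.1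
        have := card_le_card h1
        rw [card_singleton] at this
        refine le_trans (le_of_eq ?_) this
        congr
    · intro p hp
      have h1 := nuB_Pm H p
      have := hp.two_le
      omega
    · intro t b n h1 h2
      exact live_Fm H ρ same c0 m Kc C hH w (by omega) t b n h1 h2
    · intro t p hp _
      have := hH.few t p (mem_pz.1 hp).2
      omega
    · intro t b _ p hp hwp hE
      exact (nuB_n H ρ same c0 m Kc C hH t b p (mem_pz.1 hp).2 hE).2 (by omega)
    · intro t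
      exact hwnm a (x t) (z t) t t (hxz t) rfl
    · simp only [Finset.filter_false, Finset.sum_empty]
      exact hκ.le
    · simp only [Finset.filter_false, Finset.sum_empty]
      exact hκ.le
    · intro t
      rw [hWt]
      have h1 := hwnz a t
      have h2 := hVpos t y
      have h3 := hVpos t w
      calc (wn H ρ w y z a t : ℝ) * (Vq (H t) y / Vq (H t) w) ≤ z t / Vq (H t) y * (Vq (H t) y / Vq (H t) w) :=
            mul_le_mul_of_nonneg_right h1 (by positivity)
        _ = z t * (1 / Vq (H t) w) := by field_simp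
        _ ≤ (Λ + 1) * Lw := mul_le_mul (by linarith [hz t]) (hVw t) (by positivity) (by linarith)
        _ = Λ1 * Real.log w ^ c0 := by
            rw [hLw, hΛ1]
            ring
    · intro t
      rw [hWt, div_div_eq_mul_div, le_div_iff₀ hlX0]
      have h2 := hVpos t y
      have h3 := hVpos t w
      have h4 := hVy t
      rw [le_div_iff₀ hlX0] at h4
      have h5 : 2 * r * C ≤ v0 * Λ1 * (Cv * Real.log (Real.log X)) := by
        have h6 : v0 * Λ1 * Cv = 2 * r * C + v0 * Λ1 := by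
          rw [hCv]
          field_simp
        have h7 : 2 * r * C ≤ v0 * Λ1 * Cv := by
          rw [h6]
          have : 0 < v0 * Λ1 := by positivity
          linarith
        have h8 : 0 ≤ v0 * Λ1 * Cv := by positivity
        nlinarith
      calc Vq (H t) y / Vq (H t) w * Real.log X = Vq (H t) y * Real.log X * (1 / Vq (H t) w) := by ring
        _ ≤ (2 * r * C) * Lw := mul_le_mul h4 (hVw t) (by positivity) (by positivity)
        _ ≤ (v0 * Λ1 * (Cv * Real.log (Real.log X))) * Lw := mul_le_mul_of_nonneg_right h5 hLw0.le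
        _ = _ := by
            rw [hLw]
            field_simp
    · intro t
      refine (hwnz a t).trans ?_
      have h2 := hVpos t y
      rw [div_le_iff₀ h2, pow_succ]
      have h3 := hVyl t
      rw [div_le_iff₀ (by positivity)] at h3
      have h4 : Λ ≤ v0 * Real.log X := by
        have h5 : Λ / v0 ≤ Real.log X := by linarith
        rw [div_le_iff₀ hv0] at h5
        linarith
      calc z t ≤ v0 * Real.log X := (hz t).trans h4
        _ ≤ (Vq (H t) y * Real.log X ^ c0) * Real.log X := mul_le_mul_of_nonneg_right h3 hlX0.le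
        _ = _ := by ring
    · intro i hi t b hb hne _
      have hbw := hb
      unfold Bw at hbw
      rw [mem_filter, mem_Ioc] at hbw
      rw [mem_insert] at hi
      rcases hi with rfl | hi
      · refine ⟨1, one_pos, ?_, ?_⟩
        · push_cast
          rw [Real.rpow_one]
          have h1 := Real.log_le_sub_one_of_pos (by
            rcases Nat.eq_zero_or_pos X with h | h
            · rw [h] at hlX0
              simp at hlX0
            · exact_mod_cast h : (0 : ℝ) < X)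
          linarith
        · intro p _ hpv hco
          exfalso
          rcases hco with h | ⟨n, h1, h2⟩
          · have := Nat.le_of_dvd (by omega) h
            omega
          · exact h2.1 h1.1
      · unfold Al at hi
        rw [mem_biUnion] at hi
        obtain ⟨s, _, hi⟩ := hi
        unfold Bx at hi
        rw [mem_image] at hi
        obtain ⟨k, hk, rfl⟩ := hi
        have hkw := hk
        unfold Bw at hkw
        rw [mem_filter, mem_Ioc] at hkw
        have hns : ¬ (k = b ∧ same s t) := by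
          rintro ⟨hkb, hst⟩
          by_cases hs : s = t
          · exact hne (by rw [hs, hkb])
          · obtain ⟨hρ, hor⟩ := hsep s t hs hst
            rcases hor with h | h
            · have h1 : wn H ρ w y z a s ≤ wn H ρ w y x a t := hwnm a (z s) (x t) s t h hρ
              omega
            · have h1 : wn H ρ w y z a t ≤ wn H ρ w y x a s := hwnm a (z t) (x s) t s h hρ.symm
              omega
        obtain ⟨R, hR0, hR1, hR2⟩ := hH.coll s t k b (by omega) (by omega) hkw.2 hbw.2 hns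
        refine ⟨R, hR0, ?_, ?_⟩
        · refine le_trans ?_ hpw
          have h1 : (R : ℝ) ≤ Kc * ((k : ℝ) + b) ^ Kc := by exact_mod_cast hR1
          have hvb : ∀ a t, (wn H ρ w y z a t : ℝ) ≤ Real.log X ^ (c0 + 1) := by
            intro a t
            refine (hwnz a t).trans ?_
            have h2 := hVpos t y
            rw [div_le_iff₀ h2, pow_succ]
            have h3 := hVyl t
            rw [div_le_iff₀ (by positivity)] at h3
            have h4 : Λ ≤ v0 * Real.log X := by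
              have h5 : Λ / v0 ≤ Real.log X := by linarith
              rw [div_le_iff₀ hv0] at h5
              linarith
            calc z t ≤ v0 * Real.log X := (hz t).trans h4
              _ ≤ (Vq (H t) y * Real.log X ^ c0) * Real.log X := mul_le_mul_of_nonneg_right h3 hlX0.le
              _ = _ := by ring
          have h2 : (k : ℝ) ≤ Real.log X ^ (c0 + 1) := by
            refine le_trans ?_ (hvb a s)
            exact_mod_cast hkw.1.2
          have h3 : (b : ℝ) ≤ Real.log X ^ (c0 + 1) := by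
            refine le_trans ?_ (hvb a t)
            exact_mod_cast hbw.1.2
          calc (R : ℝ) ≤ Kc * ((k : ℝ) + b) ^ Kc := h1
            _ ≤ Kc * (2 * Real.log X ^ (c0 + 1)) ^ Kc := by
                apply mul_le_mul_of_nonneg_left _ (Nat.cast_nonneg _)
                exact pow_le_pow_left₀ (by positivity) (by linarith) _
            _ = Kc * 2 ^ Kc * Real.log X ^ ((c0 + 1) * Kc) := by
                rw [mul_pow, ← pow_mul]
                ring
            _ ≤ (Kc * 2 ^ Kc + 1) * Real.log X ^ ((c0 + 1) * Kc) := by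
                apply mul_le_mul_of_nonneg_right _ (by positivity)
                linarith
        · intro p hp hpv hco
          rcases hco with h | ⟨n, h1, h2⟩
          · exfalso
            have := Nat.le_of_dvd (by omega) h
            omega
          · exact hR2 p hp ⟨n, h1.1, h1.2, h2.2⟩
  have h0 := hmain (Pm H) (Fm H) (fun _ p b => p ∣ b) (fun _ => False) (fun _ => 0) ρ (Lm H) (wn H ρ w y x)
    (wn H ρ w y z) Z Y (fun _ h => h.elim) hFH hY (fun _ => S)
  -- the windows depend on `n` modulo the small primes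
  have hwmod : ∀ (x : τ → ℝ) (n : ℕ), wn H ρ w y x (n % Mw w) = wn H ρ w y x n := by
    intro x n
    funext t
    unfold wn
    rw [gm_mod]
  simp only [hwmod] at h0
  -- the means
  have hWs : ∀ t, Vq (H t) y / Vq (H t) w ≤ 2 * r * C * Lw / Real.log X := by
    intro t
    have h2 := hVpos t w
    have h4 := hVy t
    rw [le_div_iff₀ hlX0] at h4
    rw [le_div_iff₀ hlX0]
    calc Vq (H t) y / Vq (H t) w * Real.log X = Vq (H t) y * Real.log X * (1 / Vq (H t) w) := by ring
      _ ≤ (2 * r * C) * Lw := mul_le_mul h4 (hVw t) (by positivity) (by positivity)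
  have hmean : ∀ n t, |xF (Fm H) ρ w y (wn H ρ w y x n) (wn H ρ w y z n) n t - (z t - x t)| ≤
      2 * r * C * Lw / Real.log X := by
    intro n t
    rw [xF_Fm H ρ same c0 m Kc C hH w y hwy]
    have hg := gm_pos H ρ same c0 m Kc C hH t w n
    have hg2 := gm_ge H ρ same c0 m Kc C hH t w n
    have hV := hVpos t y
    have hVw' := hVpos t w
    obtain ⟨q, hq⟩ : ∃ q, q = gm ρ t w n / Vq (H t) y := ⟨_, rfl⟩
    have hq0 : 0 < q := by rw [hq]; positivity
    have e1 : ∀ x' : ℝ, x' * gm ρ t w n / Vq (H t) y = x' * q := by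
      intro x'
      rw [hq]
      ring
    have f1 : ((wn H ρ w y z n t : ℕ) : ℝ) ≤ z t * q ∧ z t * q < ((wn H ρ w y z n t : ℕ) : ℝ) + 1 := by
      unfold wn
      rw [e1]
      exact ⟨Nat.floor_le (mul_nonneg (hz0 t) hq0.le), Nat.lt_floor_add_one _⟩
    have f2 : ((wn H ρ w y x n t : ℕ) : ℝ) ≤ x t * q ∧ x t * q < ((wn H ρ w y x n t : ℕ) : ℝ) + 1 := by
      unfold wn
      rw [e1]
      exact ⟨Nat.floor_le (mul_nonneg (hx t) hq0.le), Nat.lt_floor_add_one _⟩
    have e2 : (((wn H ρ w y z n t : ℕ) : ℝ) - ((wn H ρ w y x n t : ℕ) : ℝ)) * Vq (H t) y / gm ρ t w n -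
        (z t - x t) = ((((wn H ρ w y z n t : ℕ) : ℝ) - ((wn H ρ w y x n t : ℕ) : ℝ)) - (z t - x t) * q) / q := by
      rw [hq]
      field_simp
    rw [e2, abs_div, abs_of_pos hq0, div_le_iff₀ hq0]
    have h3 : |(((wn H ρ w y z n t : ℕ) : ℝ) - ((wn H ρ w y x n t : ℕ) : ℝ)) - (z t - x t) * q| ≤ 1 := by
      rw [abs_le]
      constructor <;> nlinarith [f1.1, f1.2, f2.1, f2.2]
    refine h3.trans ?_
    have h4 : Vq (H t) y / gm ρ t w n ≤ 2 * r * C * Lw / Real.log X := by
      refine le_trans ?_ (hWs t)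
      exact div_le_div_of_nonneg_left hV.le hVw' hg2
    have h5 : Vq (H t) y / gm ρ t w n * q = 1 := by
      rw [hq]
      field_simp
    calc (1 : ℝ) = Vq (H t) y / gm ρ t w n * q := h5.symm
      _ ≤ _ := mul_le_mul_of_nonneg_right h4 hq0.le
  have hsm : 2 * r * C * Lw / Real.log X ≤ 1 / (4 * sτ / ε + 1) := by
    rw [div_le_div_iff₀ hlX0 (by positivity), one_mul, ← hM1]
    exact hlX2
  have hsm1 : 2 * r * C * Lw / Real.log X ≤ 1 := by
    refine hsm.trans ?_
    rw [div_le_one (by positivity)]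
    have : 0 ≤ 4 * sτ / ε := by positivity
    linarith
  have hsm2 : 2 * (sτ * (2 * r * C * Lw / Real.log X)) ≤ ε / 2 := by
    have h1 : 2 * (sτ * (2 * r * C * Lw / Real.log X)) ≤ 2 * (sτ * (1 / (4 * sτ / ε + 1))) :=
      mul_le_mul_of_nonneg_left (mul_le_mul_of_nonneg_left hsm hsτ0) (by norm_num)
    refine h1.trans ?_
    rw [mul_one_div, mul_div_assoc', div_le_iff₀ (by positivity)]
    have h2 : ε / 2 * (4 * sτ / ε + 1) = 2 * sτ + ε / 2 := by
      field_simp
      ring
    rw [h2]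
    linarith
  have hx0 : ∀ n t, 0 ≤ xF (Fm H) ρ w y (wn H ρ w y x n) (wn H ρ w y z n) n t := by
    intro n t
    rw [xF_Fm H ρ same c0 m Kc C hH w y hwy]
    have hg := gm_pos H ρ same c0 m Kc C hH t w n
    have hV := hVpos t y
    have h1 : wn H ρ w y x n t ≤ wn H ρ w y z n t := hwnm n (x t) (z t) t t (hxz t) rfl
    have h2 : ((wn H ρ w y x n t : ℕ) : ℝ) ≤ wn H ρ w y z n t := by exact_mod_cast h1
    apply div_nonneg (mul_nonneg (by linarith) hV.le) hg.le
  have hempty : (OmY (Pm H) y Z Y).filter (fun n => ¬ ∀ t, xF (Fm H) ρ w y (wn H ρ w y x n) (wn H ρ w y z n) n t ≤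
      Λ + 1) = ∅ := by
    rw [Finset.filter_eq_empty_iff]
    intro n _ hn
    apply hn
    intro t
    have h1 := (abs_le.1 (hmean n t)).2
    have h2 := hz t
    have h3 := hx t
    linarith
  rw [hempty, card_empty, Nat.cast_zero, add_zero] at h0
  obtain ⟨Ω, hΩ⟩ : ∃ Ω, Ω = OmY (Pm H) y Z Y := ⟨_, rfl⟩
  rw [← hΩ] at h0 ⊢
  have h1 : |∑ n ∈ Ω, PoJ (xF (Fm H) ρ w y (wn H ρ w y x n) (wn H ρ w y z n) n) S -
      Ω.card * PoJ (fun t => z t - x t) S| ≤ ε / 2 * Ω.card := by
    have e1 : (Ω.card : ℝ) * PoJ (fun t => z t - x t) S = ∑ _n ∈ Ω, PoJ (fun t => z t - x t) S := by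
      rw [Finset.sum_const, nsmul_eq_mul]
    have e2 : ε / 2 * (Ω.card : ℝ) = ∑ _n ∈ Ω, ε / 2 := by
      rw [Finset.sum_const, nsmul_eq_mul, mul_comm]
    rw [e1, e2, ← Finset.sum_sub_distrib]
    refine (Finset.abs_sum_le_sum_abs _ _).trans (Finset.sum_le_sum fun n _ => ?_)
    refine (PoJ_diff _ _ (hx0 n) (fun t => by linarith [hxz t]) S).trans ?_
    refine le_trans ?_ hsm2
    apply mul_le_mul_of_nonneg_left _ (by norm_num)
    refine (Finset.sum_le_sum fun t _ => hmean n t).trans ?_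
    rw [Finset.sum_const, Finset.card_univ, nsmul_eq_mul, ← hsτ]
  have h2 := abs_le.1 h0
  have h3 := abs_le.1 h1
  rw [abs_le]
  constructor <;> linarith [h2.1, h2.2, h3.1, h3.2]

end Pool.Agent.Q236.FL
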