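import Pool.Agent.Q236.FL.ModFull

set_option autoImplicit false

/-!
# Random moduli, fixed residues: linear forms
-/

namespace Pool.Agent.Q236.FL

open Finset Filter Pool.Agent.H373R2.T7 Pool.Agent.W123.RP Pool.Agent.W123.RU Pool.Agent.TH464.PO
open Pool.Agent.TH464.PW Pool.Agent.Q236.CP Pool.Agent.Q236.ML Pool.Agent.Q236.UL

variable {τ : Type*} [Fintype τ] [DecidableEq τ]

/-- the conditions `p ∣ a + z` -/
def Hl (a : τ → ℤ) (t : τ) (p z : ℕ) : Prop := (p : ℤ) ∣ a t + (z : ℤ)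

/-- a bound for the residues -/
def ma (a : τ → ℤ) : ℕ := ∑ t, (a t).natAbs

omit [DecidableEq τ] in
lemma le_ma (a : τ → ℤ) (t : τ) : (a t).natAbs ≤ ma a := by
  unfold ma
  exact Finset.single_le_sum (f := fun t => (a t).natAbs) (fun _ _ => Nat.zero_le _) (mem_univ t)

lemma one_class (p : ℕ) (hp : p.Prime) (a : ℤ) [DecidablePred (fun z : ℕ => (p : ℤ) ∣ a + (z : ℤ))] :
    ((range p).filter (fun z : ℕ => (p : ℤ) ∣ a + (z : ℤ))).card = 1 := by
  rw [Finset.card_eq_one]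
  have hp0 : (0 : ℤ) < p := by exact_mod_cast hp.pos
  have h1 := Int.emod_nonneg (-a) hp0.ne'
  have h2 := Int.emod_lt_of_pos (-a) hp0
  refine ⟨((-a) % (p : ℤ)).toNat, ?_⟩
  have h3 : ((((-a) % (p : ℤ)).toNat : ℕ) : ℤ) = (-a) % (p : ℤ) := Int.toNat_of_nonneg h1
  ext z
  rw [mem_filter, mem_range, mem_singleton]
  constructor
  · rintro ⟨h4, h5⟩
    have h6 : (p : ℤ) ∣ (z : ℤ) - (-a) % (p : ℤ) := by
      have h7 : (p : ℤ) ∣ (-a) - (-a) % (p : ℤ) := Int.dvd_self_sub_emod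
      have h8 := dvd_add h5 h7
      have e : a + (z : ℤ) + (-a - -a % (p : ℤ)) = (z : ℤ) - (-a) % (p : ℤ) := by ring
      rwa [e] at h8
    have h7 : (z : ℤ) - (-a) % (p : ℤ) = 0 := by
      apply Int.eq_zero_of_abs_lt_dvd h6
      rw [abs_lt]
      have : (z : ℤ) < p := by exact_mod_cast h4
      have : (0 : ℤ) ≤ z := Int.natCast_nonneg z
      constructor <;> omega
    omega
  · intro h4
    constructor
    · omega
    · rw [h4, h3]
      have h7 : (p : ℤ) ∣ (-a) - (-a) % (p : ℤ) := Int.dvd_self_sub_emod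
      have e : a + (-a) % (p : ℤ) = -((-a) - (-a) % (p : ℤ)) := by ring
      rw [e]
      exact (dvd_neg).2 h7

omit [Fintype τ] [DecidableEq τ] in
lemma Hl_cnt (a : τ → ℤ) (t : τ) (p : ℕ) (hp : p.Prime) : nuB (Hl a t) p = 1 := by
  classical
  unfold nuB Hl
  have h1 := one_class p hp (a t)
  refine Eq.trans ?_ h1
  congr

omit [Fintype τ] [DecidableEq τ] in
lemma Hl_V (a : τ → ℤ) (t : τ) (y : ℕ) : Vq (Hl a t) y = Vz y := by
  unfold Vq Vz
  apply Finset.prod_congr rfl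
  intro p hp
  rw [Hl_cnt a t p (mem_pz.1 hp).2, Nat.cast_one]

omit [DecidableEq τ] in
theorem Hl_HM (a : τ → ℤ) (ha : ∀ t, a t ≠ 0) : ∃ C : ℝ,
    HM (Hl a) (fun _ _ => 1) (fun s t => a s = a t) 1 (ma a) (ma a + 1) C := by
  obtain ⟨c, C, _, hC, hV⟩ := Vz_bounds
  refine ⟨C, ?_, ?_, ?_, ?_, ?_, ?_, hC, ?_⟩
  · intro t p z
    unfold Hl
    have h1 : (p : ℤ) ∣ (z : ℤ) - ((z % p : ℕ) : ℤ) := by
      push_cast
      exact Int.dvd_self_sub_emod
    have e : a t + (z : ℤ) = (a t + ((z % p : ℕ) : ℤ)) + ((z : ℤ) - ((z % p : ℕ) : ℤ)) := by ring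
    rw [e, dvd_add_left h1]
  · intro t p hp
    exact Hl_cnt a t p hp
  · intro _ _ _
    exact le_rfl
  · intro _ p hp
    exact hp.one_lt
  · intro t p hp h
    unfold Hl at h
    rw [Nat.cast_zero, add_zero] at h
    have h1 := Int.natCast_dvd.1 h
    exact (Nat.le_of_dvd (Int.natAbs_pos.2 (ha t)) h1).trans (le_ma a t)
  · intro s t k b hk hb hs ht hns
    have hcop : ∀ t b, 1 ≤ b → Lm (Hl a) t b → Nat.Coprime b (a t).natAbs := by
      intro t b _ h
      apply Nat.coprime_of_dvd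
      intro p hp h1 h2
      apply h p hp h1
      unfold Hl
      rw [Nat.cast_zero, add_zero]
      exact Int.natCast_dvd.2 h2
    have hne : (b : ℤ) * a s - k * a t ≠ 0 := by
      intro h0
      have h1 : b * (a s).natAbs = k * (a t).natAbs := by
        have h2 : (b : ℤ) * a s = k * a t := by linarith
        have h3 := congrArg Int.natAbs h2
        rw [Int.natAbs_mul, Int.natAbs_mul, Int.natAbs_natCast, Int.natAbs_natCast] at h3
        exact h3
      have h2 : k ∣ b := (hcop s k hk hs).dvd_of_dvd_mul_right ⟨(a t).natAbs, h1⟩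
      have h3 : b ∣ k := (hcop t b hb ht).dvd_of_dvd_mul_right ⟨(a s).natAbs, h1.symm⟩
      have h4 : k = b := Nat.dvd_antisymm h2 h3
      apply hns
      refine ⟨h4, ?_⟩
      rw [h4] at h0
      have hb0 : (b : ℤ) ≠ 0 := by exact_mod_cast (by omega : b ≠ 0)
      have h5 : (b : ℤ) * (a s - a t) = 0 := by linarith
      rcases mul_eq_zero.1 h5 with h6 | h6
      · exact absurd h6 hb0
      · linarith
    refine ⟨((b : ℤ) * a s - k * a t).natAbs, Int.natAbs_pos.2 hne, ?_, ?_⟩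
    · have h1 : ((b : ℤ) * a s - k * a t).natAbs ≤ b * (a s).natAbs + k * (a t).natAbs := by
        refine (Int.natAbs_sub_le _ _).trans ?_
        rw [Int.natAbs_mul, Int.natAbs_mul, Int.natAbs_natCast, Int.natAbs_natCast]
      have h2 := Nat.mul_le_mul_left b (le_ma a s)
      have h3 := Nat.mul_le_mul_left k (le_ma a t)
      calc _ ≤ b * ma a + k * ma a := h1.trans (Nat.add_le_add h2 h3)
        _ = ma a * (k + b) := by ring
        _ ≤ (ma a + 1) * (k + b) ^ (ma a + 1) := by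
            apply Nat.mul_le_mul (Nat.le_succ _)
            exact Nat.le_self_pow (by omega) _
    · rintro p _ ⟨n, _, h1, h2⟩
      unfold Hl at h1 h2
      apply Int.natCast_dvd.1
      have h3 := dvd_sub (Dvd.dvd.mul_left h1 (b : ℤ)) (Dvd.dvd.mul_left h2 (k : ℤ))
      have e : (b : ℤ) * (a s + ((n * k : ℕ) : ℤ)) - k * (a t + ((n * b : ℕ) : ℤ)) = (b : ℤ) * a s - k * a t := by
        push_cast
        ring
      rwa [e] at h3
  · intro t y hy
    rw [Hl_V]
    exact (hV y hy).2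

/-- rough numbers have few prime factors -/
lemma few_fac (X r K m : ℕ) (hr : 1 ≤ r) (hX : 2 ^ r ≤ X) (hm : 0 < m) (hmX : m ≤ X ^ K)
    (h : ∀ p : ℕ, p.Prime → p ∣ m → (X : ℝ) ^ (1 / (r : ℝ)) < (p : ℝ)) :
    m.primeFactorsList.length ≤ K * r := by
  have hr0 : (r : ℝ) ≠ 0 := by exact_mod_cast (by omega : r ≠ 0)
  have hX1 : (1 : ℝ) ≤ X := by
    have : 1 ≤ 2 ^ r := Nat.one_le_two_pow
    exact_mod_cast this.trans hX
  have hz1 : 1 ≤ (X : ℝ) ^ (1 / (r : ℝ)) := Real.one_le_rpow hX1 (by positivity)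
  apply length_le m (K * r) (by omega) _ h _ hz1
  have e : ((X : ℝ) ^ (1 / (r : ℝ))) ^ r = X := by
    rw [← Real.rpow_natCast, ← Real.rpow_mul (by linarith), one_div, inv_mul_cancel₀ hr0, Real.rpow_one]
  have hmX' : (m : ℝ) ≤ (X : ℝ) ^ K := by exact_mod_cast hmX
  rw [pow_succ, mul_comm K r, pow_mul, e]
  have h0 : (0 : ℝ) ≤ (X : ℝ) ^ K := by positivity
  nlinarith

/-- the local factors are those of the totient function -/
lemma gf_tot (τ : Type*) (t : τ) (n : ℕ) (hn : n ≠ 0) : gf (fun _ _ => 1) t n = (n.totient : ℝ) / n := by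
  unfold gf
  have h2 := congrArg (fun x : ℚ => (x : ℝ)) (Nat.totient_eq_mul_prod_factors n)
  push_cast at h2
  have hn0 : (n : ℝ) ≠ 0 := by exact_mod_cast hn
  rw [h2, mul_div_assoc, mul_comm, div_mul_cancel₀ _ hn0]
  apply Finset.prod_congr rfl
  intro p _
  simp

end Pool.Agent.Q236.FL
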