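import Pool.Agent.Q236.FL.Two

set_option autoImplicit false

/-!
# Families of conditions in two variables: the pair sums
-/

namespace Pool.Agent.Q236.FL

open Finset Filter Pool.Agent.H373R2.T7 Pool.Agent.W123.RP Pool.Agent.W123.RU Pool.Agent.TH464.PO
open Pool.Agent.Q236.CP Pool.Agent.Q236.ML Pool.Agent.Q236.UL

variable {τ : Type*} [Fintype τ] [DecidableEq τ]

lemma close_aux (V W G : ℝ) (h1 : V ≤ W * G) (h2 : W ≤ V * G) (h3 : 1 ≤ G) (h4 : 0 ≤ V) (h5 : 0 ≤ W) :
    |V - W| ≤ W * (G - 1) := by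
  rw [abs_le]
  constructor
  · rcases le_total 2 G with h | h
    · nlinarith
    · have h6 : W * (2 - G) ≤ V * G * (2 - G) := mul_le_mul_of_nonneg_right h2 (by linarith)
      have h7 : V * G * (2 - G) ≤ V := by
        have : G * (2 - G) ≤ 1 := by nlinarith [sq_nonneg (G - 1)]
        nlinarith
      linarith
  · linarith

open Classical in
/-- the hypotheses on the large primes -/
structure PF (P0 : ℕ → ℕ → Prop) (F : τ → ℕ → ℕ → ℕ → Prop) (Ec : τ → ℕ → ℕ → Prop)
    (ex : Option (τ × ℕ) × Option (τ × ℕ) → Prop) (full : τ → ℕ → ℕ) (w y : ℕ) (B : τ → Finset ℕ) (T : τ → ℕ) (T0 : ℕ)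
    (Lw B0 : ℝ) : Prop where
  vT : ∀ t, B t ⊆ Icc 1 (T t)
  T0T : ∀ t, T0 ≤ T t
  TW : ∀ t, T t * Wt (full t) w y ≤ Lw
  few : ∀ i ∈ insert none (Al (Bx B)), ∀ t, ∀ b ∈ B t, i ≠ some (t, b) → ¬ ex (i, some (t, b)) →
    ((((pz y).filter (fun p : ℕ => T t < p ∧ CoT P0 F Ec i t p b)).card : ℕ) : ℝ) ≤ B0 * T t

section

open Classical

variable (K c De w : ℕ) (ηa : ℝ) (hηa : 0 ≤ ηa) (hηa1 : ηa ≤ 1) (Ta : ℕ) (hTa : 1 ≤ Ta)
    (B0 : ℝ)
    (havg : ∀ T : ℕ, Ta ≤ T → ∀ Co : ℕ → ℕ → Prop, Coll Co w (De + c ^ 2) → ∀ y : ℕ,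
      ∀ E : Finset ℕ, E ⊆ Icc 1 T →
      (∀ h ∈ E, ((((pz y).filter (fun p : ℕ => T < p ∧ Co p h)).card : ℕ) : ℝ) ≤ B0 * T) →
      ∑ h ∈ E, (Gc (fun p => Co p h) ((2 * c + 1) * (K + 1)) w y - 1) ≤ 39 * ηa * T)
    (P0 : ℕ → ℕ → Prop) (F : τ → ℕ → ℕ → ℕ → Prop) (hP0 : PerB P0 c) (hF : Two F c)
    (Ec : τ → ℕ → ℕ → Prop) (hEc : ∀ t, Coll (Ec t) w De) (full : τ → ℕ → ℕ)
    (ex : Option (τ × ℕ) × Option (τ × ℕ) → Prop)
    (y : ℕ) (B : τ → Finset ℕ) (T : τ → ℕ) (hfc : ∀ t, ∀ p ∈ pz y, w < p → full t p ≤ c)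
    (hful : ∀ t, ∀ b ∈ B t, ∀ p ∈ pz y, w < p → ¬ Ec t p b → nuB (fun p n => F t p n b) p = full t p)
    (hwc : 2 * c ≤ w) (Lw : ℝ)
    (hexo : ∀ i, ¬ ex (none, i))
    (hPF : PF P0 F Ec ex full w y B T Ta Lw B0)

omit [Fintype τ] [DecidableEq τ] in
include hF hfc hful hwc in
lemma Vt_up (t : τ) (b : ℕ) (hb : b ∈ B t) :
    Vt (fun p n => F t p n b) w y ≤ Wt (full t) w y * Gc (fun p => Ec t p b) (2 * c) w y :=
  prod_cmp (fun p => nuB (fun p n => F t p n b) p) (full t) c w y (fun p => Ec t p b)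
    (fun p hp _ => (hF.pern t b).few p (mem_pz.1 hp).2) (hfc t) (hful t b hb) hwc

omit [Fintype τ] [DecidableEq τ] in
include hF hfc hful hwc in
lemma Vt_lo (t : τ) (b : ℕ) (hb : b ∈ B t) :
    Wt (full t) w y ≤ Vt (fun p n => F t p n b) w y * Gc (fun p => Ec t p b) (2 * c) w y :=
  prod_cmp (full t) (fun p => nuB (fun p n => F t p n b) p) c w y (fun p => Ec t p b) (hfc t)
    (fun p hp _ => (hF.pern t b).few p (mem_pz.1 hp).2) (fun p hp hwp he => (hful t b hb p hp hwp he).symm) hwc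

omit [Fintype τ] [DecidableEq τ] in
include hF hfc hful hwc in
lemma Vt_close (t : τ) (b : ℕ) (hb : b ∈ B t) :
    |Vt (fun p n => F t p n b) w y - Wt (full t) w y| ≤
      Wt (full t) w y * (Gc (fun p => Ec t p b) (2 * c) w y - 1) := by
  have h1 := Vt_up c w F hF Ec full y B hfc hful hwc t b hb
  have h2 := Vt_lo c w F hF Ec full y B hfc hful hwc t b hb
  have h3 := Gc_ge (fun p => Ec t p b) (2 * c) w y
  have h4 := Vt_nonneg (fun p n => F t p n b) w y
  have h5 := Wt_nonneg (full t) c w y (hfc t) hwc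
  exact close_aux _ _ _ h1 h2 h3 h4 h5

open Classical in
include havg hP0 hF hEc hPF in
/-- the average over the second variable -/
lemma avg_i (i : Option (τ × ℕ)) (hi : i ∈ insert none (Al (Bx B))) (t : τ) :
    ∑ b ∈ (B t).filter (fun b => i ≠ some (t, b) ∧ ¬ ex (i, some (t, b))),
      (Gc (fun p => CoT P0 F Ec i t p b) ((2 * c + 1) * (K + 1)) w y - 1) ≤ 39 * ηa * T t := by
  apply havg (T t) (hPF.T0T t) (CoT P0 F Ec i t) (coll_CoT P0 F Ec c De w hP0 hF hEc i t) y
  · intro b hb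
    rw [mem_filter] at hb
    exact hPF.vT t hb.1
  · intro b hb
    rw [mem_filter] at hb
    exact hPF.few i hi t b hb.1 hb.2.1 hb.2.2

include havg hP0 hF hEc hPF hexo in
/-- the average of the exceptional factors -/
lemma avg_v (t : τ) : ∑ b ∈ B t, (Gc (fun p => Ec t p b) (2 * c) w y - 1) ≤ 39 * ηa * T t := by
  classical
  refine le_trans ?_ (avg_i K c De w ηa Ta B0 havg P0 F hP0 hF Ec hEc full ex y B T Lw hPF
    none (mem_insert_self _ _) t)
  rw [Finset.filter_true_of_mem (fun b _ => ⟨by simp, hexo _⟩)]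
  apply Finset.sum_le_sum
  intro b _
  have := Gc_mono (fun p => Ec t p b) (fun p => CoT P0 F Ec none t p b) (2 * c) ((2 * c + 1) * (K + 1)) w y
    (by nlinarith) (fun p hp => Or.inl hp)
  linarith

open Classical in
include hηa hηa1 hTa havg hP0 hF hEc hPF hexo hfc hful hwc in
/-- **the pair sum** -/
lemma pair_sum : ∑ x ∈ (insert none (Al (Bx B))).offDiag.filter (fun x => ¬ ex x),
      Uw (Eb P0 F) none w y x.1 * Uw (Eb P0 F) none w y x.2 * (Fc (Eb P0 F) K w y x - 1) ≤
      2 * (Fintype.card τ * (39 * ηa * Lw)) +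
        (Fintype.card τ : ℝ) ^ 2 * (40 * Lw * (39 * ηa * Lw)) := by
  obtain ⟨f, hf⟩ : ∃ f : Option (τ × ℕ) × Option (τ × ℕ) → ℝ, f = fun x =>
    Uw (Eb P0 F) none w y x.1 * Uw (Eb P0 F) none w y x.2 * (Fc (Eb P0 F) K w y x - 1) := ⟨_, rfl⟩
  have hf0 : ∀ x, 0 ≤ f x := by
    intro x
    rw [hf]
    have h1 := Fc_ge (Eb P0 F) K w y x
    exact mul_nonneg (mul_nonneg (Uw_nonneg _ _ w y _) (Uw_nonneg _ _ w y _)) (by linarith)
  have hU : ∀ t b, Uw (Eb P0 F) none w y (some (t, b)) = Vt (fun p n => F t p n b) w y := by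
    intro t b
    rw [Uw_ne _ _ _ _ _ (by simp)]
    rfl
  have hW0 : ∀ t, 0 ≤ Wt (full t) w y := fun t => Wt_nonneg (full t) c w y (hfc t) hwc
  have hT1 : ∀ t, (1 : ℝ) ≤ T t := fun t => by exact_mod_cast hTa.trans (hPF.T0T t)
  have hmul : ∀ (i : Option (τ × ℕ)) (t : τ) (b : ℕ), Gc (fun p => Ec t p b) (2 * c) w y *
      (Fc (Eb P0 F) K w y (i, some (t, b)) - 1) ≤
      Gc (fun p => CoT P0 F Ec i t p b) ((2 * c + 1) * (K + 1)) w y - 1 := by
    intro i t b
    have h1 := Gc_mul (fun p => Ec t p b) (fun p => Col (Eb P0 F) i (some (t, b)) p) (2 * c) K w y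
    have h2 : Fc (Eb P0 F) K w y (i, some (t, b)) = Gc (fun p => Col (Eb P0 F) i (some (t, b)) p) K w y := rfl
    have h3 := Gc_ge (fun p => Ec t p b) (2 * c) w y
    rw [h2]
    have h4 : Gc (fun p => Ec t p b ∨ Col (Eb P0 F) i (some (t, b)) p) ((2 * c + 1) * (K + 1)) w y =
      Gc (fun p => CoT P0 F Ec i t p b) ((2 * c + 1) * (K + 1)) w y := rfl
    rw [h4] at h1
    linarith
  have hmain := sum_off (Al (Bx B)) none (none_notMemB B) ex f hf0
  have e0 : ∑ x ∈ (insert none (Al (Bx B))).offDiag.filter (fun x => ¬ ex x),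
      Uw (Eb P0 F) none w y x.1 * Uw (Eb P0 F) none w y x.2 * (Fc (Eb P0 F) K w y x - 1) =
      ∑ x ∈ (insert none (Al (Bx B))).offDiag.filter (fun x => ¬ ex x), f x := by rw [hf]
  rw [e0]
  refine hmain.trans ?_
  -- the inner sums
  have hinner : ∀ i ∈ insert none (Al (Bx B)), ∀ t : τ,
      ∑ b ∈ B t, (if i ≠ some (t, b) ∧ ¬ ex (i, some (t, b)) then
        Vt (fun p n => F t p n b) w y * (Fc (Eb P0 F) K w y (i, some (t, b)) - 1) else 0) ≤ 39 * ηa * Lw := by
    intro i hi t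
    rw [← Finset.sum_filter]
    have h1 : ∑ b ∈ (B t).filter (fun b => i ≠ some (t, b) ∧ ¬ ex (i, some (t, b))),
        Vt (fun p n => F t p n b) w y * (Fc (Eb P0 F) K w y (i, some (t, b)) - 1) ≤
        ∑ b ∈ (B t).filter (fun b => i ≠ some (t, b) ∧ ¬ ex (i, some (t, b))),
          Wt (full t) w y * (Gc (fun p => CoT P0 F Ec i t p b) ((2 * c + 1) * (K + 1)) w y - 1) := by
      apply Finset.sum_le_sum
      intro b hb
      rw [mem_filter] at hb
      have h2 := Vt_up c w F hF Ec full y B hfc hful hwc t b hb.1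
      have h3 := Fc_ge (Eb P0 F) K w y (i, some (t, b))
      calc Vt (fun p n => F t p n b) w y * (Fc (Eb P0 F) K w y (i, some (t, b)) - 1) ≤
          (Wt (full t) w y * Gc (fun p => Ec t p b) (2 * c) w y) * (Fc (Eb P0 F) K w y (i, some (t, b)) - 1) :=
            mul_le_mul_of_nonneg_right h2 (by linarith)
        _ = Wt (full t) w y * (Gc (fun p => Ec t p b) (2 * c) w y * (Fc (Eb P0 F) K w y (i, some (t, b)) - 1)) := by
            ring
        _ ≤ _ := mul_le_mul_of_nonneg_left (hmul i t b) (hW0 t)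
    refine h1.trans ?_
    rw [← Finset.mul_sum]
    have h4 := avg_i K c De w ηa Ta B0 havg P0 F hP0 hF Ec hEc full ex y B T Lw hPF i hi t
    calc _ ≤ Wt (full t) w y * (39 * ηa * T t) := mul_le_mul_of_nonneg_left h4 (hW0 t)
      _ = 39 * ηa * (T t * Wt (full t) w y) := by ring
      _ ≤ _ := mul_le_mul_of_nonneg_left (hPF.TW t) (by positivity)
  have hLw : 0 ≤ Lw ∨ IsEmpty τ := by
    by_cases h : Nonempty τ
    · obtain ⟨t⟩ := h
      exact Or.inl (le_trans (mul_nonneg (Nat.cast_nonneg _) (hW0 t)) (hPF.TW t))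
    · exact Or.inr (not_nonempty_iff.1 h)
  -- the base
  have hbase : ∑ i ∈ Al (Bx B), f (none, i) ≤ Fintype.card τ * (39 * ηa * Lw) := by
    rw [sum_AlB]
    have h1 : ∀ t : τ, ∑ b ∈ B t, f (none, some (t, b)) ≤ 39 * ηa * Lw := by
      intro t
      refine le_trans (le_of_eq ?_) (hinner none (mem_insert_self _ _) t)
      apply Finset.sum_congr rfl
      intro b _
      rw [if_pos ⟨by simp, hexo _⟩, hf]
      simp only
      rw [Uw_o, hU, one_mul]
    calc ∑ t, ∑ b ∈ B t, f (none, some (t, b)) ≤ ∑ _t : τ, 39 * ηa * Lw :=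
          Finset.sum_le_sum fun t _ => h1 t
      _ = _ := by rw [Finset.sum_const, Finset.card_univ, nsmul_eq_mul]
  have hbase' : ∑ i ∈ Al (Bx B), f (i, none) ≤ Fintype.card τ * (39 * ηa * Lw) := by
    refine le_trans (le_of_eq ?_) hbase
    apply Finset.sum_congr rfl
    intro i _
    rw [hf]
    simp only
    rw [Fc_symm]
    ring
  -- the pairs
  have hpairs : ∑ i ∈ Al (Bx B), ∑ j ∈ Al (Bx B), (if i ≠ j ∧ ¬ ex (i, j) then f (i, j) else 0) ≤
      (Fintype.card τ : ℝ) ^ 2 * (40 * Lw * (39 * ηa * Lw)) := by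
    rcases hLw with hLw | hemp
    swap
    · have : Al (Bx B) = ∅ := by
        unfold Al
        rw [Finset.univ_eq_empty, Finset.biUnion_empty]
      rw [this, Finset.sum_empty, Fintype.card_eq_zero]
      simp
    have h1 : ∀ s : τ, ∀ b ∈ B s, ∑ j ∈ Al (Bx B),
        (if some (s, b) ≠ j ∧ ¬ ex (some (s, b), j) then f (some (s, b), j) else 0) ≤
        Vt (fun p n => F s p n b) w y * (Fintype.card τ * (39 * ηa * Lw)) := by
      intro s b hb
      have hmem : some (s, b) ∈ insert none (Al (Bx B)) := by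
        apply mem_insert_of_mem
        unfold Al
        rw [mem_biUnion]
        refine ⟨s, mem_univ s, ?_⟩
        unfold Bx
        exact mem_image_of_mem _ hb
      rw [sum_AlB]
      calc ∑ t : τ, ∑ b' ∈ B t, (if some (s, b) ≠ some (t, b') ∧ ¬ ex (some (s, b), some (t, b')) then
            f (some (s, b), some (t, b')) else 0) =
          ∑ t : τ, Vt (fun p n => F s p n b) w y * ∑ b' ∈ B t,
            (if some (s, b) ≠ some (t, b') ∧ ¬ ex (some (s, b), some (t, b')) then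
              Vt (fun p n => F t p n b') w y * (Fc (Eb P0 F) K w y (some (s, b), some (t, b')) - 1) else 0) := by
            apply Finset.sum_congr rfl
            intro t _
            rw [Finset.mul_sum]
            apply Finset.sum_congr rfl
            intro b' _
            split_ifs
            · rw [hf]
              simp only
              rw [hU, hU]
              ring
            · rw [mul_zero]
        _ ≤ ∑ _t : τ, Vt (fun p n => F s p n b) w y * (39 * ηa * Lw) := by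
            apply Finset.sum_le_sum
            intro t _
            exact mul_le_mul_of_nonneg_left (hinner _ hmem t) (Vt_nonneg _ w y)
        _ = _ := by
            rw [Finset.sum_const, Finset.card_univ, nsmul_eq_mul]
            ring
    have h2 : ∀ s : τ, ∑ b ∈ B s, Vt (fun p n => F s p n b) w y ≤ 40 * Lw := by
      intro s
      have h3 : ∑ b ∈ B s, Vt (fun p n => F s p n b) w y ≤
          ∑ b ∈ B s, Wt (full s) w y * ((Gc (fun p => Ec s p b) (2 * c) w y - 1) + 1) := by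
        apply Finset.sum_le_sum
        intro b hb
        have := Vt_up c w F hF Ec full y B hfc hful hwc s b hb
        linarith
      refine h3.trans ?_
      rw [← Finset.mul_sum, Finset.sum_add_distrib, Finset.sum_const, nsmul_eq_mul, mul_one]
      have h4 := avg_v K c De w ηa Ta B0 havg P0 F hP0 hF Ec hEc full ex y B T Lw hexo hPF s
      have h5 : (((B s).card : ℕ) : ℝ) ≤ T s := by
        have := card_le_card (hPF.vT s)
        rw [Nat.card_Icc] at this
        exact_mod_cast (by omega : (B s).card ≤ T s)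
      have h6 : 39 * ηa * (T s : ℝ) ≤ 39 * T s := by
        have : (0 : ℝ) ≤ T s := Nat.cast_nonneg _
        nlinarith
      calc Wt (full s) w y * (∑ b ∈ B s, (Gc (fun p => Ec s p b) (2 * c) w y - 1) +
            (((B s).card : ℕ) : ℝ)) ≤ Wt (full s) w y * (40 * T s) :=
            mul_le_mul_of_nonneg_left (by linarith) (hW0 s)
        _ = 40 * (T s * Wt (full s) w y) := by ring
        _ ≤ _ := by
            have := hPF.TW s
            linarith
    rw [sum_AlB]
    calc ∑ s : τ, ∑ b ∈ B s, ∑ j ∈ Al (Bx B),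
          (if some (s, b) ≠ j ∧ ¬ ex (some (s, b), j) then f (some (s, b), j) else 0) ≤
        ∑ s : τ, ∑ b ∈ B s, Vt (fun p n => F s p n b) w y * (Fintype.card τ * (39 * ηa * Lw)) :=
          Finset.sum_le_sum fun s _ => Finset.sum_le_sum fun b hb => h1 s b hb
      _ ≤ ∑ _s : τ, 40 * Lw * (Fintype.card τ * (39 * ηa * Lw)) := by
          apply Finset.sum_le_sum
          intro s _
          rw [← Finset.sum_mul]
          exact mul_le_mul_of_nonneg_right (h2 s) (by positivity)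
      _ = _ := by
          rw [Finset.sum_const, Finset.card_univ, nsmul_eq_mul]
          ring
  calc _ ≤ Fintype.card τ * (39 * ηa * Lw) + Fintype.card τ * (39 * ηa * Lw) +
        (Fintype.card τ : ℝ) ^ 2 * (40 * Lw * (39 * ηa * Lw)) := add_le_add (add_le_add hbase hbase') hpairs
    _ = _ := by ring

end

end Pool.Agent.Q236.FL
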