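import Pool.Agent.Q236.FL.Gen

set_option autoImplicit false

/-!
# The joint Poisson weights depend continuously on the means
-/

namespace Pool.Agent.Q236.FL

open Finset Filter Pool.Agent.H373R2.T7 Pool.Agent.W123.RP Pool.Agent.W123.RU Pool.Agent.TH464.PO
open Pool.Agent.Q236.CP Pool.Agent.Q236.ML Pool.Agent.Q236.UL

variable {τ : Type*} [Fintype τ] [DecidableEq τ]

/-- the Poisson weight of one number -/
noncomputable def P1 (x : ℝ) (j : ℕ) : ℝ := Real.exp (-x) * x ^ j / j.factorial

lemma Po_P1 (x : ℝ) (A : Finset ℕ) : Po x A = ∑ j ∈ A, P1 x j := rfl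

lemma P1_nonneg (x : ℝ) (hx : 0 ≤ x) (j : ℕ) : 0 ≤ P1 x j := by
  unfold P1
  positivity

/-- the total variation -/
lemma P1_tv (x y : ℝ) (hx : 0 ≤ x) (hy : 0 ≤ y) (B : Finset ℕ) : ∑ j ∈ B, |P1 x j - P1 y j| ≤ 2 * |x - y| := by
  classical
  rw [← Finset.sum_filter_add_sum_filter_not B (fun j => P1 y j ≤ P1 x j)]
  have h1 : ∑ j ∈ B.filter (fun j => P1 y j ≤ P1 x j), |P1 x j - P1 y j| =
      Po x (B.filter (fun j => P1 y j ≤ P1 x j)) - Po y (B.filter (fun j => P1 y j ≤ P1 x j)) := by
    rw [Po_P1, Po_P1, ← Finset.sum_sub_distrib]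
    apply Finset.sum_congr rfl
    intro j hj
    rw [mem_filter] at hj
    exact abs_of_nonneg (by linarith [hj.2])
  have h2 : ∑ j ∈ B.filter (fun j => ¬ P1 y j ≤ P1 x j), |P1 x j - P1 y j| =
      -(Po x (B.filter (fun j => ¬ P1 y j ≤ P1 x j)) - Po y (B.filter (fun j => ¬ P1 y j ≤ P1 x j))) := by
    rw [Po_P1, Po_P1, ← Finset.sum_sub_distrib, ← Finset.sum_neg_distrib]
    apply Finset.sum_congr rfl
    intro j hj
    rw [mem_filter] at hj
    exact abs_of_neg (by linarith [not_le.1 hj.2])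
  rw [h1, h2]
  have h3 := (abs_le.1 (Po_diff x y hx hy (B.filter (fun j => P1 y j ≤ P1 x j)))).2
  have h4 := (abs_le.1 (Po_diff x y hx hy (B.filter (fun j => ¬ P1 y j ≤ P1 x j)))).1
  linarith

/-- one coordinate -/
lemma PoJ_one (x : τ → ℝ) (hx : ∀ t, 0 ≤ x t) (t0 : τ) (v : ℝ) (hv : 0 ≤ v) (A : Finset (τ → ℕ)) :
    |PoJ x A - PoJ (Function.update x t0 v) A| ≤ 2 * |x t0 - v| := by
  obtain ⟨B, hB⟩ : ∃ B : τ → Finset ℕ, B = fun t => A.image (fun j => j t) := ⟨_, rfl⟩
  have hAB : A ⊆ Fintype.piFinset B := by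
    intro j hj
    rw [Fintype.mem_piFinset]
    intro t
    rw [hB]
    exact mem_image_of_mem (fun j => j t) hj
  obtain ⟨h, hh⟩ : ∃ h : τ → ℕ → ℝ, h = fun t k => if t = t0 then |P1 (x t0) k - P1 v k| else P1 (x t) k :=
    ⟨_, rfl⟩
  have hh0 : ∀ t k, 0 ≤ h t k := by
    intro t k
    rw [hh]
    simp only
    split_ifs
    · exact abs_nonneg _
    · exact P1_nonneg _ (hx t) _
  have e1 : ∀ j : τ → ℕ, |∏ t, P1 (x t) (j t) - ∏ t, P1 (Function.update x t0 v t) (j t)| = ∏ t, h t (j t) := by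
    intro j
    rw [← Finset.mul_prod_erase univ _ (mem_univ t0), ← Finset.mul_prod_erase univ
      (fun t => P1 (Function.update x t0 v t) (j t)) (mem_univ t0), ← Finset.mul_prod_erase univ
      (fun t => h t (j t)) (mem_univ t0)]
    have h1 : ∏ t ∈ univ.erase t0, P1 (Function.update x t0 v t) (j t) = ∏ t ∈ univ.erase t0, P1 (x t) (j t) := by
      apply Finset.prod_congr rfl
      intro t ht
      rw [Function.update_of_ne (ne_of_mem_erase ht)]
    have h2 : ∏ t ∈ univ.erase t0, h t (j t) = ∏ t ∈ univ.erase t0, P1 (x t) (j t) := by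
      apply Finset.prod_congr rfl
      intro t ht
      rw [hh]
      simp only
      rw [if_neg (ne_of_mem_erase ht)]
    have h3 : 0 ≤ ∏ t ∈ univ.erase t0, P1 (x t) (j t) := Finset.prod_nonneg fun t _ => P1_nonneg _ (hx t) _
    rw [h1, h2, Function.update_self, ← sub_mul, abs_mul, abs_of_nonneg h3]
    congr 1
    rw [hh]
    simp
  have e2 : PoJ x A - PoJ (Function.update x t0 v) A =
      ∑ j ∈ A, (∏ t, P1 (x t) (j t) - ∏ t, P1 (Function.update x t0 v t) (j t)) := by
    rw [Finset.sum_sub_distrib]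
    rfl
  rw [e2]
  refine (Finset.abs_sum_le_sum_abs _ _).trans ?_
  simp only [e1]
  refine (Finset.sum_le_sum_of_subset_of_nonneg hAB (fun j _ _ => Finset.prod_nonneg fun t _ => hh0 t _)).trans ?_
  rw [← Finset.prod_univ_sum, ← Finset.mul_prod_erase univ _ (mem_univ t0)]
  have h1 : ∑ k ∈ B t0, h t0 k ≤ 2 * |x t0 - v| := by
    refine le_trans (le_of_eq ?_) (P1_tv (x t0) v (hx t0) hv (B t0))
    apply Finset.sum_congr rfl
    intro k _
    rw [hh]
    simp
  have h2 : ∏ t ∈ univ.erase t0, ∑ k ∈ B t, h t k ≤ 1 := by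
    apply Finset.prod_le_one
    · intro t _
      exact Finset.sum_nonneg fun k _ => hh0 t k
    · intro t ht
      refine le_trans (le_of_eq ?_) (Po_le_one (x t) (hx t) (B t))
      rw [Po_P1]
      apply Finset.sum_congr rfl
      intro k _
      rw [hh]
      simp only
      rw [if_neg (ne_of_mem_erase ht)]
  have h3 : 0 ≤ ∏ t ∈ univ.erase t0, ∑ k ∈ B t, h t k :=
    Finset.prod_nonneg fun t _ => Finset.sum_nonneg fun k _ => hh0 t k
  have h4 : 0 ≤ ∑ k ∈ B t0, h t0 k := Finset.sum_nonneg fun k _ => hh0 t0 k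
  have h5 : 0 ≤ 2 * |x t0 - v| := by positivity
  nlinarith

/-- **continuity in the means** -/
theorem PoJ_diff (x y : τ → ℝ) (hx : ∀ t, 0 ≤ x t) (hy : ∀ t, 0 ≤ y t) (A : Finset (τ → ℕ)) :
    |PoJ x A - PoJ y A| ≤ 2 * ∑ t, |x t - y t| := by
  have key : ∀ T : Finset τ, |PoJ x A - PoJ (fun t => if t ∈ T then y t else x t) A| ≤
      2 * ∑ t ∈ T, |x t - y t| := by
    intro T
    induction T using Finset.induction_on with
    | empty => simp
    | insert t0 T ht ih =>
      have h1 := PoJ_one (fun t => if t ∈ T then y t else x t) (fun t => by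
        split_ifs
        · exact hy t
        · exact hx t) t0 (y t0) (hy t0) A
      have e : Function.update (fun t => if t ∈ T then y t else x t) t0 (y t0) =
          fun t => if t ∈ insert t0 T then y t else x t := by
        funext t
        by_cases h : t = t0
        · subst h
          rw [Function.update_self, if_pos (mem_insert_self _ _)]
        · rw [Function.update_of_ne h]
          by_cases h2 : t ∈ T
          · rw [if_pos h2, if_pos (mem_insert_of_mem h2)]
          · rw [if_neg h2, if_neg (by rw [mem_insert]; tauto)]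
      rw [e] at h1
      simp only [if_neg ht] at h1
      rw [Finset.sum_insert ht, mul_add]
      calc _ ≤ |PoJ x A - PoJ (fun t => if t ∈ T then y t else x t) A| +
          |PoJ (fun t => if t ∈ T then y t else x t) A -
            PoJ (fun t => if t ∈ insert t0 T then y t else x t) A| := abs_sub_le _ _ _
        _ ≤ _ := by linarith
  have h := key univ
  simpa using h

end Pool.Agent.Q236.FL
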