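import Pool.Agent.Q236.FL.Glob
import Pool.Agent.Q236.UL.Shift

set_option autoImplicit false

/-!
# Families of conditions in two variables: collisions and products
-/

namespace Pool.Agent.Q236.FL

open Finset Filter Pool.Agent.H373R2.T7 Pool.Agent.W123.RP Pool.Agent.W123.RU Pool.Agent.TH464.PO
open Pool.Agent.Q236.CP Pool.Agent.Q236.ML Pool.Agent.Q236.UL

variable {τ : Type*} [Fintype τ] [DecidableEq τ]

/-- the base, and the conditions of the family -/
def Eb (P0 : ℕ → ℕ → Prop) (F : τ → ℕ → ℕ → ℕ → Prop) : Option (τ × ℕ) → ℕ → ℕ → Prop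
  | none => P0
  | some x => fun p n => F x.1 p n x.2

/-- the indices -/
def Bx (B : τ → Finset ℕ) (t : τ) : Finset (Option (τ × ℕ)) := (B t).image (fun b => some (t, b))

lemma Bx_disj (B : τ → Finset ℕ) (t s : τ) (h : t ≠ s) : Disjoint (Bx B t) (Bx B s) := by
  unfold Bx
  rw [Finset.disjoint_left]
  intro i hi hi'
  rw [mem_image] at hi hi'
  obtain ⟨b, _, rfl⟩ := hi
  obtain ⟨b', _, h2⟩ := hi'
  simp only [Option.some.injEq, Prod.mk.injEq] at h2
  exact h h2.1.symm

lemma none_notMemB (B : τ → Finset ℕ) : none ∉ Al (Bx B) := by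
  unfold Al Bx
  simp

lemma sum_Bx (B : τ → Finset ℕ) (t : τ) (h : Option (τ × ℕ) → ℝ) :
    ∑ i ∈ Bx B t, h i = ∑ b ∈ B t, h (some (t, b)) := by
  unfold Bx
  rw [Finset.sum_image]
  intro b _ b' _ hbb
  simp only [Option.some.injEq, Prod.mk.injEq] at hbb
  exact hbb.2

lemma sum_AlB (B : τ → Finset ℕ) (h : Option (τ × ℕ) → ℝ) :
    ∑ i ∈ Al (Bx B), h i = ∑ t, ∑ b ∈ B t, h (some (t, b)) := by
  unfold Al
  rw [Finset.sum_biUnion (fun t _ s _ hts => Bx_disj B t s hts)]
  exact Finset.sum_congr rfl fun t _ => sum_Bx B t h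

lemma card_AlB (B : τ → Finset ℕ) : (Al (Bx B)).card ≤ ∑ t, (B t).card := by
  unfold Al
  refine card_biUnion_le.trans ?_
  apply Finset.sum_le_sum
  intro t _
  unfold Bx
  exact card_image_le

/-- periodic in both variables, with few classes -/
structure Two (F : τ → ℕ → ℕ → ℕ → Prop) (c : ℕ) : Prop where
  pern : ∀ t b, PerB (fun p n => F t p n b) c
  perb : ∀ t n, PerB (fun p b => F t p n b) c

/-- the exceptional primes and the collision primes -/
def CoT (P0 : ℕ → ℕ → Prop) (F : τ → ℕ → ℕ → ℕ → Prop) (Ec : τ → ℕ → ℕ → Prop) (i : Option (τ × ℕ)) (t : τ)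
    (p h : ℕ) : Prop := Ec t p h ∨ Col (Eb P0 F) i (some (t, h)) p

omit [Fintype τ] [DecidableEq τ] in
lemma per_Eb (P0 : ℕ → ℕ → Prop) (F : τ → ℕ → ℕ → ℕ → Prop) (c : ℕ) (hP0 : PerB P0 c) (hF : Two F c)
    (i : Option (τ × ℕ)) : PerB (Eb P0 F i) c := by
  rcases i with _ | ⟨t, b⟩
  · exact hP0
  · exact hF.pern t b

omit [Fintype τ] [DecidableEq τ] in
theorem coll_CoT (P0 : ℕ → ℕ → Prop) (F : τ → ℕ → ℕ → ℕ → Prop) (Ec : τ → ℕ → ℕ → Prop) (c De p0 : ℕ)
    (hP0 : PerB P0 c) (hF : Two F c) (hE : ∀ t, Coll (Ec t) p0 De) (i : Option (τ × ℕ)) (t : τ) :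
    Coll (CoT P0 F Ec i t) p0 (De + c ^ 2) := by
  classical
  constructor
  · intro p n
    unfold CoT
    rw [(hE t).per p n]
    apply or_congr Iff.rfl
    unfold Col
    apply exists_congr
    intro m
    apply and_congr_right
    intro _
    exact (hF.perb t m).per p n
  · intro p hp hpp
    have hsub : (range p).filter (fun h => CoT P0 F Ec i t p h) ⊆ (range p).filter (fun h => Ec t p h) ∪
        ((range p).filter (fun r => Eb P0 F i p r)).biUnion (fun a => (range p).filter (fun h => F t p a h)) := by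
      intro h hh
      rw [mem_filter] at hh
      rw [mem_union]
      rcases hh.2 with h1 | ⟨m, hm1, hm2⟩
      · exact Or.inl (mem_filter.2 ⟨hh.1, h1⟩)
      · right
        rw [mem_biUnion]
        refine ⟨m % p, ?_, ?_⟩
        · rw [mem_filter, mem_range]
          exact ⟨Nat.mod_lt _ hp.pos, ((per_Eb P0 F c hP0 hF i).per p m).1 hm1⟩
        · rw [mem_filter]
          exact ⟨hh.1, ((hF.pern t h).per p m).1 hm2⟩
    have h1 := Finset.card_biUnion_le_card_mul ((range p).filter (fun r => Eb P0 F i p r))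
      (fun a => (range p).filter (fun h => F t p a h)) c (by
        intro a _
        refine le_trans (le_of_eq ?_) ((hF.perb t a).few p hp)
        unfold nuB
        congr)
    have h2 : ((range p).filter (fun r => Eb P0 F i p r)).card ≤ c := by
      refine le_trans (le_of_eq ?_) ((per_Eb P0 F c hP0 hF i).few p hp)
      unfold nuB
      congr
    have h3 : ((range p).filter (fun h => Ec t p h)).card ≤ De := by
      refine le_trans (le_of_eq ?_) ((hE t).few p hp hpp)
      congr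
    have h4 := (card_le_card hsub).trans (card_union_le _ _)
    have h5 := h1.trans (Nat.mul_le_mul_right c h2)
    rw [sq]
    refine le_trans (le_of_eq ?_) (h4.trans (Nat.add_le_add h3 h5))
    congr

open Classical in
/-- a product over primes in `(w, y]` -/
noncomputable def Gc (Co : ℕ → Prop) (K w y : ℕ) : ℝ :=
  ∏ p ∈ (pz y).filter (fun p : ℕ => w < p ∧ Co p), (1 + (K : ℝ) / p)

lemma Gc_ge (Co : ℕ → Prop) (K w y : ℕ) : 1 ≤ Gc Co K w y := by
  classical
  unfold Gc
  apply Finset.one_le_prod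
  intro p _
  have : 0 ≤ (K : ℝ) / p := by positivity
  linarith

open Classical in
lemma Gc_if (Co : ℕ → Prop) (K w y : ℕ) : Gc Co K w y =
    ∏ p ∈ (pz y).filter (fun p : ℕ => w < p), (if Co p then 1 + (K : ℝ) / p else 1) := by
  unfold Gc
  rw [← Finset.filter_filter, Finset.prod_filter]

lemma Gc_mono (Co Co' : ℕ → Prop) (K K' w y : ℕ) (hK : K ≤ K') (h : ∀ p, Co p → Co' p) :
    Gc Co K w y ≤ Gc Co' K' w y := by
  classical
  rw [Gc_if, Gc_if]
  apply Finset.prod_le_prod
  · intro p _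
    split_ifs <;> positivity
  · intro p _
    have h1 : (K : ℝ) / p ≤ K' / p := by
      apply div_le_div_of_nonneg_right _ (Nat.cast_nonneg _)
      exact_mod_cast hK
    have h2 : 0 ≤ (K' : ℝ) / p := by positivity
    split_ifs with h3 h4 h4
    · linarith
    · exact absurd (h p h3) h4
    · linarith
    · exact le_rfl

/-- the product of two products -/
lemma Gc_mul (C1 C2 : ℕ → Prop) (K1 K2 w y : ℕ) :
    Gc C1 K1 w y * Gc C2 K2 w y ≤ Gc (fun p => C1 p ∨ C2 p) ((K1 + 1) * (K2 + 1)) w y := by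
  classical
  rw [Gc_if, Gc_if, Gc_if, ← Finset.prod_mul_distrib]
  apply Finset.prod_le_prod
  · intro p _
    split_ifs <;> positivity
  · intro p hp
    rw [mem_filter] at hp
    have hp1 : (1 : ℝ) ≤ p := by exact_mod_cast (mem_pz.1 hp.1).2.one_lt.le
    have hp0 : (0 : ℝ) < p := by linarith
    have hk1 : (0 : ℝ) ≤ K1 := Nat.cast_nonneg _
    have hk2 : (0 : ℝ) ≤ K2 := Nat.cast_nonneg _
    have a1 : 0 ≤ (K1 : ℝ) / p := by positivity
    have a2 : 0 ≤ (K2 : ℝ) / p := by positivity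
    have a3 : (K1 : ℝ) / p * (K2 / p) ≤ K1 * K2 / p := by
      rw [div_mul_div_comm]
      apply div_le_div_of_nonneg_left (by positivity) hp0
      nlinarith
    have a4 : (((K1 + 1) * (K2 + 1) : ℕ) : ℝ) / p = K1 * K2 / p + K1 / p + K2 / p + 1 / p := by
      push_cast
      field_simp
      ring
    have a5 : 0 ≤ 1 / (p : ℝ) := by positivity
    have a6 : 0 ≤ (K1 : ℝ) * K2 / p := by positivity
    by_cases h1 : C1 p
    · rw [if_pos h1, if_pos (Or.inl h1)]
      by_cases h2 : C2 p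
      · rw [if_pos h2, a4]
        nlinarith
      · rw [if_neg h2, a4]
        linarith
    · rw [if_neg h1]
      by_cases h2 : C2 p
      · rw [if_pos h2, if_pos (Or.inr h2), a4]
        linarith
      · rw [if_neg h2, if_neg (by tauto)]
        norm_num

/-- the main product -/
noncomputable def Wt (f : ℕ → ℕ) (w y : ℕ) : ℝ := ∏ p ∈ (pz y).filter (fun p => w < p), (1 - (f p : ℝ) / p)

lemma prod_cmp (a b : ℕ → ℕ) (c w y : ℕ) (E : ℕ → Prop) (ha : ∀ p ∈ pz y, w < p → a p ≤ c)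
    (hb : ∀ p ∈ pz y, w < p → b p ≤ c) (h : ∀ p ∈ pz y, w < p → ¬ E p → a p = b p) (hw : 2 * c ≤ w) :
    ∏ p ∈ (pz y).filter (fun p => w < p), (1 - (a p : ℝ) / p) ≤
      (∏ p ∈ (pz y).filter (fun p => w < p), (1 - (b p : ℝ) / p)) * Gc E (2 * c) w y := by
  classical
  rw [Gc_if, ← Finset.prod_mul_distrib]
  apply Finset.prod_le_prod
  · intro p hp
    rw [mem_filter] at hp
    have h1 := ha p hp.1 hp.2
    have hp0 : (0 : ℝ) < p := by exact_mod_cast (mem_pz.1 hp.1).2.pos
    rw [sub_nonneg, div_le_one hp0]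
    exact_mod_cast (by omega : a p ≤ p)
  · intro p hp
    rw [mem_filter] at hp
    have h1 := ha p hp.1 hp.2
    have h2 := hb p hp.1 hp.2
    have hp0 : (0 : ℝ) < p := by exact_mod_cast (mem_pz.1 hp.1).2.pos
    split_ifs with h3
    · have h4 : (b p : ℝ) / p ≤ c / p := by
        apply div_le_div_of_nonneg_right _ hp0.le
        exact_mod_cast h2
      have h5 : (0 : ℝ) ≤ (a p : ℝ) / p := by positivity
      have h6 : 2 * ((c : ℝ) / p) ≤ 1 := by
        rw [← mul_div_assoc, div_le_one hp0]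
        exact_mod_cast (by omega : 2 * c ≤ p)
      have h7 : ((2 * c : ℕ) : ℝ) / p = 2 * ((c : ℝ) / p) := by push_cast; ring
      have h8 : 0 ≤ (c : ℝ) / p := by positivity
      rw [h7]
      calc 1 - (a p : ℝ) / p ≤ 1 := by linarith
        _ ≤ (1 - (c : ℝ) / p) * (1 + 2 * ((c : ℝ) / p)) := by nlinarith
        _ ≤ _ := mul_le_mul_of_nonneg_right (by linarith) (by positivity)
    · rw [h p hp.1 hp.2 h3, mul_one]

lemma Wt_nonneg (f : ℕ → ℕ) (c w y : ℕ) (hf : ∀ p ∈ pz y, w < p → f p ≤ c) (hw : 2 * c ≤ w) : 0 ≤ Wt f w y := by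
  unfold Wt
  apply Finset.prod_nonneg
  intro p hp
  rw [mem_filter] at hp
  have h1 := hf p hp.1 hp.2
  have hp0 : (0 : ℝ) < p := by exact_mod_cast (mem_pz.1 hp.1).2.pos
  rw [sub_nonneg, div_le_one hp0]
  exact_mod_cast (by omega : f p ≤ p)

open Classical in
/-- splitting off the large primes -/
lemma Gc_split (Co : ℕ → Prop) (K w y T : ℕ) : Gc Co K w y ≤ Gc Co K w (min y T) *
    ∏ p ∈ (pz y).filter (fun p : ℕ => T < p ∧ Co p), (1 + (K : ℝ) / p) := by
  have hsplit := Finset.prod_filter_mul_prod_filter_not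
    ((pz y).filter (fun p : ℕ => w < p ∧ Co p)) (fun p => T < p) (fun p => (1 + (K : ℝ) / p))
  unfold Gc
  rw [← hsplit, mul_comm]
  apply mul_le_mul
  · apply Finset.prod_le_prod_of_subset_of_one_le
    · intro p hp
      rw [mem_filter, mem_filter] at hp
      rw [mem_filter, mem_pz]
      exact ⟨⟨le_min (mem_pz.1 hp.1.1).1 (by omega), (mem_pz.1 hp.1.1).2⟩, hp.1.2⟩
    · intro p _
      positivity
    · intro p _ _
      have : 0 ≤ (K : ℝ) / p := by positivity
      linarith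
  · apply Finset.prod_le_prod_of_subset_of_one_le
    · intro p hp
      rw [mem_filter, mem_filter] at hp
      rw [mem_filter]
      exact ⟨hp.1.1, hp.2, hp.1.2.2⟩
    · intro p _
      positivity
    · intro p _ _
      have : 0 ≤ (K : ℝ) / p := by positivity
      linarith
  · exact Finset.prod_nonneg fun p _ => by positivity
  · exact Finset.prod_nonneg fun p _ => by positivity

open Classical in
/-- the small primes -/
lemma Gc_small (K : ℕ) : ∃ (C : ℝ) (B T0 : ℕ), 0 < C ∧ 2 ≤ T0 ∧ ∀ T : ℕ, T0 ≤ T → ∀ Co : ℕ → Prop, ∀ w y : ℕ,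
    Gc Co K w (min y T) ≤ C * Real.log T ^ B := by
  obtain ⟨C, hC, B, T0, hT0, hlog⟩ := prod_one_add_le K
  refine ⟨C, B, T0, hC, hT0, ?_⟩
  intro T hT Co w y
  refine le_trans ?_ (hlog T hT)
  unfold Gc
  apply Finset.prod_le_prod_of_subset_of_one_le
  · intro p hp
    rw [mem_filter, mem_pz] at hp
    rw [mem_pz]
    exact ⟨hp.1.1.trans (min_le_right _ _), hp.1.2⟩
  · intro p _
    positivity
  · intro p _ _
    have : 0 ≤ (K : ℝ) / p := by positivity
    linarith

open Classical in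
/-- the large primes -/
lemma Gc_large (K y T : ℕ) (Co : ℕ → Prop) : ∏ p ∈ (pz y).filter (fun p : ℕ => T < p ∧ Co p), (1 + (K : ℝ) / p) ≤
    Real.exp (K * ∑ p ∈ (pz y).filter (fun p : ℕ => T < p ∧ Co p), (1 : ℝ) / p) := by
  rw [Finset.mul_sum, Real.exp_sum]
  apply Finset.prod_le_prod
  · intro p _
    positivity
  · intro p _
    have h := Real.add_one_le_exp ((K : ℝ) * (1 / p))
    have e : (K : ℝ) / p = K * (1 / p) := by ring
    rw [e]
    linarith

open Classical in
lemma large_sum (y T : ℕ) (hT : 1 ≤ T) (Co : ℕ → Prop) (B0 : ℝ)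
    (hB : ((((pz y).filter (fun p : ℕ => T < p ∧ Co p)).card : ℕ) : ℝ) ≤ B0 * T) :
    ∑ p ∈ (pz y).filter (fun p : ℕ => T < p ∧ Co p), (1 : ℝ) / p ≤ B0 := by
  have hTr : (0 : ℝ) < T := by exact_mod_cast hT
  calc ∑ p ∈ (pz y).filter (fun p : ℕ => T < p ∧ Co p), (1 : ℝ) / p ≤
      ∑ _p ∈ (pz y).filter (fun p : ℕ => T < p ∧ Co p), (1 : ℝ) / T := by
        apply Finset.sum_le_sum
        intro p hp
        rw [mem_filter] at hp
        apply one_div_le_one_div_of_le hTr
        exact_mod_cast hp.2.1.le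
    _ = (((pz y).filter (fun p : ℕ => T < p ∧ Co p)).card : ℝ) * (1 / T) := by
        rw [Finset.sum_const, nsmul_eq_mul]
    _ ≤ (B0 * T) * (1 / T) := mul_le_mul_of_nonneg_right hB (by positivity)
    _ = B0 := by field_simp

open Classical in
/-- one value -/
theorem one_Co (K : ℕ) (B0 : ℝ) : ∃ (C : ℝ) (B T0 : ℕ), 0 < C ∧ 2 ≤ T0 ∧ ∀ T : ℕ, T0 ≤ T →
    ∀ Co : ℕ → Prop, ∀ w y : ℕ,
    ((((pz y).filter (fun p : ℕ => T < p ∧ Co p)).card : ℕ) : ℝ) ≤ B0 * T →
    Gc Co K w y ≤ C * Real.log T ^ B := by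
  obtain ⟨C, B, T0, hC, hT0, hs⟩ := Gc_small K
  refine ⟨C * Real.exp (K * B0), B, T0, by positivity, hT0, ?_⟩
  intro T hT Co w y hcard
  refine (Gc_split Co K w y T).trans ?_
  have h1 := hs T hT Co w y
  have h2 := (Gc_large K y T Co).trans (Real.exp_le_exp.2 (mul_le_mul_of_nonneg_left
    (large_sum y T (by omega) Co B0 hcard) (Nat.cast_nonneg K)))
  have h3 : 0 ≤ Gc Co K w (min y T) := le_trans zero_le_one (Gc_ge _ _ _ _)
  calc _ ≤ Gc Co K w (min y T) * Real.exp (K * B0) := mul_le_mul_of_nonneg_left h2 h3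
    _ ≤ (C * Real.log T ^ B) * Real.exp (K * B0) := mul_le_mul_of_nonneg_right h1 (Real.exp_pos _).le
    _ = _ := by ring

lemma harm_le (N : ℕ) (hN : 1 ≤ N) : ∑ p ∈ pz N, (1 : ℝ) / p ≤ 1 + Real.log N := by
  have h1 : ∑ p ∈ pz N, (1 : ℝ) / p ≤ ∑ n ∈ Icc 1 N, (1 : ℝ) / n := by
    apply Finset.sum_le_sum_of_subset_of_nonneg
    · intro p hp
      have := mem_pz.1 hp
      rw [mem_Icc]
      exact ⟨this.2.one_lt.le, this.1⟩
    · intro n _ _
      positivity
  refine h1.trans ?_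
  have h2 := harmonic_le_one_add_log N
  have h3 : ((harmonic N : ℚ) : ℝ) = ∑ n ∈ Icc 1 N, (1 : ℝ) / n := by
    rw [harmonic_eq_sum_Icc]
    push_cast
    apply Finset.sum_congr rfl
    intro n _
    rw [one_div]
  rw [← h3]
  exact h2

open Classical in
/-- the large primes on average -/
lemma large_avg (D w y T : ℕ) (hT : 1 ≤ T) (hwT : w ≤ T) (Co : ℕ → ℕ → Prop) (hCo : Coll Co w D) (E : Finset ℕ)
    (hE : E ⊆ Icc 1 T) (B0 : ℝ) (hB0 : 0 ≤ B0)
    (hB : ∀ h ∈ E, ((((pz y).filter (fun p : ℕ => T < p ∧ Co p h)).card : ℕ) : ℝ) ≤ B0 * T) :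
    ∑ h ∈ E, ∑ p ∈ (pz y).filter (fun p : ℕ => T < p ∧ Co p h), (1 : ℝ) / p ≤
      D * (1 + 3 * Real.log T + B0) := by
  have hTr : (1 : ℝ) ≤ T := by exact_mod_cast hT
  have hT0 : (0 : ℝ) < T := by linarith
  have hlog : 0 ≤ Real.log T := Real.log_nonneg hTr
  obtain ⟨P, hP⟩ : ∃ P, P = (pz y).filter (fun p : ℕ => T < p ∧ ∃ h ∈ E, Co p h) := ⟨_, rfl⟩
  have e1 : ∑ h ∈ E, ∑ p ∈ (pz y).filter (fun p : ℕ => T < p ∧ Co p h), (1 : ℝ) / p =
      ∑ p ∈ P, ((E.filter (fun h => Co p h)).card : ℝ) * (1 / p) := by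
    have h1 : ∀ h ∈ E, ∑ p ∈ (pz y).filter (fun p : ℕ => T < p ∧ Co p h), (1 : ℝ) / p =
        ∑ p ∈ P, if Co p h then (1 : ℝ) / p else 0 := by
      intro h hh
      rw [← Finset.sum_filter, hP, Finset.filter_filter]
      apply Finset.sum_congr _ (fun _ _ => rfl)
      apply Finset.filter_congr
      intro p _
      constructor
      · rintro ⟨a, b⟩
        exact ⟨⟨a, h, hh, b⟩, b⟩
      · rintro ⟨⟨a, _⟩, b⟩
        exact ⟨a, b⟩
    rw [Finset.sum_congr rfl h1, Finset.sum_comm]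
    apply Finset.sum_congr rfl
    intro p _
    rw [← Finset.sum_filter, Finset.sum_const, nsmul_eq_mul]
  rw [e1]
  have h2 : ∀ p ∈ P, ((E.filter (fun h => Co p h)).card : ℝ) * (1 / p) ≤ D * (1 / p) := by
    intro p hp
    rw [hP, mem_filter] at hp
    apply mul_le_mul_of_nonneg_right _ (by positivity)
    have h3 : (E.filter (fun h => Co p h)).card ≤ ((range p).filter (fun r => Co p r)).card := by
      apply card_le_card
      intro h hh
      rw [mem_filter] at hh ⊢
      have := mem_Icc.1 (hE hh.1)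
      rw [mem_range]
      exact ⟨by omega, hh.2⟩
    have h4 := hCo.few p (mem_pz.1 hp.1).2 (by omega)
    have h5 : ((range p).filter (fun r => Co p r)).card ≤ D := by
      refine le_trans (le_of_eq ?_) h4
      congr
    exact_mod_cast h3.trans h5
  refine (Finset.sum_le_sum h2).trans ?_
  rw [← Finset.mul_sum]
  apply mul_le_mul_of_nonneg_left _ (Nat.cast_nonneg D)
  -- the sum over the large primes
  have hPc : (P.card : ℝ) ≤ B0 * (T : ℝ) ^ 2 := by
    have h3 : P ⊆ E.biUnion (fun h => (pz y).filter (fun p : ℕ => T < p ∧ Co p h)) := by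
      intro p hp
      rw [hP, mem_filter] at hp
      obtain ⟨hp1, hp2, h, hh, hc⟩ := hp
      rw [mem_biUnion]
      exact ⟨h, hh, mem_filter.2 ⟨hp1, hp2, hc⟩⟩
    have h4 : (P.card : ℝ) ≤ ∑ h ∈ E, ((((pz y).filter (fun p : ℕ => T < p ∧ Co p h)).card : ℕ) : ℝ) := by
      exact_mod_cast (card_le_card h3).trans card_biUnion_le
    refine h4.trans ((Finset.sum_le_sum hB).trans ?_)
    rw [Finset.sum_const, nsmul_eq_mul]
    have h5 : (E.card : ℝ) ≤ T := by
      have := card_le_card hE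
      rw [Nat.card_Icc] at this
      exact_mod_cast (by omega : E.card ≤ T)
    calc (E.card : ℝ) * (B0 * T) ≤ T * (B0 * T) := mul_le_mul_of_nonneg_right h5 (by positivity)
      _ = _ := by ring
  rw [← Finset.sum_filter_add_sum_filter_not P (fun p => p ≤ T ^ 3)]
  have h3 : ∑ p ∈ P.filter (fun p => p ≤ T ^ 3), (1 : ℝ) / p ≤ 1 + 3 * Real.log T := by
    have h4 := harm_le (T ^ 3) (Nat.one_le_pow _ _ hT)
    push_cast at h4
    rw [Real.log_pow] at h4
    push_cast at h4
    refine le_trans ?_ h4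
    apply Finset.sum_le_sum_of_subset_of_nonneg
    · intro p hp
      rw [mem_filter, hP, mem_filter] at hp
      rw [mem_pz]
      exact ⟨hp.2, (mem_pz.1 hp.1.1).2⟩
    · intro p _ _
      positivity
  have h4 : ∑ p ∈ P.filter (fun p => ¬ p ≤ T ^ 3), (1 : ℝ) / p ≤ B0 := by
    calc ∑ p ∈ P.filter (fun p => ¬ p ≤ T ^ 3), (1 : ℝ) / p ≤
        ∑ _p ∈ P.filter (fun p => ¬ p ≤ T ^ 3), (1 : ℝ) / (T : ℝ) ^ 3 := by
          apply Finset.sum_le_sum
          intro p hp
          rw [mem_filter] at hp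
          apply one_div_le_one_div_of_le (by positivity)
          exact_mod_cast (by omega : T ^ 3 ≤ p)
      _ = ((P.filter (fun p => ¬ p ≤ T ^ 3)).card : ℝ) * (1 / (T : ℝ) ^ 3) := by
          rw [Finset.sum_const, nsmul_eq_mul]
      _ ≤ (B0 * (T : ℝ) ^ 2) * (1 / (T : ℝ) ^ 3) := by
          apply mul_le_mul_of_nonneg_right _ (by positivity)
          refine le_trans ?_ hPc
          exact_mod_cast card_filter_le _ _
      _ = B0 / T := by field_simp
      _ ≤ B0 := div_le_self hB0 hTr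
  linarith

lemma exp_sub_one_le (x : ℝ) (hx : 0 ≤ x) : Real.exp x - 1 ≤ x * Real.exp x := by
  have h1 := Real.one_sub_le_exp_neg x
  have h2 := Real.exp_pos x
  have h3 : Real.exp (-x) * Real.exp x = 1 := by rw [← Real.exp_add]; simp
  nlinarith

open Classical in
/-- the average -/
theorem avg_Gc (K D w : ℕ) (hw : 1 ≤ w) (η : ℝ) (hη : 0 < η) (hη1 : η ≤ 1)
    (hKD : (K * D : ℕ) / (w : ℝ) ≤ η) (B0 : ℝ) (hB0 : 0 ≤ B0) : ∃ T0 : ℕ, 2 ≤ T0 ∧ ∀ T : ℕ, T0 ≤ T →
    ∀ Co : ℕ → ℕ → Prop, Coll Co w D → ∀ y : ℕ,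
    ∀ E : Finset ℕ, E ⊆ Icc 1 T →
    (∀ h ∈ E, ((((pz y).filter (fun p : ℕ => T < p ∧ Co p h)).card : ℕ) : ℝ) ≤ B0 * T) →
    ∑ h ∈ E, (Gc (fun p => Co p h) K w y - 1) ≤ 39 * η * T := by
  obtain ⟨T0, hT0, havg⟩ := avg_E K D w hw η hη hKD
  obtain ⟨C, B, T1, hC, hT1, hsm⟩ := Gc_small K
  obtain ⟨T2, hT2, hlogT⟩ := log_T (C * (K * Real.exp (K * B0)) * (D * (4 + B0)) + 1) (B + 1) η (by positivity) hη
  refine ⟨max (max T0 T1) (max T2 (max w 3)), ?_, ?_⟩
  · exact hT0.trans ((le_max_left _ _).trans (le_max_left _ _))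
  intro T hT Co hCo y E hE hbig
  have hTa : T0 ≤ T := ((le_max_left _ _).trans (le_max_left _ _)).trans hT
  have hTb : T1 ≤ T := ((le_max_right _ _).trans (le_max_left _ _)).trans hT
  have hTc : T2 ≤ T := ((le_max_left _ _).trans (le_max_right _ _)).trans hT
  have hTd : max w 3 ≤ T := ((le_max_right _ _).trans (le_max_right _ _)).trans hT
  have hwT : w ≤ T := (le_max_left _ _).trans hTd
  have hT3 : 3 ≤ T := (le_max_right _ _).trans hTd
  have hTr : (0 : ℝ) < T := by exact_mod_cast (by omega : 0 < T)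
  have hlog1 : 1 ≤ Real.log T := by
    rw [Real.le_log_iff_exp_le hTr]
    have h1 := Real.exp_one_lt_d9
    have h2 : (3 : ℝ) ≤ T := by exact_mod_cast hT3
    linarith
  -- the small primes
  have h1 : ∑ h ∈ E, (Gc (fun p => Co p h) K w (min y T) - 1) ≤ 38 * η * T := by
    have h2 := havg T hTa Co hCo (min y T) 0 le_rfl (by rw [mul_zero]; exact hη.le) E hE (by
      intro h _
      have : (pz (min y T)).filter (fun p : ℕ => T < p ∧ Co p h) = ∅ := by
        rw [filter_eq_empty_iff]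
        intro p hp
        have := (mem_pz.1 hp).1
        have := min_le_right y T
        omega
      rw [this]
      simp)
    have h3 := exp_bound2 η hη.le hη1
    exact h2.trans (mul_le_mul_of_nonneg_right h3 hTr.le)
  -- the large primes
  have h2 : ∀ h ∈ E, Gc (fun p => Co p h) K w y - 1 ≤ (Gc (fun p => Co p h) K w (min y T) - 1) +
      C * Real.log T ^ B * (K * Real.exp (K * B0)) *
        ∑ p ∈ (pz y).filter (fun p : ℕ => T < p ∧ Co p h), (1 : ℝ) / p := by
    intro h hh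
    have h3 := Gc_split (fun p => Co p h) K w y T
    have h4 := Gc_large K y T (fun p => Co p h)
    have h5 := hsm T hTb (fun p => Co p h) w y
    have h6 := large_sum y T (by omega) (fun p => Co p h) B0 (hbig h hh)
    obtain ⟨x, hx⟩ : ∃ x, x = ∑ p ∈ (pz y).filter (fun p : ℕ => T < p ∧ Co p h), (1 : ℝ) / p := ⟨_, rfl⟩
    have hx0 : 0 ≤ x := by rw [hx]; exact Finset.sum_nonneg fun p _ => by positivity
    rw [← hx] at h4 h6 ⊢
    obtain ⟨G, hG⟩ : ∃ G, G = Gc (fun p => Co p h) K w (min y T) := ⟨_, rfl⟩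
    have hG1 : 1 ≤ G := by rw [hG]; exact Gc_ge _ _ _ _
    rw [← hG] at h3 h5 ⊢
    have hK0 : (0 : ℝ) ≤ K := Nat.cast_nonneg K
    have h7 : Real.exp (K * x) - 1 ≤ (K * Real.exp (K * B0)) * x := by
      refine (exp_sub_one_le (K * x) (by positivity)).trans ?_
      have h8 : Real.exp (K * x) ≤ Real.exp (K * B0) := Real.exp_le_exp.2 (mul_le_mul_of_nonneg_left h6 hK0)
      calc K * x * Real.exp (K * x) ≤ K * x * Real.exp (K * B0) := mul_le_mul_of_nonneg_left h8 (by positivity)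
        _ = _ := by ring
    have h8 : G * (∏ p ∈ (pz y).filter (fun p : ℕ => T < p ∧ Co p h), (1 + (K : ℝ) / p)) ≤ G * Real.exp (K * x) :=
      mul_le_mul_of_nonneg_left h4 (by linarith)
    have h9 : G * (Real.exp (K * x) - 1) ≤ C * Real.log T ^ B * ((K * Real.exp (K * B0)) * x) :=
      mul_le_mul h5 h7 (by
        have := Real.add_one_le_exp (K * x)
        have : 0 ≤ K * x := by positivity
        linarith) (by linarith)
    linarith
  refine (Finset.sum_le_sum h2).trans ?_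
  rw [Finset.sum_add_distrib, ← Finset.mul_sum]
  have h3 := large_avg D w y T (by omega) hwT Co hCo E hE B0 hB0 hbig
  have h4 : C * Real.log T ^ B * (K * Real.exp (K * B0)) *
      ∑ h ∈ E, ∑ p ∈ (pz y).filter (fun p : ℕ => T < p ∧ Co p h), (1 : ℝ) / p ≤ η * T := by
    refine le_trans ?_ (hlogT T hTc)
    have h5 : (D : ℝ) * (1 + 3 * Real.log T + B0) ≤ D * (4 + B0) * Real.log T := by
      have h6 : 1 + 3 * Real.log T + B0 ≤ (4 + B0) * Real.log T := by nlinarith
      have := mul_le_mul_of_nonneg_left h6 (Nat.cast_nonneg (α := ℝ) D)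
      linarith
    calc _ ≤ C * Real.log T ^ B * (K * Real.exp (K * B0)) * (D * (4 + B0) * Real.log T) :=
          mul_le_mul_of_nonneg_left (h3.trans h5) (by positivity)
      _ = C * (K * Real.exp (K * B0)) * (D * (4 + B0)) * Real.log T ^ (B + 1) := by
          rw [pow_succ]
          ring
      _ ≤ _ := by
          apply mul_le_mul_of_nonneg_right _ (by positivity)
          linarith
  linarith

end Pool.Agent.Q236.FL
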