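import Pool.Agent.Q236.FL.Pair

set_option autoImplicit false

/-!
# The joint law for families of conditions in two variables
-/

namespace Pool.Agent.Q236.FL

open Finset Filter Pool.Agent.H373R2.T7 Pool.Agent.W123.RP Pool.Agent.W123.RU Pool.Agent.TH464.PO
open Pool.Agent.Q236.CP Pool.Agent.Q236.ML Pool.Agent.Q236.UL

variable {τ : Type*} [Fintype τ] [DecidableEq τ]

open Classical in
/-- the number of the `b` -/
noncomputable def NF (F : τ → ℕ → ℕ → ℕ → Prop) (y : ℕ) (t : τ) (B : Finset ℕ) (n : ℕ) : ℕ :=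
  (B.filter (fun b => Sf (fun p m => F t p m b) y n)).card

/-- the mean -/
noncomputable def xF (F : τ → ℕ → ℕ → ℕ → Prop) (full : τ → ℕ → ℕ) (w y : ℕ) (u v : τ → ℕ) (n : ℕ) (t : τ) : ℝ :=
  ((v t : ℝ) - u t) * Vq (fun p b => F t p n b) w * Wt (full t) w y

omit [Fintype τ] [DecidableEq τ] in
lemma xF_mod (F : τ → ℕ → ℕ → ℕ → Prop) (c : ℕ) (hF : Two F c) (full : τ → ℕ → ℕ) (w y : ℕ) (u v : τ → ℕ)
    (n : ℕ) : xF F full w y u v (n % Mw w) = xF F full w y u v n := by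
  classical
  funext t
  unfold xF
  congr 2
  unfold Vq
  apply Finset.prod_congr rfl
  intro p hp
  have h1 : (n % Mw w) % p = n % p := Nat.mod_mod_of_dvd n (Finset.dvd_prod_of_mem _ hp)
  have h2 : nuB (fun p b => F t p (n % Mw w) b) p = nuB (fun p b => F t p n b) p := by
    unfold nuB
    congr 1
    apply Finset.filter_congr
    intro b _
    have h3 := (hF.pern t b).per p (n % Mw w)
    have h4 := (hF.pern t b).per p n
    rw [h1] at h3
    exact h3.trans h4.symm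
  rw [h2]

open Classical in
/-- the live points of the windows -/
noncomputable def Bl (live : τ → ℕ → Prop) (u v : ℕ → τ → ℕ) (a : ℕ) (t : τ) : Finset ℕ :=
  (Ioc (u a t) (v a t)).filter (fun b => live t b)

open Classical in
/-- **The joint law for families in two variables.** -/
theorem two_law (c De D B w1 : ℕ) (hD : 0 < D) (Λ Λ2 ε : ℝ) (hΛ : 0 ≤ Λ) (hΛ2 : 0 ≤ Λ2) (hε : 0 < ε) :
    ∃ (R w K0 y0 : ℕ) (κ : ℝ), 1 ≤ w ∧ w1 ≤ w ∧ 2 * c ≤ w ∧ 1 ≤ K0 ∧ 0 < κ ∧ ∀ B0 : ℝ, 0 ≤ B0 → ∃ T0 : ℕ,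
      ∀ (P0 : ℕ → ℕ → Prop) (F : τ → ℕ → ℕ → ℕ → Prop) (Ec : τ → ℕ → ℕ → Prop)
        (ex : Option (τ × ℕ) × Option (τ × ℕ) → Prop) (col : Option (τ × ℕ) → Fin D) (full : τ → ℕ → ℕ)
        (live : τ → ℕ → Prop) (y Y : ℕ) (u v T : ℕ → τ → ℕ),
      PerB P0 c → Two F c → (∀ t, Coll (Ec t) w De) → (∀ p : ℕ, p.Prime → nuB P0 p < p) →
      (∀ t b n, Sf P0 w n → Sf (fun p m => F t p m b) w n → live t b) →
      (∀ t, ∀ p ∈ pz y, w < p → full t p ≤ c) →
      (∀ a t, ∀ b ∈ Bl live u v a t, ∀ p ∈ pz y, w < p → ¬ Ec t p b →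
        nuB (fun p n => F t p n b) p = full t p) →
      (∀ x, ex x → col x.1 ≠ col x.2) → (∀ i, ¬ ex (none, i) ∧ ¬ ex (i, none)) →
      y0 ≤ y → y ^ K0 ≤ Y → (∀ a t, u a t ≤ v a t) →
      (∀ a, ∑ x ∈ (Al (Bx (Bl live u v a))).offDiag.filter (fun x => ex x),
        Vt (Eb P0 F x.1) w y * Vt (Eb P0 F x.2) w y ≤ κ) →
      (∀ a, ∑ x ∈ (Al (Bx (Bl live u v a))).offDiag.filter (fun x => ex x),
        rh (Eb P0 F) none w y {x.1, x.2} ≤ κ) →
      (∀ a, (((∑ t, v a t : ℕ) : ℝ) + 1) ^ R * √(Y : ℝ) ≤ κ * (Y * Vq P0 y)) →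
      (∀ a, PF P0 F Ec ex full w y (Bl live u v a) (T a) T0 (Λ2 * Real.log w ^ B) B0) →
      ∀ A : ℕ → Finset (τ → ℕ), |(((OmG P0 y Y).filter
        (fun n => (fun t => NF F y t (Ioc (u (n % Mw w) t) (v (n % Mw w) t)) n) ∈ A (n % Mw w))).card : ℝ) -
        ∑ n ∈ OmG P0 y Y, PoJ (xF F full w y (u (n % Mw w)) (v (n % Mw w)) n) (A (n % Mw w))| ≤
        ε * (OmG P0 y Y).card +
          ((OmG P0 y Y).filter (fun n => ¬ ∀ t, xF F full w y (u (n % Mw w)) (v (n % Mw w)) n t ≤ Λ)).card := by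
  obtain ⟨R, η, hη, hη1, hR, hglob⟩ := glob_mix (ι := Option (τ × ℕ)) (τ := τ) c D hD Λ ε hΛ hε
  obtain ⟨K, hK⟩ : ∃ K, K = KK R c := ⟨_, rfl⟩
  obtain ⟨K3, hK3⟩ : ∃ K3, K3 = (2 * c + 1) * (K + 1) := ⟨_, rfl⟩
  obtain ⟨s, hs⟩ : ∃ s : ℝ, s = Fintype.card τ := ⟨_, rfl⟩
  have hs0 : 0 ≤ s := by rw [hs]; exact Nat.cast_nonneg _
  obtain ⟨G0, hG0⟩ : ∃ G0 : ℝ, G0 = 1560 * 8 * (s ^ 2 + s + 1) := ⟨_, rfl⟩
  have hG00 : 0 < G0 := by rw [hG0]; positivity
  obtain ⟨A, hA⟩ := exists_nat_ge (G0 * (((K3 * (De + c ^ 2) : ℕ) : ℝ) + 1) * (Λ2 + 1) ^ 2 +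
    (((R + 1) * c : ℕ) : ℝ) ^ 2)
  obtain ⟨w, hw0, hw2, hAw, hAw'⟩ := exists_w A B 2 1 η one_pos hη (max (max 3 w1) (2 * ((R + 1) * c)))
  have hw3 : 3 ≤ w := ((le_max_left _ _).trans (le_max_left _ _)).trans hw0
  have hww1 : w1 ≤ w := ((le_max_right _ _).trans (le_max_left _ _)).trans hw0
  have hwc : 2 * ((R + 1) * c) ≤ w := (le_max_right _ _).trans hw0
  have hwc' : 2 * c ≤ w := by
    refine le_trans ?_ hwc
    have : c ≤ (R + 1) * c := Nat.le_mul_of_pos_left c (by omega)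
    omega
  have hwr : (0 : ℝ) < w := by exact_mod_cast (by omega : 0 < w)
  have hw1 : 1 ≤ w := by omega
  have hlogw : 1 ≤ Real.log w := by
    rw [Real.le_log_iff_exp_le hwr]
    have h1 := Real.exp_one_lt_d9
    have h2 : (3 : ℝ) ≤ w := by exact_mod_cast hw3
    linarith
  have hlogB : 1 ≤ Real.log w ^ B := one_le_pow₀ hlogw
  obtain ⟨L, hL⟩ : ∃ L : ℝ, L = (Λ2 + 1) * Real.log w ^ B := ⟨_, rfl⟩
  have hL1 : 1 ≤ L := by rw [hL]; nlinarith
  have hLw : Λ2 * Real.log w ^ B ≤ L := by rw [hL]; nlinarith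
  have hLw0 : 0 ≤ Λ2 * Real.log w ^ B := by positivity
  obtain ⟨ηa, hηa⟩ : ∃ ηa : ℝ, ηa = (((K3 * (De + c ^ 2) : ℕ) : ℝ) + 1) / w := ⟨_, rfl⟩
  have hηa0 : 0 < ηa := by rw [hηa]; positivity
  have hAL : G0 * ηa * L ^ 2 ≤ η := by
    have h1 : G0 * (((K3 * (De + c ^ 2) : ℕ) : ℝ) + 1) * (Λ2 + 1) ^ 2 / w ≤ η * (1 / Real.log w ^ B) ^ 2 := by
      refine le_trans ?_ hAw
      apply div_le_div_of_nonneg_right _ hwr.le
      have : 0 ≤ (((R + 1) * c : ℕ) : ℝ) ^ 2 := by positivity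
      linarith
    have h2 : G0 * ηa * L ^ 2 = G0 * (((K3 * (De + c ^ 2) : ℕ) : ℝ) + 1) * (Λ2 + 1) ^ 2 / w *
        (Real.log w ^ B) ^ 2 := by
      rw [hηa, hL]
      ring
    rw [h2]
    calc _ ≤ η * (1 / Real.log w ^ B) ^ 2 * (Real.log w ^ B) ^ 2 :=
          mul_le_mul_of_nonneg_right h1 (by positivity)
      _ = η := by
          have : Real.log w ^ B ≠ 0 := by positivity
          field_simp
  have hE1 : (((R + 1) * c : ℕ) : ℝ) ^ 2 / w ≤ η := by
    refine le_trans ?_ hAw'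
    apply div_le_div_of_nonneg_right _ hwr.le
    refine le_trans ?_ hA
    have : 0 ≤ G0 * (((K3 * (De + c ^ 2) : ℕ) : ℝ) + 1) * (Λ2 + 1) ^ 2 := by positivity
    linarith
  have hG01 : 1 ≤ G0 := by rw [hG0]; nlinarith
  have hLsq : 1 ≤ L ^ 2 := one_le_pow₀ hL1
  have hηaL : 1560 * 8 * (s ^ 2 + s + 1) * (ηa * L ^ 2) ≤ η := by
    rw [hG0] at hAL
    linarith
  have hηaL0 : 0 ≤ ηa * L ^ 2 := by positivity
  have hs2 : 0 ≤ s ^ 2 := sq_nonneg s
  have hηa1 : ηa ≤ 1 := by nlinarith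
  have hMr1 : (1 : ℝ) ≤ Mw w := by exact_mod_cast Mw_pos w
  obtain ⟨κ, hκ⟩ : ∃ κ : ℝ, κ = η / (16 * Mw w) := ⟨_, rfl⟩
  have hκ0 : 0 < κ := by rw [hκ]; positivity
  have hκη : κ ≤ η / 16 := by
    rw [hκ, div_le_div_iff₀ (by positivity) (by norm_num)]
    nlinarith
  obtain ⟨K0, x0, hK0, hlaw⟩ := hglob w hw1
  refine ⟨R, w, K0, max x0 w, κ, hw1, hww1, hwc', hK0, hκ0, ?_⟩
  intro B0 hB0
  -- the averages
  obtain ⟨Ta, hTa2, havg⟩ := avg_Gc K3 (De + c ^ 2) w hw1 ηa hηa0 hηa1 (by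
    rw [hηa]
    apply div_le_div_of_nonneg_right _ hwr.le
    linarith) B0 hB0
  obtain ⟨C, Bq, Tb, hC, hTb2, hone⟩ := one_Co K3 B0
  obtain ⟨δ, hδ⟩ : ∃ δ : ℝ, δ = η / (L + 1) := ⟨_, rfl⟩
  have hδ0 : 0 < δ := by rw [hδ]; positivity
  obtain ⟨Tc, hTc2, hlogT⟩ := log_T C Bq δ hC hδ0
  obtain ⟨Td, hTd⟩ := exists_nat_ge (8 * (Mw w : ℝ) * L / η)
  obtain ⟨Tm, hTm⟩ : ∃ Tm, Tm = max (max Ta Tb) (max Tc Td) := ⟨_, rfl⟩
  have hTma : Ta ≤ Tm := by rw [hTm]; exact (le_max_left _ _).trans (le_max_left _ _)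
  have hTmb : Tb ≤ Tm := by rw [hTm]; exact (le_max_right _ _).trans (le_max_left _ _)
  have hTmc : Tc ≤ Tm := by rw [hTm]; exact (le_max_left _ _).trans (le_max_right _ _)
  have hTmd : Td ≤ Tm := by rw [hTm]; exact (le_max_right _ _).trans (le_max_right _ _)
  refine ⟨Tm, ?_⟩
  intro P0 F Ec ex col full live y Y u' v' T' hP0 hF hEc hadm hlive hfc hful' hcol hexo hy hyY huv' hexp' hexr' hsize' hPF' A
  have hwy : w ≤ y := (le_max_right _ _).trans hy
  have hxy : x0 ≤ y := (le_max_left _ _).trans hy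
  have hcore : ∀ a0, GD (Eb P0 F) c none w y Y (Bx (Bl live u' v' a0)) ex R η ∧
      ∀ a, Sf P0 w a → ∀ t, |∑ i ∈ (Bx (Bl live u' v' a0) t).filter (fun i => Sf (Eb P0 F i) w a), Vt (Eb P0 F i) w y -
      xF F full w y (u' a0) (v' a0) a t| ≤ η := by
   intro a0
   obtain ⟨u, hu⟩ : ∃ u, u = u' a0 := ⟨_, rfl⟩
   obtain ⟨v, hv⟩ : ∃ v, v = v' a0 := ⟨_, rfl⟩
   obtain ⟨T, hT⟩ : ∃ T, T = T' a0 := ⟨_, rfl⟩
   have hful := hful' a0
   have huv := huv' a0
   have hexp := hexp' a0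
   have hexr := hexr' a0
   have hsize := hsize' a0
   have hPF := hPF' a0
   obtain ⟨Bs, hBs⟩ : ∃ Bs, Bs = Bl live u' v' a0 := ⟨_, rfl⟩
   have hBm : ∀ t b, b ∈ Bs t ↔ b ∈ Ioc (u t) (v t) ∧ live t b := by
     intro t b
     rw [hBs, hu, hv]
     unfold Bl
     rw [mem_filter]
   have hBc : ∀ t, (Bs t).card ≤ v t := by
     intro t
     have h1 : Bs t ⊆ Ioc (u t) (v t) := fun b hb => ((hBm t b).1 hb).1
     have h2 := card_le_card h1
     rw [Nat.card_Ioc] at h2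
     omega
   rw [← hBs] at hful hexp hexr hPF ⊢
   rw [← hu, ← hv] at huv ⊢
   rw [← hv] at hsize
   rw [← hT] at hPF
   have hPFa : PF P0 F Ec ex full w y Bs T Ta (Λ2 * Real.log w ^ B) B0 :=
     ⟨hPF.vT, fun t => hTma.trans (hPF.T0T t), hPF.TW, hPF.few⟩
   have hW0 : ∀ t, 0 ≤ Wt (full t) w y := fun t => Wt_nonneg (full t) c w y (hfc t) hwc'
   have havg' : ∀ T : ℕ, Ta ≤ T → ∀ Co : ℕ → ℕ → Prop, Coll Co w (De + c ^ 2) → ∀ y : ℕ,
       ∀ E : Finset ℕ, E ⊆ Icc 1 T →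
       (∀ h ∈ E, ((((pz y).filter (fun p : ℕ => T < p ∧ Co p h)).card : ℕ) : ℝ) ≤ B0 * T) →
       ∑ h ∈ E, (Gc (fun p => Co p h) ((2 * c + 1) * (K + 1)) w y - 1) ≤ 39 * ηa * T := by
     rw [← hK3]
     exact havg
   have hpair := pair_sum K c De w ηa hηa0.le hηa1 Ta (by omega) B0 havg' P0 F hP0 hF Ec hEc full ex y Bs T hfc
     hful hwc' (Λ2 * Real.log w ^ B) (fun i => (hexo i).1) hPFa
   have havgv := avg_v K c De w ηa Ta B0 havg' P0 F hP0 hF Ec hEc full ex y Bs T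
     (Λ2 * Real.log w ^ B) (fun i => (hexo i).1) hPFa
   rw [← hs] at hpair
   have hpair2 : 2 * (s * (39 * ηa * (Λ2 * Real.log w ^ B))) +
       s ^ 2 * (40 * (Λ2 * Real.log w ^ B) * (39 * ηa * (Λ2 * Real.log w ^ B))) ≤ η := by
     obtain ⟨Lw, hLwe⟩ : ∃ Lw, Lw = Λ2 * Real.log w ^ B := ⟨_, rfl⟩
     rw [← hLwe] at hLw hLw0 ⊢
     have h1 : Lw ≤ L ^ 2 := by nlinarith
     have h2 : Lw * Lw ≤ L ^ 2 := by nlinarith
     have h3 : ηa * Lw ≤ ηa * L ^ 2 := mul_le_mul_of_nonneg_left h1 hηa0.le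
     have h4 : ηa * (Lw * Lw) ≤ ηa * L ^ 2 := mul_le_mul_of_nonneg_left h2 hηa0.le
     have h5 : s * (ηa * Lw) ≤ s * (ηa * L ^ 2) := mul_le_mul_of_nonneg_left h3 hs0
     have h6 : s ^ 2 * (ηa * (Lw * Lw)) ≤ s ^ 2 * (ηa * L ^ 2) := mul_le_mul_of_nonneg_left h4 hs2
     have h7 : 0 ≤ s * (ηa * L ^ 2) := by positivity
     have h8 : 0 ≤ s ^ 2 * (ηa * L ^ 2) := by positivity
     nlinarith
   -- the mean of one class
   have hcls : ∀ a, Sf P0 w a → ∀ t, |∑ i ∈ (Bx Bs t).filter (fun i => Sf (Eb P0 F i) w a), Vt (Eb P0 F i) w y -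
       xF F full w y u v a t| ≤ η := by
     intro a haP t
     have h1 := win_count (fun p b => F t p a b) c (hF.perb t a) w 0 (u t) (v t) (huv t)
     have e1 : ∑ i ∈ (Bx Bs t).filter (fun i => Sf (Eb P0 F i) w a), Vt (Eb P0 F i) w y =
         ∑ b ∈ (Ioc (u t) (v t)).filter (fun b => Sf (fun p b => F t p a b) w (0 + b)),
           Vt (fun p n => F t p n b) w y := by
       rw [Finset.sum_filter, sum_Bx, ← Finset.sum_filter]
       apply Finset.sum_congr _ (fun _ _ => rfl)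
       ext b
       rw [mem_filter, mem_filter, hBm, Nat.zero_add]
       constructor
       · rintro ⟨⟨h2, _⟩, h3⟩
         exact ⟨h2, h3⟩
       · rintro ⟨h2, h3⟩
         exact ⟨⟨h2, hlive t b a haP h3⟩, h3⟩
     rw [e1]
     obtain ⟨Bt, hBt⟩ : ∃ Bt, Bt = (Ioc (u t) (v t)).filter (fun b => Sf (fun p b => F t p a b) w (0 + b)) :=
       ⟨_, rfl⟩
     rw [← hBt] at h1 ⊢
     have hsub : Bt ⊆ Bs t := by
       intro b hb
       rw [hBt, mem_filter, Nat.zero_add] at hb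
       exact (hBm t b).2 ⟨hb.1, hlive t b a haP hb.2⟩
     have h2 : |∑ b ∈ Bt, Vt (fun p n => F t p n b) w y - (Bt.card : ℝ) * Wt (full t) w y| ≤
         39 * ηa * (Λ2 * Real.log w ^ B) := by
       have e2 : (Bt.card : ℝ) * Wt (full t) w y = ∑ _b ∈ Bt, Wt (full t) w y := by
         rw [Finset.sum_const, nsmul_eq_mul]
       rw [e2, ← Finset.sum_sub_distrib]
       refine (Finset.abs_sum_le_sum_abs _ _).trans ?_
       calc ∑ b ∈ Bt, |Vt (fun p n => F t p n b) w y - Wt (full t) w y| ≤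
           ∑ b ∈ Bt, Wt (full t) w y * (Gc (fun p => Ec t p b) (2 * c) w y - 1) := by
             apply Finset.sum_le_sum
             intro b hb
             exact Vt_close c w F hF Ec full y Bs hfc hful hwc' t b (hsub hb)
         _ ≤ ∑ b ∈ Bs t, Wt (full t) w y * (Gc (fun p => Ec t p b) (2 * c) w y - 1) := by
             apply Finset.sum_le_sum_of_subset_of_nonneg hsub
             intro b _ _
             have := Gc_ge (fun p => Ec t p b) (2 * c) w y
             exact mul_nonneg (hW0 t) (by linarith)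
         _ ≤ Wt (full t) w y * (39 * ηa * T t) := by
             rw [← Finset.mul_sum]
             exact mul_le_mul_of_nonneg_left (havgv t) (hW0 t)
         _ = 39 * ηa * (T t * Wt (full t) w y) := by ring
         _ ≤ _ := mul_le_mul_of_nonneg_left (hPF.TW t) (by positivity)
     have h3 : |(Bt.card : ℝ) * Wt (full t) w y - xF F full w y u v a t| ≤ 2 * Mw w * Wt (full t) w y := by
       unfold xF
       rw [← sub_mul, abs_mul, abs_of_nonneg (hW0 t)]
       exact mul_le_mul_of_nonneg_right h1 (hW0 t)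
     have h4 : 2 * (Mw w : ℝ) * Wt (full t) w y ≤ η / 4 := by
       have hTt : (Td : ℝ) ≤ T t := by exact_mod_cast hTmd.trans (hPF.T0T t)
       have h5 : 8 * (Mw w : ℝ) * L / η ≤ T t := hTd.trans hTt
       rw [div_le_iff₀ hη] at h5
       have h6 : T t * Wt (full t) w y ≤ L := (hPF.TW t).trans hLw
       have h7 : 8 * (Mw w : ℝ) * L * Wt (full t) w y ≤ L * η := by
         calc 8 * (Mw w : ℝ) * L * Wt (full t) w y ≤ T t * η * Wt (full t) w y :=
               mul_le_mul_of_nonneg_right h5 (hW0 t)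
           _ = T t * Wt (full t) w y * η := by ring
           _ ≤ L * η := mul_le_mul_of_nonneg_right h6 hη.le
       have h8 : L * (8 * (Mw w : ℝ) * Wt (full t) w y) ≤ L * η := by linarith
       have h9 := le_of_mul_le_mul_left h8 (by linarith)
       linarith
     have h5 : 39 * ηa * (Λ2 * Real.log w ^ B) ≤ η / 4 := by
       have h6 : Λ2 * Real.log w ^ B ≤ L ^ 2 := by nlinarith
       have h7 : ηa * (Λ2 * Real.log w ^ B) ≤ ηa * L ^ 2 := mul_le_mul_of_nonneg_left h6 hηa0.le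
       nlinarith
     have h6 := abs_le.1 h2
     have h7 := abs_le.1 h3
     rw [abs_le]
     constructor <;> linarith [h6.1, h6.2, h7.1, h7.2]
   have hgd : GD (Eb P0 F) c none w y Y (Bx Bs) ex R η := by
     refine ⟨per_Eb P0 F c hP0 hF, hadm, none_notMemB Bs, fun t s hts => Bx_disj Bs t s hts, ?_, ?_, ?_, ?_, ?_,
       ?_, hwc, hw1, hE1⟩
     · have h1 : (((Al (Bx Bs)).card : ℝ) + 1) ^ R ≤ (((∑ t, v t : ℕ) : ℝ) + 1) ^ R := by
         apply pow_le_pow_left₀ (by positivity)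
         have : ((Al (Bx Bs)).card : ℝ) ≤ ((∑ t, v t : ℕ) : ℝ) := by exact_mod_cast (card_AlB Bs).trans (Finset.sum_le_sum fun t _ => hBc t)
         linarith
       have hM0 : (0 : ℝ) < Mw w := by linarith
       have hVP : Vq P0 y ≤ Vt P0 w y := by
         rw [Vq_split P0 w y hwy]
         have h2 := Vq_le_one' P0 w
         have h3 := Vt_nonneg P0 w y
         nlinarith
       calc (((Al (Bx Bs)).card : ℝ) + 1) ^ R * √(Y : ℝ) ≤ (((∑ t, v t : ℕ) : ℝ) + 1) ^ R * √(Y : ℝ) :=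
             mul_le_mul_of_nonneg_right h1 (Real.sqrt_nonneg _)
         _ ≤ κ * (Y * Vq P0 y) := hsize
         _ ≤ κ * (Y * Vt P0 w y) := by
             apply mul_le_mul_of_nonneg_left _ hκ0.le
             exact mul_le_mul_of_nonneg_left hVP (Nat.cast_nonneg _)
         _ = η / 16 * (Y / Mw w * Vt P0 w y) := by
             rw [hκ]
             field_simp
     · intro i hi
       unfold Al at hi
       rw [mem_biUnion] at hi
       obtain ⟨t, _, hi⟩ := hi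
       unfold Bx at hi
       rw [mem_image] at hi
       obtain ⟨b, hb, rfl⟩ := hi
       have h1 := Vt_up c w F hF Ec full y Bs hfc hful hwc' t b hb
       have h2 : Gc (fun p => Ec t p b) (2 * c) w y ≤ δ * T t := by
         refine le_trans ?_ (hlogT (T t) (hTmc.trans (hPF.T0T t)))
         refine le_trans ?_ (hone (T t) (hTmb.trans (hPF.T0T t)) (fun p => CoT P0 F Ec none t p b) w y
           (hPF.few none (mem_insert_self _ _) t b hb (by simp) (hexo _).1))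
         exact Gc_mono _ _ _ _ _ _ (by rw [hK3]; nlinarith) (fun p hp => Or.inl hp)
       calc Vt (Eb P0 F (some (t, b))) w y ≤ Wt (full t) w y * Gc (fun p => Ec t p b) (2 * c) w y := h1
         _ ≤ Wt (full t) w y * (δ * T t) := mul_le_mul_of_nonneg_left h2 (hW0 t)
         _ = δ * (T t * Wt (full t) w y) := by ring
         _ ≤ δ * L := mul_le_mul_of_nonneg_left ((hPF.TW t).trans hLw) hδ0.le
         _ ≤ η := by
             rw [hδ, div_mul_eq_mul_div, div_le_iff₀ (by linarith)]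
             nlinarith
     · rw [← hK]
       exact hpair.trans hpair2
     · exact hexp.trans (hκη.trans (by linarith))
     · exact hexr.trans hκη
     · intro i _
       exact hexo i
   exact ⟨hgd, hcls⟩
  have h1 := hlaw (Eb P0 F) none y Y (fun a => Bx (Bl live u' v' a)) ex col
    (fun a => xF F full w y (u' a) (v' a) a) hwy hxy hyY hcol (fun a => (hcore a).1) (by
      intro a t
      unfold xF
      have hW0 : 0 ≤ Wt (full t) w y := Wt_nonneg (full t) c w y (hfc t) hwc'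
      apply mul_nonneg (mul_nonneg _ (Vq_nonneg _ w)) hW0
      have : (u' a t : ℝ) ≤ v' a t := by exact_mod_cast huv' a t
      linarith) (fun a ha t => (hcore a).2 a ha t) A
  have e3 : ∀ a n, Sf P0 y n → (fun t => NG (Eb P0 F) y (Bx (Bl live u' v' a) t) n) =
      fun t => NF F y t (Ioc (u' a t) (v' a t)) n := by
    intro a n hn
    have hnw : Sf P0 w n := fun p hp => hn p (by
      rw [mem_pz] at hp ⊢
      exact ⟨hp.1.trans hwy, hp.2⟩)
    funext t
    unfold NG NF Bx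
    rw [Finset.filter_image, Finset.card_image_of_injective]
    · unfold Bl
      rw [Finset.filter_filter]
      congr 1
      apply Finset.filter_congr
      intro b _
      constructor
      · intro h2
        exact h2.2
      · intro h2
        refine ⟨hlive t b n hnw (fun p hp => h2 p (by
          rw [mem_pz] at hp ⊢
          exact ⟨hp.1.trans hwy, hp.2⟩)), h2⟩
    · intro b b' hbb
      simp only [Option.some.injEq, Prod.mk.injEq] at hbb
      exact hbb.2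
  have e4 : Eb P0 F none = P0 := rfl
  rw [e4] at h1
  have e5 : (OmG P0 y Y).filter (fun n => (fun t => NG (Eb P0 F) y (Bx (Bl live u' v' (n % Mw w)) t) n) ∈
      A (n % Mw w)) = (OmG P0 y Y).filter
        (fun n => (fun t => NF F y t (Ioc (u' (n % Mw w) t) (v' (n % Mw w) t)) n) ∈ A (n % Mw w)) := by
    apply Finset.filter_congr
    intro n hn
    unfold OmG at hn
    rw [mem_filter] at hn
    rw [e3 (n % Mw w) n hn.2]
  rw [e5] at h1
  simp only [xF_mod F c hF full w y] at h1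
  exact h1

end Pool.Agent.Q236.FL
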